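import Pool.Agent.Lib.MB.SwAp
import Pool.Agent.Lib.P4f18df.Sqf

/-!
# Module BaseM: the Moebius function and squarefree values, all shifts

PROOF by induction on `r = |I|`, for all `A`, `B`. `r = 0`: `sw_ap A B`. Step: `I = insert i I'`. `μ(N)² = ∑_{d ≤ z, d² ∣ N} μ(d) + Err(N)`, `|Err(N)| ≤ #{d > z : d² ∣ N}` (`P4f18df.sum_moebius_sq`), `z = ⌈L^(A + 2)⌉₊`. The error term contributes at most `∑_{n ≤ y} |Err(n + h i)| ≤ ∑_{z < d ≤ √(2x)} (y/d² + 1) ≤ x/z + √(2x)`
(`n + h i ≤ 2x`; `P4f18df.card_dvd_Ioc_abs` or `Nat.count`), as all other factors are at most 1 in absolute value. The main term is `∑_{d ≤ z} μ(d) ∑_{n ≤ y, n ≡ a (q), d² ∣ n + h i} μ(n) ∏_{j ∈ I'} μ(n + h j)²`; the two congruences are inconsistent (sum zero) or equivalent to one congruence modulo `lcm(q, d²) ≤ q z² ≤ L^(B + 2A + 6)`: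
induction hypothesis with `B + 2 A + 6` and `2 A + 6`: each of the `z ≤ 2 L^(A+2)` values of `d` gives at most `x/L^(2A + 6)`. Sum: `2 L^(A+2) x/L^(2A+6) + x/L^(A+2) + √(2x) ≤ x/L^A`.
(The combination of the congruences: if some `n0` satisfies both, then `n ≡ a (q)` and `d² ∣ n + h i` iff `n ≡ n0 (mod lcm q (d^2))`: `Nat.modEq_and_modEq_iff_modEq_mul`-like, or `Nat.ModEq` and `Nat.lcm`; `d² ∣ n + h` iff `n + h ≡ n0 + h (mod d²)` iff `n ≡ n0 (mod d²)`.)
-/

set_option autoImplicit false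

open Finset Filter

namespace Pool.Agent.MB

open Pool.Agent.P4f18df

namespace BaseMAux

private lemma mu_sq (N : ℕ) :
    (ArithmeticFunction.moebius N : ℝ) ^ 2 = if Squarefree N then 1 else 0 := by
  by_cases h : Squarefree N
  · rw [if_pos h]
    have := ArithmeticFunction.moebius_sq_eq_one_of_squarefree h
    exact_mod_cast this
  · rw [if_neg h, ArithmeticFunction.moebius_eq_zero_of_not_squarefree h]
    norm_num

private lemma mu_abs (N : ℕ) : |(ArithmeticFunction.moebius N : ℝ)| ≤ 1 := by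
  have := ArithmeticFunction.abs_moebius_le_one (n := N)
  exact_mod_cast this

private lemma mu_sq_split (N z S : ℕ) (hN : 0 < N) (hS : N < (S + 1) ^ 2) :
    |(ArithmeticFunction.moebius N : ℝ) ^ 2 - ∑ d ∈ (Ioc 0 z).filter (fun d => d ^ 2 ∣ N),
      (ArithmeticFunction.moebius d : ℝ)| ≤
      (((Ioc z S).filter (fun d => d ^ 2 ∣ N)).card : ℝ) := by
  have h1 := sum_moebius_sq hN (M := N + z) (by omega)
  have h2 : (Ioc 0 (N + z)).filter (fun d => d ^ 2 ∣ N) =
      (Ioc 0 z).filter (fun d => d ^ 2 ∣ N) ∪ (Ioc z (N + z)).filter (fun d => d ^ 2 ∣ N) := by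
    rw [← Finset.filter_union]
    congr 1
    ext n; simp only [Finset.mem_Ioc, Finset.mem_union]; omega
  have h3 : Disjoint ((Ioc 0 z).filter (fun d => d ^ 2 ∣ N))
      ((Ioc z (N + z)).filter (fun d => d ^ 2 ∣ N)) := by
    rw [Finset.disjoint_left]
    intro n hn hn'
    simp only [Finset.mem_filter, Finset.mem_Ioc] at hn hn'
    omega
  rw [h2, Finset.sum_union h3] at h1
  have h4 : (ArithmeticFunction.moebius N : ℝ) ^ 2 =
      ∑ d ∈ (Ioc 0 z).filter (fun d => d ^ 2 ∣ N), (ArithmeticFunction.moebius d : ℝ) +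
      ∑ d ∈ (Ioc z (N + z)).filter (fun d => d ^ 2 ∣ N), (ArithmeticFunction.moebius d : ℝ) := by
    rw [mu_sq]
    have h5 := congrArg (fun t : ℤ => (t : ℝ)) h1
    push_cast at h5
    rw [← h5]
  rw [h4, add_sub_cancel_left]
  refine (Finset.abs_sum_le_sum_abs _ _).trans ?_
  refine (Finset.sum_le_sum (fun d _ => mu_abs d)).trans ?_
  rw [Finset.sum_const, nsmul_eq_mul, mul_one]
  refine Nat.cast_le.2 (Finset.card_le_card ?_)
  intro d hd
  rw [Finset.mem_filter, Finset.mem_Ioc] at hd ⊢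
  refine ⟨⟨hd.1.1, ?_⟩, hd.2⟩
  have h6 := Nat.le_of_dvd hN hd.2
  have h7 : d ^ 2 < (S + 1) ^ 2 := lt_of_le_of_lt h6 hS
  have h8 := lt_of_pow_lt_pow_left₀ 2 (Nat.zero_le _) h7
  omega

private lemma card_shift (y h v : ℕ) (hv : 0 < v) :
    (((Icc 1 y).filter (fun n => v ∣ n + h)).card : ℝ) ≤ (y : ℝ) / v + 1 := by
  refine le_trans ?_ (card_dvd_Ioc h y v hv)
  refine Nat.cast_le.2 (Finset.card_le_card_of_injOn (fun n => n + h) ?_ ?_)
  · intro n hn
    simp only [Finset.coe_filter, Finset.mem_Icc, Set.mem_ofPred_eq] at hn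
    simp only [Finset.coe_filter, Finset.mem_Ioc, Set.mem_ofPred_eq]
    refine ⟨⟨by omega, by omega⟩, hn.2⟩
  · intro a _ b _ hab
    simp only at hab
    omega

private lemma err_sum (y h z S : ℕ) (hz : 1 ≤ z) :
    ∑ n ∈ Icc 1 y, (((Ioc z S).filter (fun d => d ^ 2 ∣ n + h)).card : ℝ) ≤ (y : ℝ) / z + S := by
  have h1 : ∑ n ∈ Icc 1 y, (((Ioc z S).filter (fun d => d ^ 2 ∣ n + h)).card : ℝ) =
      ∑ d ∈ Ioc z S, (((Icc 1 y).filter (fun n => d ^ 2 ∣ n + h)).card : ℝ) := by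
    simp only [Finset.card_filter, Nat.cast_sum]
    rw [Finset.sum_comm]
  rw [h1]
  have h2 : ∑ d ∈ Ioc z S, (((Icc 1 y).filter (fun n => d ^ 2 ∣ n + h)).card : ℝ) ≤
      ∑ d ∈ Ioc z S, ((y : ℝ) * ((d : ℝ) ^ 2)⁻¹ + 1) := by
    refine Finset.sum_le_sum (fun d hd => ?_)
    rw [Finset.mem_Ioc] at hd
    have hd0 : 0 < d ^ 2 := by
      have : 0 < d := by omega
      positivity
    have h3 := card_shift y h (d ^ 2) hd0
    push_cast at h3
    rw [div_eq_mul_inv] at h3
    exact h3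
  refine h2.trans ?_
  rw [Finset.sum_add_distrib, ← Finset.mul_sum]
  have hy0 : (0 : ℝ) ≤ y := Nat.cast_nonneg _
  have hz0 : (0 : ℝ) < z := by exact_mod_cast hz
  have h4 : ∑ d ∈ Ioc z S, (1 : ℝ) ≤ S := by
    rw [Finset.sum_const, nsmul_eq_mul, mul_one, Nat.card_Ioc]
    exact Nat.cast_le.2 (Nat.sub_le _ _)
  rcases le_or_gt z S with hzS | hzS
  · have h5 := sum_Ioc_inv_sq_le_sub (α := ℝ) (k := z) (n := S) (by omega) hzS
    have h6 : (0 : ℝ) ≤ (S : ℝ)⁻¹ := inv_nonneg.2 (Nat.cast_nonneg _)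
    have h7 : (y : ℝ) * ∑ d ∈ Ioc z S, ((d : ℝ) ^ 2)⁻¹ ≤ (y : ℝ) / z := by
      rw [div_eq_mul_inv]
      exact mul_le_mul_of_nonneg_left (by linarith) hy0
    linarith
  · rw [Finset.Ioc_eq_empty_of_le hzS.le] at h4 ⊢
    simp only [Finset.sum_empty, mul_zero, add_zero]
    positivity

private lemma modEq_iff (n m k : ℕ) : n ≡ m [MOD k] ↔ k ∣ ((m : ℤ) - n).natAbs := by
  rw [Nat.modEq_iff_dvd, Int.natCast_dvd]

private lemma congr_set (n n0 q a h v : ℕ) (h1 : n0 ≡ a [MOD q]) (h2 : v ∣ n0 + h) :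
    (n ≡ a [MOD q] ∧ v ∣ n + h) ↔ n ≡ n0 [MOD Nat.lcm q v] := by
  have h3 : n ≡ a [MOD q] ↔ n ≡ n0 [MOD q] :=
    ⟨fun H => H.trans h1.symm, fun H => H.trans h1⟩
  have h4 : v ∣ n + h ↔ n ≡ n0 [MOD v] := by
    constructor
    · intro H
      have h5 : n + h ≡ n0 + h [MOD v] :=
        ((Nat.modEq_zero_iff_dvd).2 H).trans ((Nat.modEq_zero_iff_dvd).2 h2).symm
      exact Nat.ModEq.add_right_cancel' h h5
    · intro H
      have h5 : n + h ≡ n0 + h [MOD v] := Nat.ModEq.add_right h H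
      exact (Nat.modEq_zero_iff_dvd).1 (h5.trans ((Nat.modEq_zero_iff_dvd).2 h2))
  rw [h3, h4, modEq_iff, modEq_iff, modEq_iff, Nat.lcm_dvd_iff]

private lemma step (x y z S q a : ℕ) (E : ℝ) (hE : 0 ≤ E) (hz : 1 ≤ z) (hy : y ≤ x)
    (hx : x + x < (S + 1) ^ 2) (h : ℕ → ℕ) (I : Finset ℕ) (i : ℕ) (hi : i ∉ I)
    (hhi : h i ≤ x) (hq : 1 ≤ q)
    (hyp : ∀ q' a' : ℕ, 1 ≤ q' → q' ≤ q * z ^ 2 →
      |∑ n ∈ (Icc 1 y).filter (fun n => n ≡ a' [MOD q']), (ArithmeticFunction.moebius n : ℝ) *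
        ∏ j ∈ I, (ArithmeticFunction.moebius (n + h j) : ℝ) ^ 2| ≤ E) :
    |∑ n ∈ (Icc 1 y).filter (fun n => n ≡ a [MOD q]), (ArithmeticFunction.moebius n : ℝ) *
      ∏ j ∈ insert i I, (ArithmeticFunction.moebius (n + h j) : ℝ) ^ 2| ≤
      z * E + ((y : ℝ) / z + S) := by
  set f : ℕ → ℝ := fun n => (ArithmeticFunction.moebius n : ℝ) *
    ∏ j ∈ I, (ArithmeticFunction.moebius (n + h j) : ℝ) ^ 2 with hf
  set D : ℕ → ℝ := fun n => ∑ d ∈ (Ioc 0 z).filter (fun d => d ^ 2 ∣ n + h i),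
    (ArithmeticFunction.moebius d : ℝ) with hD
  have hf1 : ∀ n, |f n| ≤ 1 := by
    intro n
    rw [hf]
    simp only
    rw [abs_mul, Finset.abs_prod]
    have h1 : ∏ j ∈ I, |(ArithmeticFunction.moebius (n + h j) : ℝ) ^ 2| ≤ 1 := by
      refine Finset.prod_le_one (fun j _ => abs_nonneg _) (fun j _ => ?_)
      rw [abs_pow]
      exact pow_le_one₀ (abs_nonneg _) (mu_abs _)
    exact mul_le_one₀ (mu_abs n) (Finset.prod_nonneg (fun j _ => abs_nonneg _)) h1
  have h1 : ∀ n, (ArithmeticFunction.moebius n : ℝ) *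
      ∏ j ∈ insert i I, (ArithmeticFunction.moebius (n + h j) : ℝ) ^ 2 =
      f n * D n + f n * ((ArithmeticFunction.moebius (n + h i) : ℝ) ^ 2 - D n) := by
    intro n
    rw [Finset.prod_insert hi, hf]
    ring
  simp only [h1]
  rw [Finset.sum_add_distrib]
  refine (abs_add_le _ _).trans (add_le_add ?_ ?_)
  · have h2 : ∑ n ∈ (Icc 1 y).filter (fun n => n ≡ a [MOD q]), f n * D n =
        ∑ d ∈ Ioc 0 z, (ArithmeticFunction.moebius d : ℝ) *
          ∑ n ∈ (Icc 1 y).filter (fun n => n ≡ a [MOD q] ∧ d ^ 2 ∣ n + h i), f n := by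
      have h3 : ∀ n, f n * D n = ∑ d ∈ Ioc 0 z,
          (if d ^ 2 ∣ n + h i then (ArithmeticFunction.moebius d : ℝ) * f n else 0) := by
        intro n
        rw [hD]
        simp only
        rw [Finset.sum_filter, Finset.mul_sum]
        refine Finset.sum_congr rfl (fun d _ => ?_)
        split_ifs
        · ring
        · ring
      simp only [h3]
      rw [Finset.sum_comm]
      refine Finset.sum_congr rfl (fun d _ => ?_)
      rw [← Finset.sum_filter, Finset.filter_filter, Finset.mul_sum]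
    rw [h2]
    refine (Finset.abs_sum_le_sum_abs _ _).trans ?_
    have h4 : ∀ d ∈ Ioc 0 z, |(ArithmeticFunction.moebius d : ℝ) *
          ∑ n ∈ (Icc 1 y).filter (fun n => n ≡ a [MOD q] ∧ d ^ 2 ∣ n + h i), f n| ≤ E := by
      intro d hd
      rw [Finset.mem_Ioc] at hd
      rw [abs_mul]
      have h5 : |∑ n ∈ (Icc 1 y).filter (fun n => n ≡ a [MOD q] ∧ d ^ 2 ∣ n + h i), f n| ≤ E := by
        rcases Finset.eq_empty_or_nonempty
          ((Icc 1 y).filter (fun n => n ≡ a [MOD q] ∧ d ^ 2 ∣ n + h i)) with he | ⟨n0, hn0⟩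
        · rw [he, Finset.sum_empty, abs_zero]
          exact hE
        · rw [Finset.mem_filter] at hn0
          have h6 : (Icc 1 y).filter (fun n => n ≡ a [MOD q] ∧ d ^ 2 ∣ n + h i) =
              (Icc 1 y).filter (fun n => n ≡ n0 [MOD Nat.lcm q (d ^ 2)]) := by
            refine Finset.filter_congr (fun n _ => ?_)
            exact congr_set n n0 q a (h i) (d ^ 2) hn0.2.1 hn0.2.2
          rw [h6]
          have hd0 : 0 < d ^ 2 := by
            have : 0 < d := hd.1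
            positivity
          refine hyp _ _ (Nat.lcm_pos hq hd0) ?_
          refine (Nat.le_of_dvd (Nat.mul_pos hq hd0) (Nat.lcm_dvd_mul q (d ^ 2))).trans ?_
          exact Nat.mul_le_mul_left _ (Nat.pow_le_pow_left hd.2 2)
      calc |(ArithmeticFunction.moebius d : ℝ)| * _ ≤ 1 * E :=
            mul_le_mul (mu_abs d) h5 (abs_nonneg _) zero_le_one
        _ = E := one_mul E
    refine (Finset.sum_le_sum h4).trans ?_
    rw [Finset.sum_const, nsmul_eq_mul, Nat.card_Ioc, Nat.sub_zero]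
  · refine (Finset.abs_sum_le_sum_abs _ _).trans ?_
    refine le_trans ?_ (err_sum y (h i) z S hz)
    refine le_trans (Finset.sum_le_sum_of_subset_of_nonneg (Finset.filter_subset _ _)
      (fun n _ _ => abs_nonneg _)) ?_
    refine Finset.sum_le_sum (fun n hn => ?_)
    rw [Finset.mem_Icc] at hn
    rw [abs_mul]
    have h2 := mu_sq_split (n + h i) z S (by omega) (by omega)
    calc |f n| * |(ArithmeticFunction.moebius (n + h i) : ℝ) ^ 2 - D n| ≤
          1 * (((Ioc z S).filter (fun d => d ^ 2 ∣ n + h i)).card : ℝ) :=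
          mul_le_mul (hf1 n) h2 (abs_nonneg _) zero_le_one
      _ = _ := one_mul _

end BaseMAux

open BaseMAux

theorem base_ap (r : ℕ) : ∀ A B : ℕ, ∀ᶠ x : ℕ in atTop, ∀ (h : ℕ → ℕ) (I : Finset ℕ), I.card ≤ r → (∀ i ∈ I, h i ≤ x) →
    ∀ q a y : ℕ, 1 ≤ q → (q : ℝ) ≤ Real.log x ^ B → y ≤ x →
    |∑ n ∈ (Icc 1 y).filter (fun n => n ≡ a [MOD q]), (ArithmeticFunction.moebius n : ℝ) *
      ∏ i ∈ I, (ArithmeticFunction.moebius (n + h i) : ℝ) ^ 2| ≤ x / Real.log x ^ A := by
  induction r with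
  | zero =>
    intro A B
    filter_upwards [sw_ap A B] with x hx h I hI _ q a y hq hqx hy
    have hI0 : I = ∅ := Finset.card_eq_zero.1 (by omega)
    subst hI0
    simp only [Finset.prod_empty, mul_one]
    exact hx q a y hq hqx hy
  | succ r ih =>
    intro A B
    filter_upwards [ih A B, ih (2 * A + 6) (B + (2 * A + 6)), Pool.Agent.HLU.ev_log 2,
      Pool.Agent.HLU.ev_pow (2 * A + 5) 0, eventually_ge_atTop 1] with x h1 h2 hL h3 hx1
      h I hI hhx q a y hq hqx hy
    rcases Nat.lt_or_ge I.card (r + 1) with hc | hc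
    · exact h1 h I (by omega) hhx q a y hq hqx hy
    · have hne : I.Nonempty := Finset.card_pos.1 (by omega)
      obtain ⟨i, hi⟩ := hne
      have hL0 : (0 : ℝ) < Real.log x := by linarith
      have hx0 : (0 : ℝ) < x := by exact_mod_cast hx1
      set L : ℝ := Real.log x with hLdef
      set z : ℕ := ⌈L ^ (A + 2)⌉₊ with hzdef
      set S : ℕ := Nat.sqrt (x + x) with hSdef
      have hLp : (1 : ℝ) ≤ L ^ (A + 2) := one_le_pow₀ (by linarith)
      have hz1 : L ^ (A + 2) ≤ z := Nat.le_ceil _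
      have hz2 : (z : ℝ) ≤ 2 * L ^ (A + 2) := by
        have := Nat.ceil_lt_add_one (show (0 : ℝ) ≤ L ^ (A + 2) by positivity)
        linarith
      have hz0 : 1 ≤ z := by
        have : (0 : ℝ) < z := lt_of_lt_of_le (by positivity) hz1
        exact_mod_cast this
      have hzr : (0 : ℝ) < z := by exact_mod_cast hz0
      have hz3 : (z : ℝ) ^ 2 ≤ L ^ (2 * A + 6) := by
        calc (z : ℝ) ^ 2 ≤ (2 * L ^ (A + 2)) ^ 2 := pow_le_pow_left₀ hzr.le hz2 2
          _ = 4 * L ^ (2 * A + 4) := by ring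
          _ ≤ L ^ 2 * L ^ (2 * A + 4) := mul_le_mul_of_nonneg_right (by nlinarith) (by positivity)
          _ = L ^ (2 * A + 6) := by ring
      have hS1 : x + x < (S + 1) ^ 2 := Nat.lt_succ_sqrt' (x + x)
      have hS2 : S ^ 2 ≤ x + x := Nat.sqrt_le' (x + x)
      have hSr : (S : ℝ) ≤ x / L ^ (A + 2) := by
        rw [le_div_iff₀ (by positivity)]
        have h4 : (S : ℝ) ^ 2 ≤ x + x := by exact_mod_cast hS2
        rw [pow_zero, div_one] at h3
        have h5 : ((S : ℝ) * L ^ (A + 2)) ^ 2 ≤ (x : ℝ) ^ 2 := by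
          calc ((S : ℝ) * L ^ (A + 2)) ^ 2 = (S : ℝ) ^ 2 * L ^ (2 * A + 4) := by ring
            _ ≤ (x + x) * L ^ (2 * A + 4) := mul_le_mul_of_nonneg_right h4 (by positivity)
            _ = x * (2 * L ^ (2 * A + 4)) := by ring
            _ ≤ x * (L * L ^ (2 * A + 4)) := by
                refine mul_le_mul_of_nonneg_left ?_ hx0.le
                exact mul_le_mul_of_nonneg_right hL (by positivity)
            _ = x * L ^ (2 * A + 5) := by ring
            _ ≤ x * x := mul_le_mul_of_nonneg_left h3 hx0.le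
            _ = (x : ℝ) ^ 2 := by ring
        exact le_of_sq_le_sq h5 hx0.le
      have h6 := step x y z S q a (x / L ^ (2 * A + 6)) (by positivity) hz0 hy hS1 h (I.erase i) i
        (Finset.notMem_erase i I) (hhx i hi) hq (by
          intro q' a' hq' hq2
          refine h2 h (I.erase i) ?_ (fun j hj => hhx j (Finset.mem_of_mem_erase hj)) q' a' y hq' ?_ hy
          · rw [Finset.card_erase_of_mem hi]; omega
          · have h7 : (q' : ℝ) ≤ q * (z : ℝ) ^ 2 := by exact_mod_cast hq2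
            refine h7.trans ?_
            rw [pow_add]
            exact mul_le_mul hqx hz3 (by positivity) (by positivity))
      rw [Finset.insert_erase hi] at h6
      refine h6.trans ?_
      have h8 : (z : ℝ) * (x / L ^ (2 * A + 6)) ≤ 2 * (x / L ^ (A + 2)) := by
        calc (z : ℝ) * (x / L ^ (2 * A + 6)) ≤ (2 * L ^ (A + 2)) * (x / L ^ (2 * A + 6)) :=
              mul_le_mul_of_nonneg_right hz2 (by positivity)
          _ = 2 * (x / L ^ (A + 4)) := by
              have : L ^ (2 * A + 6) = L ^ (A + 2) * L ^ (A + 4) := by ring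
              rw [this]
              field_simp
          _ ≤ 2 * (x / L ^ (A + 2)) := by
              refine mul_le_mul_of_nonneg_left ?_ (by norm_num)
              exact div_le_div_of_nonneg_left hx0.le (by positivity)
                (pow_le_pow_right₀ (by linarith) (by omega))
      have h9 : (y : ℝ) / z ≤ x / L ^ (A + 2) := by
        have : (y : ℝ) ≤ x := by exact_mod_cast hy
        exact div_le_div₀ hx0.le this (by positivity) hz1
      have h10 : 4 * (x / L ^ (A + 2)) ≤ x / L ^ A := by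
        rw [pow_add, mul_div_assoc', div_le_div_iff₀ (by positivity) (by positivity)]
        have : (4 : ℝ) ≤ L ^ 2 := by nlinarith
        calc 4 * (x : ℝ) * L ^ A = 4 * (x * L ^ A) := by ring
          _ ≤ L ^ 2 * (x * L ^ A) := mul_le_mul_of_nonneg_right this (by positivity)
          _ = x * (L ^ A * L ^ 2) := by ring
      linarith

theorem base_mu (r A : ℕ) : ∀ᶠ x : ℕ in atTop, ∀ (h : ℕ → ℕ) (I : Finset ℕ), I.card ≤ r → (∀ i ∈ I, h i ≤ x) →
    ∀ y : ℕ, y ≤ x → |∑ n ∈ Icc 1 y, (ArithmeticFunction.moebius n : ℝ) *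
      ∏ i ∈ I, (ArithmeticFunction.moebius (n + h i) : ℝ) ^ 2| ≤ x / Real.log x ^ A := by
  filter_upwards [base_ap r A 0] with x hx h I hI hhx y hy
  have h1 := hx h I hI hhx 1 0 y le_rfl (by simp) hy
  have h2 : (Icc 1 y).filter (fun n => n ≡ 0 [MOD 1]) = Icc 1 y := by
    refine Finset.filter_true_of_mem (fun n _ => ?_)
    exact Nat.modEq_one
  rw [h2] at h1
  exact h1

end Pool.Agent.MB
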