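import Pool.Agent.Lib.MB.Eqd
import Pool.Agent.Lib.P4f18df.Sqf
import Pool.Agent.Lib.MCP.Sqc

/-!
# Module ConB: squarefree values of `n + j + t ^ j`, concentration

PROOF. `c2 = 6/π²`. `μ(N)² = ∑_{d² ∣ N} μ(d)` (`P4f18df.sum_moebius_sq`) `= ∑_{d ≤ z, d² ∣ N} μ(d) + Err(N)`, `|Err(N)| ≤ #{d > z : d² ∣ N}` (`N ≥ 1`).
(1) For `d ≤ z` and fixed `n`: `#{j ∈ [k, 6k) : d² ∣ n + (j + t^j)} = 5k/d² + O(M_d)` by `eqd_int (d²)` (`d² ≤ z² ≤ k`). Sum: `|∑_j ∑_{d ≤ z, d² ∣ ..} μ(d) - 5k ∑_{d ≤ z} μ(d)/d²| ≤ M := ∑_{d ≤ z} M_d`, and `|∑_{d ≤ z} μ(d)/d² - c2| ≤ 2/(z+1)` (`P4f18df.moebius_sq_tail` or similar).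
(2) `∑_{n ≤ y} ∑_j #{d > z : d² ∣ n + j + t^j} ≤ ∑_j ∑_{z < d ≤ √xx} (y/d² + 1) ≤ 5k (y/z + √xx)` (`P4f18df.card_dvd_Ioc_abs` for the number of `n ≤ y` in a residue class; `n + j + t^j ≤ xx`; `∑_{d > z} 1/d² ≤ 1/z`). (Module MCP.Sqc contains the same argument.)
-/

set_option autoImplicit false

open Finset Filter

namespace Pool.Agent.MB

open Pool.Agent.P4f18df

theorem con_b : ∃ C : ℝ, 1 ≤ C ∧ ∀ z : ℕ, 1 ≤ z → ∃ M : ℝ, 0 ≤ M ∧ ∀ k t y xx : ℕ, z ^ 2 ≤ k →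
    (∀ j ∈ Ico k (6 * k), j + t ^ j + y ≤ xx) →
    ∑ n ∈ Icc 1 y, |∑ j ∈ Ico k (6 * k), (ArithmeticFunction.moebius (n + (j + t ^ j)) : ℝ) ^ 2 - c2 * (5 * k)| ≤
      C * (y * (M + k / z) + k * Real.sqrt xx) := by
  refine ⟨15, by norm_num, ?_⟩
  intro z hz
  have hE : ∀ d : ℕ, ∃ M : ℝ, 0 ≤ M ∧ (1 ≤ d → ∀ t a u v : ℕ, d ^ 2 ≤ u → u ≤ v →
      |(((Ico u v).filter (fun j => d ^ 2 ∣ a + (j + t ^ j))).card : ℝ) -
        ((v : ℝ) - u) / ((d ^ 2 : ℕ) : ℝ)| ≤ M) := by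
    intro d
    rcases Nat.eq_zero_or_pos d with h | h
    · exact ⟨0, le_refl _, fun h1 => by omega⟩
    · obtain ⟨M, hM0, hM⟩ := eqd_int (d ^ 2) (Nat.one_le_pow _ _ h)
      exact ⟨M, hM0, fun _ => hM⟩
  choose Md hMd0 hMd using hE
  refine ⟨∑ d ∈ Ioc 0 z, Md d, Finset.sum_nonneg fun d _ => hMd0 d, ?_⟩
  intro k t y xx hzk hxx
  obtain ⟨M, hMdef⟩ : ∃ M, M = ∑ d ∈ Ioc 0 z, Md d := ⟨_, rfl⟩
  rw [← hMdef]
  have hM0 : 0 ≤ M := by rw [hMdef]; exact Finset.sum_nonneg fun d _ => hMd0 d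
  obtain ⟨w, hw⟩ : ∃ w, w = Nat.sqrt xx := ⟨_, rfl⟩
  have hw1 : xx < (w + 1) ^ 2 := by rw [hw]; exact Nat.lt_succ_sqrt' _
  have hw2 : (w : ℝ) ≤ Real.sqrt xx := by
    refine Real.le_sqrt_of_sq_le ?_
    have h1 : w ^ 2 ≤ xx := by rw [hw]; exact Nat.sqrt_le' _
    exact_mod_cast h1
  have hz0 : (0 : ℝ) < z := by exact_mod_cast hz
  have hcard : ((Ico k (6 * k)).card : ℝ) = 5 * k := by
    rw [Nat.card_Ico, show 6 * k - k = 5 * k by omega]
    push_cast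
    ring
  -- one value of `n`
  have key : ∀ n ∈ Icc 1 y, |∑ j ∈ Ico k (6 * k),
      (ArithmeticFunction.moebius (n + (j + t ^ j)) : ℝ) ^ 2 - c2 * (5 * k)| ≤
      (∑ j ∈ Ico k (6 * k), ∑ d ∈ Ioc z w, (if d ^ 2 ∣ n + (j + t ^ j) then (1 : ℝ) else 0)) +
        M + 10 * (k / z) := by
    intro n hn
    rw [mem_Icc] at hn
    have e1 : ∑ j ∈ Ico k (6 * k), (ArithmeticFunction.moebius (n + (j + t ^ j)) : ℝ) ^ 2 -
        c2 * (5 * k) =
        (∑ j ∈ Ico k (6 * k), ((ArithmeticFunction.moebius (n + (j + t ^ j)) : ℝ) ^ 2 -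
          ∑ d ∈ Ioc 0 z, (if d ^ 2 ∣ n + (j + t ^ j) then (ArithmeticFunction.moebius d : ℝ) else 0))) +
        (∑ d ∈ Ioc 0 z, (ArithmeticFunction.moebius d : ℝ) *
          (∑ j ∈ Ico k (6 * k), (if d ^ 2 ∣ n + (j + t ^ j) then (1 : ℝ) else 0) -
            (5 * k) / (d : ℝ) ^ 2)) +
        (∑ d ∈ Ioc 0 z, (ArithmeticFunction.moebius d : ℝ) / (d : ℝ) ^ 2 - c2) * (5 * k) := by
      have e2 : ∑ j ∈ Ico k (6 * k), ((ArithmeticFunction.moebius (n + (j + t ^ j)) : ℝ) ^ 2 -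
          ∑ d ∈ Ioc 0 z, (if d ^ 2 ∣ n + (j + t ^ j) then (ArithmeticFunction.moebius d : ℝ) else 0)) =
          ∑ j ∈ Ico k (6 * k), (ArithmeticFunction.moebius (n + (j + t ^ j)) : ℝ) ^ 2 -
          ∑ d ∈ Ioc 0 z, ∑ j ∈ Ico k (6 * k),
            (if d ^ 2 ∣ n + (j + t ^ j) then (ArithmeticFunction.moebius d : ℝ) else 0) := by
        rw [Finset.sum_comm (s := Ioc 0 z), ← Finset.sum_sub_distrib]
      have e3 : ∑ d ∈ Ioc 0 z, (ArithmeticFunction.moebius d : ℝ) *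
          (∑ j ∈ Ico k (6 * k), (if d ^ 2 ∣ n + (j + t ^ j) then (1 : ℝ) else 0) -
            (5 * k) / (d : ℝ) ^ 2) =
          ∑ d ∈ Ioc 0 z, ∑ j ∈ Ico k (6 * k),
            (if d ^ 2 ∣ n + (j + t ^ j) then (ArithmeticFunction.moebius d : ℝ) else 0) -
          (∑ d ∈ Ioc 0 z, (ArithmeticFunction.moebius d : ℝ) / (d : ℝ) ^ 2) * (5 * k) := by
        rw [Finset.sum_mul, ← Finset.sum_sub_distrib]
        refine Finset.sum_congr rfl fun d _ => ?_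
        rw [mul_sub, Finset.mul_sum]
        congr 1
        · refine Finset.sum_congr rfl fun j _ => ?_
          split_ifs <;> ring
        · ring
      rw [e2, e3]
      ring
    rw [e1]
    have b1 : |∑ j ∈ Ico k (6 * k), ((ArithmeticFunction.moebius (n + (j + t ^ j)) : ℝ) ^ 2 -
        ∑ d ∈ Ioc 0 z, (if d ^ 2 ∣ n + (j + t ^ j) then (ArithmeticFunction.moebius d : ℝ) else 0))| ≤
        ∑ j ∈ Ico k (6 * k), ∑ d ∈ Ioc z w, (if d ^ 2 ∣ n + (j + t ^ j) then (1 : ℝ) else 0) := by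
      refine (Finset.abs_sum_le_sum_abs _ _).trans (Finset.sum_le_sum fun j hj => ?_)
      have h1 := hxx j hj
      exact MCP.SqcAux.sqf (n + (j + t ^ j)) z w (by omega) (by omega)
    have b2 : |∑ d ∈ Ioc 0 z, (ArithmeticFunction.moebius d : ℝ) *
          (∑ j ∈ Ico k (6 * k), (if d ^ 2 ∣ n + (j + t ^ j) then (1 : ℝ) else 0) -
            (5 * k) / (d : ℝ) ^ 2)| ≤ M := by
      refine (Finset.abs_sum_le_sum_abs _ _).trans ?_
      rw [hMdef]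
      refine Finset.sum_le_sum fun d hd => ?_
      rw [mem_Ioc] at hd
      rw [abs_mul]
      refine (mul_le_of_le_one_left (abs_nonneg _) (MCP.SqcAux.mobs d)).trans ?_
      have h2 := hMd d hd.1 t n k (6 * k) ((Nat.pow_le_pow_left hd.2 2).trans hzk) (by omega)
      rw [← Finset.sum_filter, sum_const, nsmul_eq_mul, mul_one]
      push_cast at h2
      rw [show (6 * (k : ℝ) - k) = 5 * k by ring] at h2
      exact h2
    have b3 : |(∑ d ∈ Ioc 0 z, (ArithmeticFunction.moebius d : ℝ) / (d : ℝ) ^ 2 - c2) *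
        (5 * k)| ≤ 10 * (k / z) := by
      rw [abs_mul]
      have h1 : |(5 * k : ℝ)| ≤ 5 * k := by rw [abs_of_nonneg (by positivity)]
      have h2 : (2 : ℝ) / (z + 1) ≤ 2 / z :=
        div_le_div_of_nonneg_left (by norm_num) hz0 (by linarith only)
      refine (mul_le_mul ((moebius_sq_tail z).trans h2) h1 (abs_nonneg _) (by positivity)).trans
        (le_of_eq ?_)
      ring
    refine (abs_add_three _ _ _).trans ?_
    linarith only [b1, b2, b3]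
  refine (Finset.sum_le_sum key).trans ?_
  rw [Finset.sum_add_distrib, Finset.sum_add_distrib, sum_const, sum_const, nsmul_eq_mul,
    nsmul_eq_mul, Nat.card_Icc, Nat.add_sub_cancel]
  have b4 : ∑ n ∈ Icc 1 y, ∑ j ∈ Ico k (6 * k), ∑ d ∈ Ioc z w,
      (if d ^ 2 ∣ n + (j + t ^ j) then (1 : ℝ) else 0) ≤ (5 * k) * (y / z + Real.sqrt xx) := by
    rw [Finset.sum_comm]
    have h1 : ∀ j ∈ Ico k (6 * k), ∑ n ∈ Icc 1 y, ∑ d ∈ Ioc z w,
        (if d ^ 2 ∣ n + (j + t ^ j) then (1 : ℝ) else 0) ≤ y / z + Real.sqrt xx := by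
      intro j _
      rw [Finset.sum_comm]
      have h2 : ∀ d ∈ Ioc z w, ∑ n ∈ Icc 1 y,
          (if d ^ 2 ∣ n + (j + t ^ j) then (1 : ℝ) else 0) ≤ y * ((d : ℝ) ^ 2)⁻¹ + 1 := by
        intro d hd
        rw [mem_Ioc] at hd
        have h3 := (abs_le.1 (MCP.SqcAux.cnt (j + t ^ j) y (d ^ 2)
          (by have h0 : 0 < d := (by omega); positivity))).2
        push_cast at h3
        rw [← div_eq_mul_inv]
        linarith only [h3]
      refine (Finset.sum_le_sum h2).trans ?_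
      rw [Finset.sum_add_distrib, ← Finset.mul_sum, sum_const, nsmul_eq_mul, mul_one,
        Nat.card_Ioc]
      rcases le_or_gt z w with h4 | h4
      · have h5 := sum_Ioc_inv_sq_le_sub (α := ℝ) (k := z) (n := w) (by omega) h4
        have h6 : (0 : ℝ) ≤ (w : ℝ)⁻¹ := by positivity
        have h7 : ∑ d ∈ Ioc z w, ((d : ℝ) ^ 2)⁻¹ ≤ (z : ℝ)⁻¹ := by linarith only [h5, h6]
        have h8 : (y : ℝ) * ∑ d ∈ Ioc z w, ((d : ℝ) ^ 2)⁻¹ ≤ y / z := by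
          rw [div_eq_mul_inv]
          exact mul_le_mul_of_nonneg_left h7 (Nat.cast_nonneg y)
        have h9 : ((w - z : ℕ) : ℝ) ≤ Real.sqrt xx :=
          (Nat.cast_le.2 (Nat.sub_le w z)).trans hw2
        linarith only [h8, h9]
      · rw [Ioc_eq_empty (by omega), sum_empty, mul_zero, zero_add]
        have h9 : ((w - z : ℕ) : ℝ) ≤ Real.sqrt xx :=
          (Nat.cast_le.2 (Nat.sub_le w z)).trans hw2
        have h10 : (0 : ℝ) ≤ y / z := by positivity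
        linarith only [h9, h10]
    refine (Finset.sum_le_sum h1).trans ?_
    rw [sum_const, nsmul_eq_mul, hcard]
  have h5 : (0 : ℝ) ≤ y * M := mul_nonneg (Nat.cast_nonneg _) hM0
  have h6 : (0 : ℝ) ≤ k * Real.sqrt xx := by positivity
  have h8 : (5 * k : ℝ) * (y / z + Real.sqrt xx) = 5 * (y * (k / z)) + 5 * (k * Real.sqrt xx) := by
    ring
  rw [h8] at b4
  have h9 : (y : ℝ) * (10 * (k / z)) = 10 * (y * (k / z)) := by ring
  have h10 : (15 : ℝ) * (y * (M + k / z) + k * Real.sqrt xx) =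
    15 * (y * M) + 15 * (y * (k / z)) + 15 * (k * Real.sqrt xx) := by ring
  rw [h9, h10]
  linarith only [b4, h5, h6]

end Pool.Agent.MB
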