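import Pool.Agent.Lib.PTP.Defs
import Pool.Agent.Lib.MW.Defs

/-!
# Package MB: the Moebius function along one-parameter families, definitions

`MSm`: mean square property of the slot `k` of the parameter set `Ω` with the `r` shift maps `s`, for the Moebius function in
this slot and arbitrary functions in the others. `UCm`: the conclusions for almost all parameters (`N` functions for each slot).
`GoodT`: all correlations of one tuple `h 0, ..., h (r - 1)` with the weight `w`.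
-/

set_option autoImplicit false

open Finset Filter

namespace Pool.Agent.MB

open Pool.Agent.MW

/-- Mean square property of the slot `k` for the Moebius function, with arbitrary complex functions in the other slots. -/
def MSm {τ : Type} (r K B x : ℕ) (Ω : Finset τ) (s : τ → Fin r → ℕ) (k : Fin r) : Prop :=
  ∀ (w : ℕ → ℂ) (G : Fin r → ℕ → ℂ), (∀ n ∈ Icc 1 x, ‖w n‖ ≤ Real.log x ^ K) →
    (∀ i, ∀ n ∈ Icc 1 (2 * x), ‖G i n‖ ≤ Real.log x ^ K) → G k = mu →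
    ∑ t ∈ Ω, ‖∑ n ∈ Icc 1 x, w n * ∏ i, G i (n + s t i)‖ ^ 2 ≤ (Ω.card : ℝ) * ((x : ℝ) ^ 2 / Real.log x ^ B)

/-- The conclusions for almost all parameters; `N` functions for every slot. -/
def UCm {τ : Type} (r N K A x : ℕ) (Ω : Finset τ) (s : τ → Fin r → ℕ) : Prop :=
  ∀ (w : ℕ → ℂ) (g : Fin N → Fin r → ℕ → ℂ), (∀ n ∈ Icc 1 x, ‖w n‖ ≤ Real.log x ^ K) →
    (∀ a i, ∀ n ∈ Icc 1 (2 * x), ‖g a i n‖ ≤ Real.log x ^ K) →
    ∃ E ⊆ Ω, (E.card : ℝ) ≤ (Ω.card : ℝ) / Real.log x ^ A ∧ ∀ t ∈ Ω, t ∉ E →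
      ∀ (J : Finset (Fin r)) (κ : Fin r → Fin N), J.Nonempty → ∀ y : ℕ, y ≤ x →
        ‖∑ n ∈ Icc 1 y, w n * ((∏ i ∈ Jᶜ, g (κ i) i (n + s t i)) * ∏ i ∈ J, mu (n + s t i))‖ ≤
          x / Real.log x ^ A

/-- All correlations of one tuple. -/
def GoodT (r x : ℕ) (δ : ℝ) (h : ℕ → ℕ) (w : ℕ → ℝ) : Prop :=
  ∀ J I : Finset ℕ, J ⊆ I → I ⊆ range r → J.Nonempty → ∀ y : ℕ, y ≤ x →
    |∑ n ∈ Icc 1 y, w n * ((∏ i ∈ J, (ArithmeticFunction.moebius (n + h i) : ℝ)) *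
      ∏ i ∈ I \ J, (ArithmeticFunction.moebius (n + h i) : ℝ) ^ 2)| ≤ δ

end Pool.Agent.MB
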