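import Mathlib

/-!
# Module Eqd: `j + t ^ j` is equidistributed modulo every `m`

PROOF (strong induction on `m`). `M(m) = (m!)^m`. `m = 1` is trivial (`M = 1`). Let `m ≥ 2`.
(1) For every `t` there is `λ ∈ [1, m - 1]` with `t^(j + λ) ≡ t^j (mod m)` for all `j ≥ m`: if two of the residues of `t^0, ..., t^(m-1)` coincide, `t^i ≡ t^i'`, `i < i' ≤ m - 1`, take `λ = i' - i`; otherwise all residues occur, so some `t^i ≡ 0`, `i < m`, and then `t^j ≡ 0` for `j ≥ i`: `λ = 1`.
(2) Let `f j = j + t^j`, `N(a) = #{j ∈ [j0, j0 + M) : m ∣ a + f j}`, `j0 ≥ m`, `M = M(m)`; `m ∣ M`, `λ ∣ m! ∣ M`, so `f (j + M) ≡ f j (mod m)` for `j ≥ m`, and `N(a)` does not depend on `j0 ≥ m` (`Nat.filter_Ico_card_eq_of_periodic`-like, or shift `j0` by one: the element `j0` is replaced by `j0 + M`).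
As `f (j + λ) ≡ f j + λ (mod m)`: `N(a + λ) = N(a)` (substitute `j + λ`, i.e. replace `j0` by `j0 + λ`). Also `N(a + m) = N(a)`. So `N(a) = N(a + g)`, `g = gcd(λ, m) < m` (Bezout: `u λ = g + v m` with natural `u`, `v`).
(3) `∑_{i < m/g} N(a + g i) = #{j ∈ [j0, j0 + M) : g ∣ a + f j}` (for each such `j` exactly one `i` in a full set of residues: `m ∣ a + g i + f j` iff `i ≡ -(a + f j)/g (mod m/g)`), which is `M/g` by induction (`M(g) = (g!)^g ∣ (m!)^m = M`, split the interval into `M/M(g)` intervals of length `M(g)`).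
The left side is `(m/g) N(a)`: so `m N(a) = M`.
It is convenient to prove first: ∃ M for all m by strong induction in the form: `∀ m ≥ 1, ∃ M ≥ 1, ∀ t a j0, m ≤ j0 → m * card = M`, with `M` for `m` = `m * (m)! * ∏_{g < m} M(g)`-like instead of the explicit `(m!)^m`. NOTE: a multiple of a good `M` is good.
`eqd_int`: cut `[u, v)` into blocks of length `M` and a rest shorter than `M`: the counts differ by at most `M` from `(v - u)/m`.
-/

set_option autoImplicit false

open Finset

namespace Pool.Agent.MB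

namespace EqdAux

/-- `M` is a good length for the modulus `m`. -/
def Good (m M : ℕ) : Prop := 1 ≤ M ∧ ∀ t a j0 : ℕ, m ≤ j0 →
    m * ((Ico j0 (j0 + M)).filter (fun j => m ∣ a + (j + t ^ j))).card = M

theorem card_split (p : ℕ → Prop) [DecidablePred p] (a b c : ℕ) (h1 : a ≤ b) (h2 : b ≤ c) :
    ((Ico a c).filter p).card = ((Ico a b).filter p).card + ((Ico b c).filter p).card := by
  rw [← Finset.Ico_union_Ico_eq_Ico h1 h2, Finset.filter_union, Finset.card_union_of_disjoint]
  exact (Finset.disjoint_filter_filter (Finset.Ico_disjoint_Ico_consecutive a b c))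

theorem blocks {m M : ℕ} (h : Good m M) (t a : ℕ) : ∀ k j0 : ℕ, m ≤ j0 →
    m * ((Ico j0 (j0 + M * k)).filter (fun j => m ∣ a + (j + t ^ j))).card = M * k := by
  intro k
  induction k with
  | zero =>
    intro j0 _
    simp
  | succ k ih =>
    intro j0 hj
    rw [card_split _ j0 (j0 + M * k) (j0 + M * (k + 1)) (by omega) (by nlinarith), mul_add, ih j0 hj]
    have h1 := h.2 t a (j0 + M * k) (by omega)
    have h2 : j0 + M * (k + 1) = j0 + M * k + M := by ring
    rw [h2, h1]
    ring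

theorem Good.mul {m M : ℕ} (h : Good m M) {k : ℕ} (hk : 1 ≤ k) : Good m (M * k) :=
  ⟨Nat.mul_pos h.1 hk, fun t a j0 hj => blocks h t a k j0 hj⟩

theorem exists_lam (m : ℕ) (hm : 2 ≤ m) (t : ℕ) :
    ∃ l, 1 ≤ l ∧ l < m ∧ ∀ j, m ≤ j → ((t : ZMod m)) ^ (j + l) = (t : ZMod m) ^ j := by
  have : NeZero m := ⟨by omega⟩
  let F : Fin m → ZMod m := fun i => (t : ZMod m) ^ (i : ℕ)
  by_cases hF : Function.Injective F
  · have hb : Function.Bijective F := by
      rw [Fintype.bijective_iff_injective_and_card]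
      exact ⟨hF, by rw [Fintype.card_fin, ZMod.card]⟩
    obtain ⟨i, hi⟩ := hb.2 0
    refine ⟨1, le_refl 1, by omega, fun j hj => ?_⟩
    have h1 : ∀ j, (i : ℕ) ≤ j → (t : ZMod m) ^ j = 0 := by
      intro j hj
      have h2 : (t : ZMod m) ^ (i : ℕ) = 0 := hi
      rw [← Nat.sub_add_cancel hj, pow_add, h2, mul_zero]
    rw [h1 _ (by have := i.2; omega), h1 _ (by have := i.2; omega)]
  · obtain ⟨i, i', h1, h2⟩ : ∃ i i' : Fin m, i < i' ∧ F i = F i' := by
      rw [Function.Injective] at hF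
      push Not at hF
      obtain ⟨x, y, h1, h2⟩ := hF
      rcases lt_or_gt_of_ne h2 with h | h
      · exact ⟨x, y, h, h1⟩
      · exact ⟨y, x, h, h1.symm⟩
    have h3 : (i : ℕ) < i' := h1
    refine ⟨(i' : ℕ) - i, by omega, by have := i'.2; omega, fun j hj => ?_⟩
    have h4 : (t : ZMod m) ^ (i : ℕ) = (t : ZMod m) ^ (i' : ℕ) := h2
    have h5 : j + ((i' : ℕ) - i) = i' + (j - i) := by have := i'.2; omega
    have h6 : j = i + (j - i) := by have := i'.2; omega
    rw [h5, pow_add, ← h4, ← pow_add, ← h6]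

theorem dvd_iff (m a t j : ℕ) : m ∣ a + (j + t ^ j) ↔
    (a : ZMod m) + ((j : ZMod m) + (t : ZMod m) ^ j) = 0 := by
  rw [← ZMod.natCast_eq_zero_iff]
  push_cast
  rfl

theorem gcd_mem (S : ℕ → Prop) (h0 : S 0) (hadd : ∀ x y, S x → S y → S (x + y))
    (hsub : ∀ x y, S (x + y) → S x → S y) (x y : ℕ) : S x → S y → S (Nat.gcd x y) := by
  induction x, y using Nat.gcd.induction with
  | H0 n =>
    intro _ h
    rwa [Nat.gcd_zero_left]
  | H1 x y hx ih =>
    intro h1 h2
    rw [Nat.gcd_rec]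
    refine ih ?_ h1
    have h3 : ∀ k, S (x * k) := by
      intro k
      induction k with
      | zero => simpa using h0
      | succ k ihk =>
        rw [mul_add, mul_one]
        exact hadd _ _ ihk h1
    have h4 : S (x * (y / x) + y % x) := by
      rw [Nat.div_add_mod]
      exact h2
    exact hsub _ _ h4 (h3 _)

/-- The count. -/
def N (m M t a j0 : ℕ) : ℕ := ((Ico j0 (j0 + M)).filter (fun j => m ∣ a + (j + t ^ j))).card

theorem shift (p q : ℕ → Prop) [DecidablePred p] [DecidablePred q] (a b l : ℕ)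
    (h : ∀ j, a ≤ j → (p j ↔ q (j + l))) :
    ((Ico a b).filter p).card = ((Ico (a + l) (b + l)).filter q).card := by
  rw [← Finset.card_map (addRightEmbedding l)]
  congr 1
  ext x
  simp only [Finset.mem_map, Finset.mem_filter, Finset.mem_Ico, addRightEmbedding_apply]
  constructor
  · rintro ⟨y, ⟨h1, h2⟩, rfl⟩
    exact ⟨⟨by omega, by omega⟩, (h y h1.1).1 h2⟩
  · rintro ⟨h1, h2⟩
    refine ⟨x - l, ⟨⟨by omega, by omega⟩, (h _ (by omega)).2 ?_⟩, by omega⟩
    rwa [Nat.sub_add_cancel (by omega)]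

theorem N_indep {m M t : ℕ} (hper : ∀ j, m ≤ j → (t : ZMod m) ^ (j + M) = (t : ZMod m) ^ j)
    (hM : m ∣ M) (a j0 : ℕ) (hj : m ≤ j0) : N m M t a j0 = N m M t a m := by
  have hM0 : (M : ZMod m) = 0 := (ZMod.natCast_eq_zero_iff _ _).2 hM
  have pp : Function.Periodic (fun j => m ∣ a + ((j + m) + t ^ (j + m))) M := by
    intro j
    show (m ∣ a + ((j + M + m) + t ^ (j + M + m))) = (m ∣ a + ((j + m) + t ^ (j + m)))
    rw [eq_iff_iff, dvd_iff, dvd_iff]
    have h1 := hper (j + m) (by omega)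
    have h2 : j + M + m = j + m + M := by ring
    rw [h2, h1]
    push_cast
    rw [hM0, add_zero]
  have h1 : ∀ n, N m M t a (n + m) = M.count (fun j => m ∣ a + ((j + m) + t ^ (j + m))) := by
    intro n
    rw [← Nat.filter_Ico_card_eq_of_periodic n M _ pp]
    unfold N
    have h2 : n + m + M = n + M + m := by ring
    rw [h2]
    exact (shift (fun j => m ∣ a + ((j + m) + t ^ (j + m))) (fun j => m ∣ a + (j + t ^ j))
      n (n + M) m (fun j _ => Iff.rfl)).symm
  have h3 := h1 (j0 - m)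
  rw [Nat.sub_add_cancel hj] at h3
  have h4 := h1 0
  rw [Nat.zero_add] at h4
  rw [h3, h4]

theorem card_one (h y : ℕ) (hh : 1 ≤ h) : ((range h).filter (fun i => h ∣ y + i)).card = 1 := by
  have pp : Function.Periodic (fun x => h ∣ x) h := by
    intro x
    show (h ∣ x + h) = (h ∣ x)
    rw [eq_iff_iff, Nat.dvd_add_left (dvd_refl h)]
  have h1 := Nat.filter_Ico_card_eq_of_periodic y h _ pp
  have h2 := Nat.filter_Ico_card_eq_of_periodic 0 h _ pp
  have h3 : ((Ico 0 (0 + h)).filter (fun x => h ∣ x)) = {0} := by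
    ext x
    simp only [Finset.mem_filter, Finset.mem_Ico, Finset.mem_singleton]
    constructor
    · rintro ⟨h1, h2⟩
      exact Nat.eq_zero_of_dvd_of_lt h2 (by omega)
    · rintro rfl
      exact ⟨⟨le_refl 0, by omega⟩, dvd_zero h⟩
  rw [h3, Finset.card_singleton] at h2
  rw [← h2] at h1
  rw [← h1, Finset.range_eq_Ico]
  have h4 := shift (fun i => h ∣ y + i) (fun x => h ∣ x) 0 h y (fun j _ => by rw [add_comm y j])
  rw [h4, Nat.zero_add, add_comm h y]

theorem inner_count (g h x : ℕ) (hg : 1 ≤ g) (hh : 1 ≤ h) :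
    ((range h).filter (fun i => g * h ∣ x + g * i)).card = if g ∣ x then 1 else 0 := by
  split_ifs with hx
  · obtain ⟨y, rfl⟩ := hx
    rw [← card_one h y hh]
    congr 1
    ext i
    simp only [Finset.mem_filter, Finset.mem_range]
    rw [← mul_add, Nat.mul_dvd_mul_iff_left (by omega)]
  · rw [Finset.card_eq_zero, Finset.filter_eq_empty_iff]
    intro i _ hi
    apply hx
    have h1 : g ∣ x + g * i := (Dvd.intro h rfl).trans hi
    exact (Nat.dvd_add_left (Dvd.intro i rfl)).1 h1

theorem step (m : ℕ) (hm : 2 ≤ m) (ih : ∀ g, 1 ≤ g → g < m → ∃ M, Good g M) :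
    ∃ M, Good m M := by
  choose! Mf hMf using ih
  let M := m * m.factorial * ∏ g ∈ Ico 1 m, Mf g
  have hprod : 1 ≤ ∏ g ∈ Ico 1 m, Mf g := by
    have h0 : 0 < ∏ g ∈ Ico 1 m, Mf g := by
      apply Finset.prod_pos
      intro g hg
      rw [Finset.mem_Ico] at hg
      exact (hMf g hg.1 hg.2).1
    exact h0
  have hM1 : 1 ≤ M := Nat.mul_pos (Nat.mul_pos (by omega) (Nat.factorial_pos m)) hprod
  have hmM : m ∣ M := ⟨m.factorial * ∏ g ∈ Ico 1 m, Mf g, by show _ = _; simp only [M]; ring⟩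
  refine ⟨M, hM1, fun t a j0 hj => ?_⟩
  obtain ⟨l, hl1, hl2, hl3⟩ := exists_lam m hm t
  have hlM : l ∣ M := by
    have h1 : l ∣ m.factorial := Nat.dvd_factorial hl1 hl2.le
    exact (h1.mul_left m).mul_right _
  have hpk : ∀ k j, m ≤ j → (t : ZMod m) ^ (j + l * k) = (t : ZMod m) ^ j := by
    intro k
    induction k with
    | zero => intro j _; simp
    | succ k ihk =>
      intro j hj
      have h1 : j + l * (k + 1) = j + l * k + l := by ring
      rw [h1, hl3 _ (by omega), ihk j hj]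
  have hper : ∀ j, m ≤ j → (t : ZMod m) ^ (j + M) = (t : ZMod m) ^ j := by
    intro j hj
    obtain ⟨k, hk⟩ := hlM
    rw [hk]
    exact hpk k j hj
  have hN := fun a j0 hj => N_indep hper hmM a j0 hj
  -- invariance
  let S : ℕ → Prop := fun d => ∀ a, N m M t (a + d) m = N m M t a m
  have hSl : S l := by
    intro a
    have h1 : N m M t (a + l) m = N m M t a (m + l) := by
      unfold N
      have h2 : m + l + M = m + M + l := by ring
      rw [h2]
      refine shift _ _ _ _ _ (fun j hj => ?_)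
      rw [dvd_iff, dvd_iff, hl3 j hj]
      push_cast
      constructor <;> intro h <;> rw [← h] <;> ring
    rw [h1, hN a (m + l) (by omega)]
  have hSm : S m := by
    intro a
    unfold N
    congr 1
    ext j
    simp only [Finset.mem_filter]
    have h1 : a + m + (j + t ^ j) = a + (j + t ^ j) + m := by ring
    rw [h1, Nat.dvd_add_left (dvd_refl m)]
  have hSg : S (Nat.gcd l m) := by
    refine gcd_mem S (fun a => rfl) (fun x y hx hy a => ?_) (fun x y hxy hx a => ?_) l m hSl hSm
    · rw [← add_assoc, hy, hx]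
    · have h1 := hxy a
      have h2 := hx (a + y)
      have h3 : a + y + x = a + (x + y) := by ring
      rw [h3, h1] at h2
      exact h2.symm
  obtain ⟨h, hh⟩ : Nat.gcd l m ∣ m := Nat.gcd_dvd_right l m
  have hg1 : 1 ≤ Nat.gcd l m := Nat.gcd_pos_of_pos_left m hl1
  have hgm : Nat.gcd l m < m := lt_of_le_of_lt (Nat.gcd_le_left m hl1) hl2
  obtain ⟨g, hg⟩ : ∃ g, g = Nat.gcd l m := ⟨_, rfl⟩
  rw [← hg] at hh hg1 hgm hSg
  have hh1 : 1 ≤ h := by
    rcases Nat.eq_zero_or_pos h with h0 | h0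
    · rw [h0, mul_zero] at hh
      omega
    · exact h0
  have hSk : ∀ i a, N m M t (a + g * i) m = N m M t a m := by
    intro i
    induction i with
    | zero => intro a; simp
    | succ i ihi =>
      intro a
      have h1 : a + g * (i + 1) = a + g * i + g := by ring
      rw [h1, hSg, ihi]
  have hgood : Good g M := by
    have h1 := hMf g hg1 hgm
    have h2 : Mf g ∣ M := (Finset.dvd_prod_of_mem Mf (Finset.mem_Ico.2 ⟨hg1, hgm⟩)).mul_left _
    obtain ⟨k, hk⟩ := h2
    rw [hk]
    refine h1.mul ?_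
    rcases Nat.eq_zero_or_pos k with h0 | h0
    · rw [h0, mul_zero] at hk
      omega
    · exact h0
  have hsum : ∑ i ∈ range h, N m M t (a + g * i) m =
      ((Ico m (m + M)).filter (fun j => g ∣ a + (j + t ^ j))).card := by
    unfold N
    simp only [Finset.card_filter]
    rw [Finset.sum_comm]
    refine Finset.sum_congr rfl (fun j _ => ?_)
    rw [← inner_count g h (a + (j + t ^ j)) hg1 hh1, Finset.card_filter]
    refine Finset.sum_congr rfl (fun i _ => ?_)
    have h1 : a + g * i + (j + t ^ j) = a + (j + t ^ j) + g * i := by ring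
    rw [h1, ← hh]
  rw [Finset.sum_congr rfl (fun i _ => hSk i a), Finset.sum_const, Finset.card_range,
    smul_eq_mul] at hsum
  have h1 := hgood.2 t a m hgm.le
  rw [← hsum] at h1
  show m * N m M t a j0 = M
  rw [hN a j0 hj]
  calc m * N m M t a m = g * h * N m M t a m := by rw [← hh]
    _ = g * (h * N m M t a m) := by ring
    _ = M := h1

theorem good_one : Good 1 1 := by
  refine ⟨le_refl 1, fun t a j0 _ => ?_⟩
  rw [Finset.filter_true_of_mem (fun j _ => one_dvd _), Nat.card_Ico]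
  omega

theorem exists_good (m : ℕ) (hm : 1 ≤ m) : ∃ M, Good m M := by
  induction m using Nat.strong_induction_on with
  | _ m ih =>
    rcases Nat.lt_or_ge m 2 with h | h
    · have : m = 1 := by omega
      rw [this]
      exact ⟨1, good_one⟩
    · exact step m h (fun g h1 h2 => ih g h2 h1)

end EqdAux

open EqdAux

theorem eqd (m : ℕ) (hm : 1 ≤ m) : ∃ M : ℕ, 1 ≤ M ∧ ∀ t a j0 : ℕ, m ≤ j0 →
    m * ((Ico j0 (j0 + M)).filter (fun j => m ∣ a + (j + t ^ j))).card = M := by
  obtain ⟨M, h1, h2⟩ := exists_good m hm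
  exact ⟨M, h1, h2⟩

theorem eqd_int (m : ℕ) (hm : 1 ≤ m) : ∃ M : ℝ, 0 ≤ M ∧ ∀ t a u v : ℕ, m ≤ u → u ≤ v →
    |(((Ico u v).filter (fun j => m ∣ a + (j + t ^ j))).card : ℝ) - ((v : ℝ) - u) / m| ≤ M := by
  obtain ⟨M, hM⟩ := exists_good m hm
  refine ⟨M, Nat.cast_nonneg M, fun t a u v hu huv => ?_⟩
  obtain ⟨q, r, hr, hv⟩ : ∃ q r, r < M ∧ v = u + M * q + r := by
    refine ⟨(v - u) / M, (v - u) % M, Nat.mod_lt _ hM.1, ?_⟩
    have := Nat.div_add_mod (v - u) M
    omega
  have h1 := blocks hM t a q u hu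
  have h2 := card_split (fun j => m ∣ a + (j + t ^ j)) u (u + M * q) v (by omega) (by omega)
  have h3 : ((Ico (u + M * q) v).filter (fun j => m ∣ a + (j + t ^ j))).card ≤ r := by
    refine (Finset.card_filter_le _ _).trans ?_
    rw [Nat.card_Ico]
    omega
  rw [h2]
  have hm' : (0 : ℝ) < m := by exact_mod_cast hm
  have h1' : (m : ℝ) * (((Ico u (u + M * q)).filter (fun j => m ∣ a + (j + t ^ j))).card : ℝ) =
      M * q := by exact_mod_cast h1
  have h4 : ((v : ℝ) - u) / m =
      (((Ico u (u + M * q)).filter (fun j => m ∣ a + (j + t ^ j))).card : ℝ) + r / m := by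
    rw [hv]
    push_cast
    field_simp
    linarith
  rw [h4]
  have h5 : (r : ℝ) / m ≤ r := div_le_self (Nat.cast_nonneg r) (by exact_mod_cast hm)
  have h6 : 0 ≤ (r : ℝ) / m := by positivity
  have h7 : (((Ico (u + M * q) v).filter (fun j => m ∣ a + (j + t ^ j))).card : ℝ) ≤ r := by
    exact_mod_cast h3
  have h8 : (r : ℝ) ≤ M := by exact_mod_cast hr.le
  have h9 : (0 : ℝ) ≤ (((Ico (u + M * q) v).filter (fun j => m ∣ a + (j + t ^ j))).card : ℝ) :=
    Nat.cast_nonneg _
  push_cast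
  rw [abs_le]
  constructor <;> linarith

end Pool.Agent.MB
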