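import Pool.Agent.Lib.MB.Defs

/-!
# Module GoT: correlations of one tuple

PROOF: apply `UCm r 2 K (A + 1) x Ω s` with `w n = (w n : ℂ)` and `g 0 i n = mu n ^ 2`, `g 1 i n = 1` (norms `≤ 1 ≤ L^K`). For `J ⊆ I ⊆ range r` (finsets of `ℕ`) put `J' = {i : Fin r | i.val ∈ J}`, `κ i = if i.val ∈ I then 0 else 1`. The products over `J`, `I \ J` are products over `Fin r`
(`Finset.prod_range`-like reindexing, e.g. with `Finset.prod_map` / `Finset.prod_nbij'`, or write `∏ i ∈ J, f i = ∏ i : Fin r, if i.val ∈ J then f i.val else 1` by `Finset.prod_range` and `Finset.prod_ite_mem`). The sum is the real part of a complex number that is real: `|a| = ‖(a : ℂ)‖`.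
`h i = s t ⟨i, _⟩` for `i < r`.
-/

set_option autoImplicit false

open Finset Filter

namespace Pool.Agent.MB

open Pool.Agent.MW Pool.Agent.HLU

theorem good_of_uc {τ : Type} (r K A x : ℕ) (hL : 1 ≤ Real.log x) (Ω : Finset τ) (s : τ → Fin r → ℕ) (w : ℕ → ℝ) (hw : ∀ n ∈ Icc 1 x, |w n| ≤ Real.log x ^ K)
    (h : UCm r 2 K A x Ω s) : ∃ E ⊆ Ω, (E.card : ℝ) ≤ (Ω.card : ℝ) / Real.log x ^ A ∧ ∀ t ∈ Ω, t ∉ E →
      ∀ f : ℕ → ℕ, (∀ i : Fin r, f i.val = s t i) → GoodT r x (x / Real.log x ^ A) f w := by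
  classical
  have hone : (1 : ℝ) ≤ Real.log x ^ K := one_le_pow₀ hL
  have hmu : ∀ n : ℕ, ‖mu n‖ ≤ 1 := by
    intro n
    unfold mu
    rw [Complex.norm_intCast]
    exact_mod_cast ArithmeticFunction.abs_moebius_le_one
  obtain ⟨E, hE, hcard, H⟩ := h (fun n => (w n : ℂ)) (fun a _ n => if a = 0 then mu n ^ 2 else 1)
    (by
      intro n hn
      rw [Complex.norm_real, Real.norm_eq_abs]
      exact hw n hn)
    (by
      intro a i n _
      refine le_trans ?_ hone
      by_cases ha : a = 0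
      · simp only [ha, if_true, norm_pow]
        exact pow_le_one₀ (norm_nonneg _) (hmu n)
      · simp [ha])
  refine ⟨E, hE, hcard, ?_⟩
  intro t ht htE f hf J I hJI hIr hJne y hy
  set J' : Finset (Fin r) := univ.filter (fun i => i.val ∈ J) with hJ'
  set κ : Fin r → Fin 2 := fun i => if i.val ∈ I then 0 else 1 with hκ
  have hne : J'.Nonempty := by
    obtain ⟨j, hj⟩ := hJne
    have hjr : j < r := mem_range.1 (hIr (hJI hj))
    exact ⟨⟨j, hjr⟩, by simp [hJ', hj]⟩
  have h1 := H t ht htE J' κ hne y hy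
  have hprod : ∀ (S : Finset ℕ) (F : ℕ → ℂ), S ⊆ range r →
      ∏ i ∈ S, F i = ∏ i : Fin r, (if i.val ∈ S then F i.val else 1) := by
    intro S F hS
    have e1 : ∏ i : Fin r, (if i.val ∈ S then F i.val else 1)
        = ∏ i ∈ range r, (if i ∈ S then F i else 1) :=
      (Finset.prod_range (fun i => if i ∈ S then F i else 1)).symm
    rw [e1, Finset.prod_ite_mem, Finset.inter_eq_right.2 hS]
  have hsum : ((∑ n ∈ Icc 1 y, w n * ((∏ i ∈ J, (ArithmeticFunction.moebius (n + f i) : ℝ)) *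
      ∏ i ∈ I \ J, (ArithmeticFunction.moebius (n + f i) : ℝ) ^ 2) : ℝ) : ℂ)
      = ∑ n ∈ Icc 1 y, (w n : ℂ) * ((∏ i ∈ J'ᶜ, (if κ i = 0 then mu (n + s t i) ^ 2 else 1)) *
        ∏ i ∈ J', mu (n + s t i)) := by
    push_cast
    refine Finset.sum_congr rfl ?_
    intro n _
    congr 1
    rw [mul_comm]
    congr 1
    · rw [hprod (I \ J) (fun i => ((ArithmeticFunction.moebius (n + f i) : ℤ) : ℂ) ^ 2)
        (sdiff_subset.trans hIr)]
      have e2 : J'ᶜ = univ.filter (fun i : Fin r => ¬ i.val ∈ J) := by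
        ext i
        simp [hJ']
      rw [e2, Finset.prod_filter]
      refine Finset.prod_congr rfl ?_
      intro i _
      by_cases hiJ : i.val ∈ J
      · simp [hiJ]
      · by_cases hiI : i.val ∈ I
        · simp [hiJ, hiI, hκ, mu, hf]
        · simp [hiI, hκ]
    · rw [hprod J (fun i => ((ArithmeticFunction.moebius (n + f i) : ℤ) : ℂ)) (hJI.trans hIr),
        hJ', Finset.prod_filter]
      refine Finset.prod_congr rfl ?_
      intro i _
      simp [mu, hf]
  rw [← Real.norm_eq_abs, ← Complex.norm_real, hsum]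
  exact h1

end Pool.Agent.MB
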