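import Pool.Agent.Lib.MB.MomB
import Pool.Agent.Lib.MB.ConB
import Pool.Agent.Lib.P4f18dfC.Gm
import Pool.Agent.Lib.MCP.DLaw

/-!
# Module LawB: the normal law for `∑_{k ≤ j < 6k} c_j μ(n + j + t^j)`

PROOF. `r = 5 k`, `S_n = ∑_{i < 5k} c i μ(n + h i)`, `h i = (k + i) + t^(k + i)`, `c i = ± 1`, `N(n) = ∑_{i < 5k} μ(n + h i)²` (`= ∑_{j ∈ Ico k (6k)} μ(n + (j + t^j))²`, `Finset.sum_Ico_eq_sum_range`). `law_momb`: `mom_b` (`w = 1`): `|∑_{n ≤ y} S_n^q - ∑_{n ≤ y} Rm q| ≤ (5k)^q δ ≤ η y`; division by `(c2 5k)^(q/2) y` (`c2 5k ≥ 1`) makes it `≤ η`.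
`q` odd: `Rm = 0` (`Rm_odd`), `gm q = 0` (`gm_odd`). `q = 2l`: `Rm_even l` (`h = 5k`, `|c i μ| ≤ 1`): `|Rm - gm (2l) N(n)^l| ≤ C_l (5k)^l/(5k)`; `|N(n)^l - (5k c2)^l| ≤ l (5k)^(l-1) |N(n) - 5k c2|`, and by `con_b` (constant `C0`, `M = M_z`) `(1/y) ∑_n |N(n) - 5k c2| ≤ C0 (M + k/z + k √xx/y)`.
Division by `(5k c2)^l`: the total error is at most `c2^(-l) (C_l/(5k) + gm (2l) l C0 (M/(5k) + 1/z + η))`. Choose `z` large, then `k0 ≥ z²` large, `η` small (depending only on `K0`).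
`law_b`: `MCP.d_law δ` gives `K0`; apply `law_momb K0` and `d_law` to `f n = S_n/√(c2 5k)`; `f n ≤ s` iff `S_n ≤ s √(c2 5k)`.
-/

set_option autoImplicit false

open Finset Filter ProbabilityTheory

namespace Pool.Agent.MB

open Pool.Agent.P4f18df Pool.Agent.P4f18dfT Pool.Agent.P4f18dfC

namespace LawBAux

theorem pow_diff (l : ℕ) (a b R : ℝ) (ha : 0 ≤ a) (haR : a ≤ R) (hb : 0 ≤ b) (hbR : b ≤ R) :
    |a ^ l - b ^ l| * R ≤ l * R ^ l * |a - b| := by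
  have hR : 0 ≤ R := ha.trans haR
  induction l with
  | zero => simp
  | succ l ih =>
    have h1 : a ^ (l + 1) - b ^ (l + 1) = a * (a ^ l - b ^ l) + (a - b) * b ^ l := by ring
    have h2 : |a ^ (l + 1) - b ^ (l + 1)| ≤ R * |a ^ l - b ^ l| + |a - b| * R ^ l := by
      rw [h1]
      refine (abs_add_le _ _).trans ?_
      rw [abs_mul, abs_mul, abs_of_nonneg ha, abs_of_nonneg (pow_nonneg hb l)]
      gcongr
    have h3 : R * (|a ^ l - b ^ l| * R) ≤ R * (l * R ^ l * |a - b|) :=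
      mul_le_mul_of_nonneg_left ih hR
    push_cast
    calc |a ^ (l + 1) - b ^ (l + 1)| * R ≤ (R * |a ^ l - b ^ l| + |a - b| * R ^ l) * R :=
          mul_le_mul_of_nonneg_right h2 hR
      _ = R * (|a ^ l - b ^ l| * R) + R ^ (l + 1) * |a - b| := by ring
      _ ≤ R * (l * R ^ l * |a - b|) + R ^ (l + 1) * |a - b| := by linarith
      _ = ((l : ℝ) + 1) * R ^ (l + 1) * |a - b| := by ring

theorem c2_five : 1 ≤ c2 * 5 := by
  unfold c2
  have h1 := Real.pi_lt_d2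
  have h0 := Real.pi_pos
  have h2 : Real.pi ^ 2 ≤ 10 := by nlinarith
  rw [div_mul_eq_mul_div, le_div_iff₀ (by positivity)]
  linarith

theorem mu_sq_le (n : ℕ) : (ArithmeticFunction.moebius n : ℝ) ^ 2 ≤ 1 := by
  have h : |(ArithmeticFunction.moebius n : ℝ)| ≤ 1 := by
    exact_mod_cast ArithmeticFunction.abs_moebius_le_one
  rw [← sq_abs]
  exact pow_le_one₀ (abs_nonneg _) h

/-- the even moment -/
theorem ev (l : ℕ) : ∃ B : ℝ, 0 ≤ B ∧ ∀ z : ℕ, 1 ≤ z → ∃ M : ℝ, 0 ≤ M ∧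
    ∀ (k t x y xx : ℕ) (δ η : ℝ) (c : ℕ → ℝ), z ^ 2 ≤ k → 1 ≤ k → 0 ≤ δ → 0 < η →
    GoodT (5 * k) x δ (fun i => (k + i) + t ^ (k + i)) (fun _ => 1) → (∀ i, c i = 1 ∨ c i = -1) → y ≤ x → 1 ≤ y →
    (∀ j ∈ Ico k (6 * k), j + t ^ j + y ≤ xx) → (5 * k : ℝ) ^ (2 * l) * δ ≤ η * y → Real.sqrt xx ≤ η * y →
    |(∑ n ∈ Icc 1 y, ((∑ i ∈ range (5 * k), c i * (ArithmeticFunction.moebius (n + ((k + i) + t ^ (k + i))) : ℝ)) /
      Real.sqrt (c2 * (5 * k))) ^ (2 * l)) / y - gm (2 * l)| ≤ η + B * ((1 + M) / k + 1 / z + η) := by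
  obtain ⟨C, hC0, hC⟩ := Rm_even l
  obtain ⟨C0, hC01, hcon⟩ := con_b
  have hc2 := c2_pos
  have hg := gm_nonneg (2 * l)
  refine ⟨(C + gm (2 * l) * l * C0) / c2 ^ l, by positivity, fun z hz => ?_⟩
  obtain ⟨M, hM0, hM⟩ := hcon z hz
  refine ⟨M, hM0, ?_⟩
  intro k t x y xx δ η c hzk hk hδ hη hG hc hyx hy hxx hδy hsq
  have hkr : (1 : ℝ) ≤ k := by exact_mod_cast hk
  have hk0 : (0 : ℝ) < k := by linarith
  have hyr : (0 : ℝ) < y := by exact_mod_cast hy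
  have hzr : (0 : ℝ) < z := by exact_mod_cast hz
  set R : ℝ := 5 * k with hR
  have hR0 : 0 < R := by positivity
  have hkR : (k : ℝ) ≤ R := by rw [hR]; linarith
  have hcR1 : 1 ≤ c2 * R := by
    have h1 : c2 * R = c2 * 5 * k := by rw [hR]; ring
    rw [h1]
    have := c2_five
    nlinarith
  set h : ℕ → ℕ := fun i => (k + i) + t ^ (k + i) with hh
  set S : ℕ → ℝ := fun n => ∑ i ∈ range (5 * k), c i * (ArithmeticFunction.moebius (n + h i) : ℝ) with hS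
  set N : ℕ → ℝ := fun n => ∑ i ∈ range (5 * k), (c i * (ArithmeticFunction.moebius (n + h i) : ℝ)) ^ 2 with hN
  set T : ℕ → ℝ := fun n => Rm (2 * l) (range (5 * k))
    (fun i => c i * (ArithmeticFunction.moebius (n + h i) : ℝ)) with hT
  have hcabs : ∀ i, |c i| ≤ 1 := by
    intro i
    rcases hc i with h1 | h1
    · rw [h1]; simp
    · rw [h1]; simp
  have hcsq : ∀ i, c i ^ 2 = 1 := by
    intro i
    rcases hc i with h1 | h1
    · rw [h1]; norm_num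
    · rw [h1]; norm_num
  -- the moments
  have e1 : |∑ n ∈ Icc 1 y, (S n ^ (2 * l) - T n)| ≤ η * y := by
    have h1 := mom_b (5 * k) x δ hδ h (fun _ => 1) hG (2 * l) y hyx c hcabs
    simp only [one_mul] at h1
    refine h1.trans ?_
    push_cast
    exact hδy
  -- the Rademacher averages
  have e2 : ∀ n, |T n - gm (2 * l) * N n ^ l| ≤ C * R ^ l / R := by
    intro n
    have h1 := hC (range (5 * k)) (fun i => c i * (ArithmeticFunction.moebius (n + h i) : ℝ))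
      (fun i => ?_) (5 * k) (by omega) (by rw [card_range])
    · have h2 : ((5 * k : ℕ) : ℝ) = R := by rw [hR]; push_cast; ring
      rw [h2] at h1
      exact h1
    · have h3 : |(ArithmeticFunction.moebius (n + h i) : ℝ)| ≤ 1 := by
        exact_mod_cast ArithmeticFunction.abs_moebius_le_one
      rw [abs_mul]
      have := mul_le_mul (hcabs i) h3 (abs_nonneg _) zero_le_one
      linarith
  -- the number of squarefree values
  have hN1 : ∀ n, N n = ∑ j ∈ Ico k (6 * k), (ArithmeticFunction.moebius (n + (j + t ^ j)) : ℝ) ^ 2 := by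
    intro n
    rw [sum_Ico_eq_sum_range, show 6 * k - k = 5 * k by omega]
    refine sum_congr rfl fun i _ => ?_
    rw [mul_pow, hcsq, one_mul]
  have hN0 : ∀ n, 0 ≤ N n := fun n => sum_nonneg fun i _ => sq_nonneg _
  have hNR : ∀ n, N n ≤ R := by
    intro n
    have h1 : N n ≤ ∑ i ∈ range (5 * k), (1 : ℝ) := by
      refine sum_le_sum fun i _ => ?_
      rw [mul_pow, hcsq, one_mul]
      exact mu_sq_le _
    rw [sum_const, card_range, nsmul_eq_mul, mul_one] at h1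
    rw [hR]
    push_cast at h1
    exact h1
  have e3 : ∑ n ∈ Icc 1 y, |N n - c2 * R| ≤ C0 * (y * (M + k / z) + k * Real.sqrt xx) := by
    have h1 := hM k t y xx hzk hxx
    refine le_trans (le_of_eq ?_) h1
    refine sum_congr rfl fun n _ => ?_
    rw [hN1]
  have hcR : c2 * R ≤ R := by
    have := c2_le
    nlinarith
  have e4 : (∑ n ∈ Icc 1 y, |N n ^ l - (c2 * R) ^ l|) * R ≤
      l * R ^ l * (C0 * (y * (M + k / z) + k * Real.sqrt xx)) := by
    rw [sum_mul]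
    calc ∑ n ∈ Icc 1 y, |N n ^ l - (c2 * R) ^ l| * R
        ≤ ∑ n ∈ Icc 1 y, l * R ^ l * |N n - c2 * R| :=
          sum_le_sum fun n _ => pow_diff l (N n) (c2 * R) R (hN0 n) (hNR n) (by linarith) hcR
      _ = l * R ^ l * ∑ n ∈ Icc 1 y, |N n - c2 * R| := by rw [mul_sum]
      _ ≤ _ := mul_le_mul_of_nonneg_left e3 (by positivity)
  -- everything
  have hcard : ∑ n ∈ Icc 1 y, (1 : ℝ) = y := by
    rw [sum_const, Nat.card_Icc, nsmul_eq_mul, mul_one]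
    norm_num
  have e5 : |∑ n ∈ Icc 1 y, T n - gm (2 * l) * ∑ n ∈ Icc 1 y, N n ^ l| ≤ y * (C * R ^ l / R) := by
    rw [mul_sum, ← sum_sub_distrib]
    refine (abs_sum_le_sum_abs _ _).trans ?_
    calc ∑ n ∈ Icc 1 y, |T n - gm (2 * l) * N n ^ l| ≤ ∑ n ∈ Icc 1 y, 1 * (C * R ^ l / R) :=
          sum_le_sum fun n _ => by rw [one_mul]; exact e2 n
      _ = y * (C * R ^ l / R) := by rw [← sum_mul, hcard]
  have e6 : |∑ n ∈ Icc 1 y, N n ^ l - y * (c2 * R) ^ l| ≤ ∑ n ∈ Icc 1 y, |N n ^ l - (c2 * R) ^ l| := by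
    have h1 : ∑ n ∈ Icc 1 y, N n ^ l - y * (c2 * R) ^ l = ∑ n ∈ Icc 1 y, (N n ^ l - (c2 * R) ^ l) := by
      rw [sum_sub_distrib]
      congr 1
      rw [← hcard, sum_mul]
      simp
    rw [h1]
    exact abs_sum_le_sum_abs _ _
  set A : ℝ := ∑ n ∈ Icc 1 y, |N n ^ l - (c2 * R) ^ l| with hA
  have hA0 : 0 ≤ A := sum_nonneg fun n _ => abs_nonneg _
  have hA1 : A ≤ l * R ^ l * C0 * y * ((1 + M) / k + 1 / z + η) - l * R ^ l * C0 * y * (1 / k) := by
    have h1 : A ≤ l * R ^ l * (C0 * (y * (M + k / z) + k * Real.sqrt xx)) / R := by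
      rw [le_div_iff₀ hR0]
      exact e4
    have h2 : y * (M + k / z) + k * Real.sqrt xx ≤ y * (M + k / z + k * η) := by
      have := mul_le_mul_of_nonneg_left hsq hk0.le
      nlinarith
    have h3 : (y * (M + k / z) + k * Real.sqrt xx) / R ≤ y * (M / k + 1 / z + η) := by
      rw [div_le_iff₀ hR0]
      refine h2.trans ?_
      have h4 : y * (M / k + 1 / z + η) * R = 5 * (y * (M + k / z + k * η)) := by
        rw [hR]
        field_simp
      rw [h4]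
      have h5 : 0 ≤ y * (M + k / z + k * η) := by positivity
      linarith
    calc A ≤ l * R ^ l * (C0 * (y * (M + k / z) + k * Real.sqrt xx)) / R := h1
      _ = l * R ^ l * C0 * ((y * (M + k / z) + k * Real.sqrt xx) / R) := by ring
      _ ≤ l * R ^ l * C0 * (y * (M / k + 1 / z + η)) :=
          mul_le_mul_of_nonneg_left h3 (by positivity)
      _ = _ := by ring
  have hA2 : A ≤ l * R ^ l * C0 * y * ((1 + M) / k + 1 / z + η) := by
    have : 0 ≤ l * R ^ l * C0 * y * (1 / k) := by positivity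
    linarith
  have e7 : |∑ n ∈ Icc 1 y, S n ^ (2 * l) - y * (gm (2 * l) * (c2 * R) ^ l)| ≤
      η * y + y * (C * R ^ l / R) + gm (2 * l) * A := by
    have h1 : ∑ n ∈ Icc 1 y, S n ^ (2 * l) - y * (gm (2 * l) * (c2 * R) ^ l) =
        (∑ n ∈ Icc 1 y, (S n ^ (2 * l) - T n)) +
        (∑ n ∈ Icc 1 y, T n - gm (2 * l) * ∑ n ∈ Icc 1 y, N n ^ l) +
        gm (2 * l) * (∑ n ∈ Icc 1 y, N n ^ l - y * (c2 * R) ^ l) := by
      rw [sum_sub_distrib]
      ring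
    rw [h1]
    refine (abs_add_le _ _).trans (add_le_add ((abs_add_le _ _).trans (add_le_add e1 e5)) ?_)
    rw [abs_mul, abs_of_nonneg hg]
    exact mul_le_mul_of_nonneg_left e6 hg
  -- division
  have hP : 0 < (c2 * R) ^ l := by positivity
  have hP1 : 1 ≤ (c2 * R) ^ l := one_le_pow₀ hcR1
  have hpow : ∀ n, (S n / Real.sqrt (c2 * R)) ^ (2 * l) = S n ^ (2 * l) / (c2 * R) ^ l := by
    intro n
    rw [div_pow, pow_mul (Real.sqrt (c2 * R)), Real.sq_sqrt (by positivity)]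
  have hgoal : (∑ n ∈ Icc 1 y, (S n / Real.sqrt (c2 * R)) ^ (2 * l)) / y - gm (2 * l) =
      (∑ n ∈ Icc 1 y, S n ^ (2 * l) - y * (gm (2 * l) * (c2 * R) ^ l)) / (y * (c2 * R) ^ l) := by
    simp only [hpow]
    rw [← sum_div]
    field_simp
  have hfin : |(∑ n ∈ Icc 1 y, (S n / Real.sqrt (c2 * R)) ^ (2 * l)) / y - gm (2 * l)| ≤
      η + (C + gm (2 * l) * l * C0) / c2 ^ l * ((1 + M) / k + 1 / z + η) := by
    rw [hgoal, abs_div, abs_of_pos (mul_pos hyr hP), div_le_iff₀ (mul_pos hyr hP)]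
    refine e7.trans ?_
    have h1 : η * y ≤ η * (y * (c2 * R) ^ l) := by
      have : η * y * 1 ≤ η * y * (c2 * R) ^ l := mul_le_mul_of_nonneg_left hP1 (by positivity)
      linarith
    have hX : 1 / R ≤ (1 + M) / k + 1 / z + η := by
      have h2 : 1 / R ≤ 1 / k := one_div_le_one_div_of_le hk0 hkR
      have h3 : 1 / (k : ℝ) ≤ (1 + M) / k := by gcongr; linarith
      have h4 : 0 ≤ 1 / (z : ℝ) := by positivity
      linarith
    set X : ℝ := (1 + M) / k + 1 / z + η with hXd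
    have h2 : y * (C * R ^ l / R) ≤ y * (C * R ^ l * X) := by
      have : y * (C * R ^ l / R) = y * (C * R ^ l * (1 / R)) := by ring
      rw [this]
      exact mul_le_mul_of_nonneg_left (mul_le_mul_of_nonneg_left hX (by positivity)) hyr.le
    have h3 : gm (2 * l) * A ≤ gm (2 * l) * (l * R ^ l * C0 * y * X) :=
      mul_le_mul_of_nonneg_left hA2 hg
    have h4 : (η + (C + gm (2 * l) * l * C0) / c2 ^ l * X) * (y * (c2 * R) ^ l) =
        η * (y * (c2 * R) ^ l) + y * (C * R ^ l * X) + gm (2 * l) * (l * R ^ l * C0 * y * X) := by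
      rw [mul_pow]
      field_simp
      ring
    rw [h4]
    linarith
  exact hfin

/-- the odd moment -/
theorem od (q : ℕ) (hq : Odd q) (k t x y : ℕ) (δ η : ℝ) (c : ℕ → ℝ) (hk : 1 ≤ k) (hδ : 0 ≤ δ)
    (hG : GoodT (5 * k) x δ (fun i => (k + i) + t ^ (k + i)) (fun _ => 1)) (hc : ∀ i, c i = 1 ∨ c i = -1)
    (hyx : y ≤ x) (hy : 1 ≤ y) (hδy : (5 * k : ℝ) ^ q * δ ≤ η * y) :
    |(∑ n ∈ Icc 1 y, ((∑ i ∈ range (5 * k), c i * (ArithmeticFunction.moebius (n + ((k + i) + t ^ (k + i))) : ℝ)) /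
      Real.sqrt (c2 * (5 * k))) ^ q) / y - gm q| ≤ η := by
  have hkr : (1 : ℝ) ≤ k := by exact_mod_cast hk
  have hyr : (0 : ℝ) < y := by exact_mod_cast hy
  have hcR1 : 1 ≤ c2 * (5 * k) := by
    have h1 : c2 * (5 * k) = c2 * 5 * k := by ring
    rw [h1]
    have := c2_five
    nlinarith
  have hcabs : ∀ i, |c i| ≤ 1 := by
    intro i
    rcases hc i with h1 | h1
    · rw [h1]; simp
    · rw [h1]; simp
  have h1 := mom_b (5 * k) x δ hδ (fun i => (k + i) + t ^ (k + i)) (fun _ => 1) hG q y hyx c hcabs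
  simp only [one_mul, Rm_odd hq, sub_zero] at h1
  have h2 : |∑ n ∈ Icc 1 y, (∑ i ∈ range (5 * k),
      c i * (ArithmeticFunction.moebius (n + ((k + i) + t ^ (k + i))) : ℝ)) ^ q| ≤ η * y := by
    refine h1.trans ?_
    push_cast
    exact hδy
  have hs1 : 1 ≤ Real.sqrt (c2 * (5 * k)) := by
    rw [Real.one_le_sqrt]
    exact hcR1
  have hs : 1 ≤ Real.sqrt (c2 * (5 * k)) ^ q := one_le_pow₀ hs1
  have hs0 : 0 < Real.sqrt (c2 * (5 * k)) ^ q := by linarith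
  rw [gm_odd hq, sub_zero]
  simp only [div_pow]
  rw [← sum_div, div_div, abs_div, abs_of_pos (mul_pos hs0 hyr), div_le_iff₀ (mul_pos hs0 hyr)]
  refine h2.trans ?_
  have hη : 0 ≤ η * y := le_trans (abs_nonneg _) h2
  have h3 : η * y * 1 ≤ η * y * Real.sqrt (c2 * (5 * k)) ^ q := mul_le_mul_of_nonneg_left hs hη
  linarith

end LawBAux

theorem law_momb (K0 : ℕ) : ∃ (k0 : ℕ) (η : ℝ), 1 ≤ k0 ∧ 0 < η ∧ ∀ (k t x y xx : ℕ) (δ : ℝ) (c : ℕ → ℝ), k0 ≤ k → 0 ≤ δ →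
    GoodT (5 * k) x δ (fun i => (k + i) + t ^ (k + i)) (fun _ => 1) → (∀ i, c i = 1 ∨ c i = -1) → y ≤ x → 1 ≤ y →
    (∀ j ∈ Ico k (6 * k), j + t ^ j + y ≤ xx) → (5 * k : ℝ) ^ K0 * δ ≤ η * y → Real.sqrt xx ≤ η * y →
    ∀ q ≤ K0, |(∑ n ∈ Icc 1 y, ((∑ i ∈ range (5 * k), c i * (ArithmeticFunction.moebius (n + ((k + i) + t ^ (k + i))) : ℝ)) /
      Real.sqrt (c2 * (5 * k))) ^ q) / y - gm q| ≤ 1 / K0 := by
  rcases Nat.eq_zero_or_pos K0 with hK0 | hK0
  · refine ⟨1, 1, le_refl _, one_pos, ?_⟩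
    intro k t x y xx δ c _ _ _ _ _ hy _ _ _ q hq
    have hq0 : q = 0 := by omega
    have hyr : (y : ℝ) ≠ 0 := by exact_mod_cast (by omega : y ≠ 0)
    subst hq0
    simp only [pow_zero, sum_const, Nat.card_Icc, Nat.add_sub_cancel, nsmul_eq_mul, mul_one, gm_zero]
    rw [div_self hyr, sub_self, abs_zero]
    positivity
  have hKr : (0 : ℝ) < K0 := by exact_mod_cast hK0
  choose B hB0 hB using LawBAux.ev
  set Bs : ℝ := 1 + ∑ l ∈ range (K0 + 1), B l with hBs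
  have hBs1 : 1 ≤ Bs := by
    have : 0 ≤ ∑ l ∈ range (K0 + 1), B l := sum_nonneg fun l _ => hB0 l
    linarith
  have hBle : ∀ l ≤ K0, B l ≤ Bs := by
    intro l hl
    have h1 : B l ≤ ∑ l ∈ range (K0 + 1), B l :=
      single_le_sum (f := B) (fun i _ => hB0 i) (mem_range.2 (by omega))
    linarith
  obtain ⟨z, hz⟩ := exists_nat_gt (4 * K0 * Bs : ℝ)
  have hz1 : 1 ≤ z := by
    rcases Nat.eq_zero_or_pos z with h | h
    · subst h
      have : (0 : ℝ) < 4 * K0 * Bs := by positivity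
      push_cast at hz
      linarith
    · exact h
  choose M hM0 hM using fun l => hB l z hz1
  set Ms : ℝ := 1 + ∑ l ∈ range (K0 + 1), M l with hMs
  have hMs1 : 1 ≤ Ms := by
    have : 0 ≤ ∑ l ∈ range (K0 + 1), M l := sum_nonneg fun l _ => hM0 l
    linarith
  have hMle : ∀ l ≤ K0, 1 + M l ≤ Ms := by
    intro l hl
    have h1 : M l ≤ ∑ l ∈ range (K0 + 1), M l :=
      single_le_sum (f := M) (fun i _ => hM0 i) (mem_range.2 (by omega))
    linarith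
  obtain ⟨k1, hk1⟩ := exists_nat_gt (4 * K0 * Bs * Ms : ℝ)
  have hη0 : (0 : ℝ) < 1 / (4 * K0 * (1 + Bs)) := by positivity
  refine ⟨max (max 1 k1) (z ^ 2), 1 / (4 * K0 * (1 + Bs)), by simp, hη0, ?_⟩
  intro k t x y xx δ c hk hδ hG hc hyx hy hxx hδy hsq q hq
  have hk1' : 1 ≤ k := le_trans (le_trans (le_max_left _ _) (le_max_left _ _)) hk
  have hkk : k1 ≤ k := le_trans (le_trans (le_max_right _ _) (le_max_left _ _)) hk
  have hzk : z ^ 2 ≤ k := le_trans (le_max_right _ _) hk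
  have hkr : (1 : ℝ) ≤ k := by exact_mod_cast hk1'
  have hyr : (0 : ℝ) < y := by exact_mod_cast hy
  have hδq : (5 * k : ℝ) ^ q * δ ≤ 1 / (4 * K0 * (1 + Bs)) * y := by
    refine le_trans (mul_le_mul_of_nonneg_right ?_ hδ) hδy
    exact pow_le_pow_right₀ (by linarith) hq
  have hη1 : 1 / (4 * K0 * (1 + Bs)) ≤ 1 / (K0 : ℝ) := by
    apply one_div_le_one_div_of_le hKr
    nlinarith
  rcases Nat.even_or_odd' q with ⟨l, hl | hl⟩
  · subst hl
    have h1 := hM l k t x y xx δ _ c hzk hk1' hδ hη0 hG hc hyx hy hxx hδq hsq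
    refine h1.trans ?_
    have hlK : l ≤ K0 := by omega
    have hkp : (0 : ℝ) < k := by linarith
    have hzp : (0 : ℝ) < z := by exact_mod_cast hz1
    have a1 : (1 + M l) / k ≤ 1 / (4 * K0 * Bs) := by
      rw [div_le_div_iff₀ hkp (by positivity)]
      have h2 : (k1 : ℝ) ≤ k := by exact_mod_cast hkk
      have h3 : (1 + M l) * (4 * K0 * Bs) ≤ Ms * (4 * K0 * Bs) :=
        mul_le_mul_of_nonneg_right (hMle l hlK) (by positivity)
      linarith
    have a2 : 1 / (z : ℝ) ≤ 1 / (4 * K0 * Bs) := one_div_le_one_div_of_le (by positivity) hz.le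
    have a3 : B l * ((1 + M l) / k + 1 / z + 1 / (4 * K0 * (1 + Bs))) ≤
        Bs * (1 / (4 * K0 * Bs) + 1 / (4 * K0 * Bs) + 1 / (4 * K0 * (1 + Bs))) := by
      have h5 : 0 ≤ (1 + M l) / k + 1 / z + 1 / (4 * K0 * (1 + Bs)) := by
        have := hM0 l
        positivity
      refine mul_le_mul (hBle l hlK) (by linarith) h5 (by linarith)
    have a4 : 1 / (4 * K0 * (1 + Bs)) + Bs * (1 / (4 * K0 * Bs) + 1 / (4 * K0 * Bs) + 1 / (4 * K0 * (1 + Bs))) =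
        3 / 4 * (1 / (K0 : ℝ)) := by
      have hBp : Bs ≠ 0 := by linarith
      have hBp1 : 1 + Bs ≠ 0 := by linarith
      field_simp
      ring
    have a5 : (0 : ℝ) < 1 / K0 := by positivity
    linarith
  · exact (LawBAux.od q ⟨l, hl⟩ k t x y δ _ c hk1' hδ hG hc hyx hy hδq).trans hη1

theorem law_b (δ₀ : ℝ) (hδ₀ : 0 < δ₀) : ∃ (K0 k0 : ℕ) (η : ℝ), 1 ≤ k0 ∧ 0 < η ∧ ∀ (k t x y xx : ℕ) (δ : ℝ) (c : ℕ → ℝ), k0 ≤ k → 0 ≤ δ →
    GoodT (5 * k) x δ (fun i => (k + i) + t ^ (k + i)) (fun _ => 1) → (∀ i, c i = 1 ∨ c i = -1) → y ≤ x → 1 ≤ y →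
    (∀ j ∈ Ico k (6 * k), j + t ^ j + y ≤ xx) → (5 * k : ℝ) ^ K0 * δ ≤ η * y → Real.sqrt xx ≤ η * y →
    ∀ s : ℝ, |(((Icc 1 y).filter (fun n => ∑ i ∈ range (5 * k), c i * (ArithmeticFunction.moebius (n + ((k + i) + t ^ (k + i))) : ℝ) ≤
      s * Real.sqrt (c2 * (5 * k)))).card : ℝ) / y - cdf (gaussianReal 0 1) s| ≤ δ₀ := by
  obtain ⟨K, hK, hd⟩ := MCP.d_law δ₀ hδ₀
  obtain ⟨k0, η, hk0, hη, hm⟩ := law_momb K
  refine ⟨K, k0, η, hk0, hη, ?_⟩
  intro k t x y xx δ c hk hδ hG hc hyx hy hxx hδy hsq s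
  have h1 := hd y (fun n => (∑ i ∈ range (5 * k), c i * (ArithmeticFunction.moebius (n + ((k + i) + t ^ (k + i))) : ℝ)) /
      Real.sqrt (c2 * (5 * k))) hy (hm k t x y xx δ c hk hδ hG hc hyx hy hxx hδy hsq) s
  have hkr : (1 : ℝ) ≤ k := by exact_mod_cast hk0.trans hk
  have hc2 := c2_pos
  have hs : 0 < Real.sqrt (c2 * (5 * k)) := Real.sqrt_pos.2 (by positivity)
  have h2 : (Icc 1 y).filter (fun n => (∑ i ∈ range (5 * k),
      c i * (ArithmeticFunction.moebius (n + ((k + i) + t ^ (k + i))) : ℝ)) / Real.sqrt (c2 * (5 * k)) ≤ s) =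
      (Icc 1 y).filter (fun n => ∑ i ∈ range (5 * k),
      c i * (ArithmeticFunction.moebius (n + ((k + i) + t ^ (k + i))) : ℝ) ≤ s * Real.sqrt (c2 * (5 * k))) := by
    refine filter_congr fun n _ => ?_
    rw [div_le_iff₀ hs]
  rw [h2] at h1
  exact h1

end Pool.Agent.MB
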