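import Pool.Agent.Lib.MB.Defs

/-!
# Module SgnM: sign patterns

PROOF: for `η i = ± 1`: `[μ(m) = η i] = (μ(m)^2 + η i μ(m))/2`, for `η i = 0`: `[μ(m) = 0] = 1 - μ(m)^2` (`μ(m) ∈ {-1, 0, 1}`). Let `S = {i < r : η i ≠ 0}`, `Z = range r \ S`. So the indicator of the pattern is
`2^(-|S|) ∏_(i ∈ S) (μ_i^2 + η i μ_i) ∏_(i ∈ Z) (1 - μ_i^2) = 2^(-|S|) ∑_(J ⊆ S) ∑_(U ⊆ Z) (∏_(i ∈ J) η i) (-1)^|U| ∏_(i ∈ J) μ_i ∏_(i ∈ (S ∪ U) \ J) μ_i^2` (`Finset.prod_add`, `Finset.prod_one_sub...` or `prod_add`), and the terms with `J = ∅` give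
`2^(-|S|)` times the indicator of `μ_i^2 = η i^2` for all `i < r` (expand it in the same way). The other terms are bounded by `GoodT` with `I = S ∪ U`: at most `2^r 2^r` terms, each at most `δ`.
-/

set_option autoImplicit false

open Finset Filter

namespace Pool.Agent.MB

namespace SgnMAux

/-- The one-letter identities. -/
theorem one_pos (a e : ℤ) (ha : a = 0 ∨ a = 1 ∨ a = -1) (he : e = -1 ∨ e = 1) :
    (if a = e then (1 : ℝ) else 0) = ((e : ℝ) * (a : ℝ) + (a : ℝ) ^ 2) / 2 := by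
  rcases ha with rfl | rfl | rfl <;> rcases he with rfl | rfl <;> norm_num

theorem one_sq (a e : ℤ) (ha : a = 0 ∨ a = 1 ∨ a = -1) (he : e = -1 ∨ e = 1) :
    (if a ^ 2 = e ^ 2 then (1 : ℝ) else 0) = (a : ℝ) ^ 2 := by
  rcases ha with rfl | rfl | rfl <;> rcases he with rfl | rfl <;> norm_num

theorem zero_pos (a : ℤ) (ha : a = 0 ∨ a = 1 ∨ a = -1) :
    (if a = 0 then (1 : ℝ) else 0) = -((a : ℝ) ^ 2) + 1 := by
  rcases ha with rfl | rfl | rfl <;> norm_num

theorem zero_sq (a : ℤ) (ha : a = 0 ∨ a = 1 ∨ a = -1) :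
    (if a ^ 2 = (0 : ℤ) ^ 2 then (1 : ℝ) else 0) = -((a : ℝ) ^ 2) + 1 := by
  rcases ha with rfl | rfl | rfl <;> norm_num

/-- The pointwise expansion. -/
theorem expand (r : ℕ) (a η : ℕ → ℤ) (ha : ∀ i, a i = 0 ∨ a i = 1 ∨ a i = -1)
    (hη : ∀ i ∈ range r, η i = -1 ∨ η i = 0 ∨ η i = 1) :
    (if ∀ i ∈ range r, a i = η i then (1 : ℝ) else 0) -
      (if ∀ i ∈ range r, a i ^ 2 = η i ^ 2 then (1 : ℝ) else 0) / 2 ^ ((range r).filter (fun i => η i ≠ 0)).card =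
    ∑ J ∈ ((range r).filter (fun i => η i ≠ 0)).powerset.erase ∅,
      ∑ U ∈ ((range r).filter (fun i => ¬ η i ≠ 0)).powerset,
        ((∏ i ∈ J, (η i : ℝ)) * (-1) ^ U.card / 2 ^ ((range r).filter (fun i => η i ≠ 0)).card) *
          ((∏ i ∈ J, (a i : ℝ)) *
            ∏ i ∈ (((range r).filter (fun i => η i ≠ 0)) ∪ U) \ J, (a i : ℝ) ^ 2) := by
  classical
  set S := (range r).filter (fun i => η i ≠ 0) with hS
  set Z := (range r).filter (fun i => ¬ η i ≠ 0) with hZ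
  have hdisj : Disjoint S Z := Finset.disjoint_filter_filter_not _ _ _
  have hSη : ∀ i ∈ S, η i = -1 ∨ η i = 1 := by
    intro i hi
    rw [hS, mem_filter] at hi
    rcases hη i hi.1 with h | h | h
    · exact Or.inl h
    · exact absurd h hi.2
    · exact Or.inr h
  have hZη : ∀ i ∈ Z, η i = 0 := by
    intro i hi
    rw [hZ, mem_filter] at hi
    exact not_not.mp hi.2
  have h1 : (if ∀ i ∈ range r, a i = η i then (1 : ℝ) else 0) =
      (∏ i ∈ S, (((η i : ℝ) * (a i : ℝ) + (a i : ℝ) ^ 2) / 2)) * ∏ i ∈ Z, (-((a i : ℝ) ^ 2) + 1) := by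
    rw [← Finset.prod_boole, ← Finset.prod_filter_mul_prod_filter_not (range r) (fun i => η i ≠ 0)]
    congr 1
    · exact Finset.prod_congr rfl fun i hi => one_pos _ _ (ha i) (hSη i hi)
    · refine Finset.prod_congr rfl fun i hi => ?_
      rw [hZη i hi]
      exact zero_pos _ (ha i)
  have h2 : (if ∀ i ∈ range r, a i ^ 2 = η i ^ 2 then (1 : ℝ) else 0) =
      (∏ i ∈ S, (a i : ℝ) ^ 2) * ∏ i ∈ Z, (-((a i : ℝ) ^ 2) + 1) := by
    rw [← Finset.prod_boole, ← Finset.prod_filter_mul_prod_filter_not (range r) (fun i => η i ≠ 0)]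
    congr 1
    · exact Finset.prod_congr rfl fun i hi => one_sq _ _ (ha i) (hSη i hi)
    · refine Finset.prod_congr rfl fun i hi => ?_
      rw [hZη i hi]
      exact zero_sq _ (ha i)
  have h3 : (∏ i ∈ S, (((η i : ℝ) * (a i : ℝ) + (a i : ℝ) ^ 2) / 2)) =
      (∏ i ∈ S, ((η i : ℝ) * (a i : ℝ) + (a i : ℝ) ^ 2)) / 2 ^ S.card := by
    rw [Finset.prod_div_distrib, Finset.prod_const]
  have h4 : (∏ i ∈ S, ((η i : ℝ) * (a i : ℝ) + (a i : ℝ) ^ 2)) - ∏ i ∈ S, (a i : ℝ) ^ 2 =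
      ∑ J ∈ S.powerset.erase ∅, (∏ i ∈ J, ((η i : ℝ) * (a i : ℝ))) * ∏ i ∈ S \ J, (a i : ℝ) ^ 2 := by
    rw [Finset.prod_add, ← Finset.add_sum_erase S.powerset _ (Finset.empty_mem_powerset S)]
    simp
  have h5 : ∏ i ∈ Z, (-((a i : ℝ) ^ 2) + 1) =
      ∑ U ∈ Z.powerset, (-1) ^ U.card * ∏ i ∈ U, (a i : ℝ) ^ 2 := by
    rw [Finset.prod_add]
    refine Finset.sum_congr rfl fun U _ => ?_
    rw [Finset.prod_const_one, mul_one, Finset.prod_neg]
  have key : (if ∀ i ∈ range r, a i = η i then (1 : ℝ) else 0) -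
      (if ∀ i ∈ range r, a i ^ 2 = η i ^ 2 then (1 : ℝ) else 0) / 2 ^ S.card =
      (((∏ i ∈ S, ((η i : ℝ) * (a i : ℝ) + (a i : ℝ) ^ 2)) - ∏ i ∈ S, (a i : ℝ) ^ 2) *
        ∏ i ∈ Z, (-((a i : ℝ) ^ 2) + 1)) / 2 ^ S.card := by
    rw [h1, h2, h3]; ring
  rw [key, h4, h5, Finset.sum_mul_sum, Finset.sum_div]
  refine Finset.sum_congr rfl fun J hJ => ?_
  rw [Finset.sum_div]
  refine Finset.sum_congr rfl fun U hU => ?_
  have hJS : J ⊆ S := Finset.mem_powerset.mp (Finset.mem_of_mem_erase hJ)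
  have hUZ : U ⊆ Z := Finset.mem_powerset.mp hU
  have hUJ : Disjoint U J := (hdisj.mono hJS hUZ).symm
  have h6 : (S ∪ U) \ J = (S \ J) ∪ U := by
    rw [Finset.union_sdiff_distrib, Finset.sdiff_eq_self_of_disjoint hUJ]
  have h7 : Disjoint (S \ J) U := (hdisj.mono Finset.sdiff_subset hUZ)
  rw [h6, Finset.prod_union h7, Finset.prod_mul_distrib]
  ring

theorem abs_coef (r : ℕ) (η : ℕ → ℤ) (hη : ∀ i ∈ range r, η i = -1 ∨ η i = 0 ∨ η i = 1)
    (J U : Finset ℕ) (hJ : J ⊆ (range r).filter (fun i => η i ≠ 0)) (k : ℕ) :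
    |(∏ i ∈ J, (η i : ℝ)) * (-1) ^ U.card / 2 ^ k| ≤ 1 := by
  have h1 : |∏ i ∈ J, (η i : ℝ)| ≤ 1 := by
    rw [Finset.abs_prod]
    refine Finset.prod_le_one (fun i _ => abs_nonneg _) fun i hi => ?_
    have hi' := hJ hi
    rw [mem_filter] at hi'
    rcases hη i hi'.1 with h | h | h <;> rw [h] <;> norm_num
  rw [abs_div, abs_mul, abs_pow, abs_neg, abs_one, one_pow, mul_one, abs_pow, abs_two]
  have h2 : (1 : ℝ) ≤ 2 ^ k := one_le_pow₀ (by norm_num)
  exact div_le_one_of_le₀ (h1.trans h2) (by positivity)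

end SgnMAux

theorem sgn_pat (r x : ℕ) (δ : ℝ) (hδ : 0 ≤ δ) (h : ℕ → ℕ) (w : ℕ → ℝ) (hG : GoodT r x δ h w) (η : ℕ → ℤ)
    (hη : ∀ i ∈ range r, η i = -1 ∨ η i = 0 ∨ η i = 1) (y : ℕ) (hy : y ≤ x) :
    |∑ n ∈ (Icc 1 y).filter (fun n => ∀ i ∈ range r, ArithmeticFunction.moebius (n + h i) = η i), w n -
      (∑ n ∈ (Icc 1 y).filter (fun n => ∀ i ∈ range r, ArithmeticFunction.moebius (n + h i) ^ 2 = η i ^ 2), w n) /
        2 ^ ((range r).filter (fun i => η i ≠ 0)).card| ≤ 4 ^ r * δ := by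
  classical
  set S := (range r).filter (fun i => η i ≠ 0) with hS
  set Z := (range r).filter (fun i => ¬ η i ≠ 0) with hZ
  have hSr : S ⊆ range r := Finset.filter_subset _ _
  have hZr : Z ⊆ range r := Finset.filter_subset _ _
  have h1 : ∑ n ∈ (Icc 1 y).filter (fun n => ∀ i ∈ range r, ArithmeticFunction.moebius (n + h i) = η i), w n -
      (∑ n ∈ (Icc 1 y).filter (fun n => ∀ i ∈ range r, ArithmeticFunction.moebius (n + h i) ^ 2 = η i ^ 2), w n) /
        2 ^ S.card =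
      ∑ n ∈ Icc 1 y, w n * ((if ∀ i ∈ range r, ArithmeticFunction.moebius (n + h i) = η i then (1 : ℝ) else 0) -
        (if ∀ i ∈ range r, ArithmeticFunction.moebius (n + h i) ^ 2 = η i ^ 2 then (1 : ℝ) else 0) / 2 ^ S.card) := by
    rw [Finset.sum_filter, Finset.sum_filter, Finset.sum_div, ← Finset.sum_sub_distrib]
    refine Finset.sum_congr rfl fun n _ => ?_
    split_ifs <;> ring
  have h2 : ∑ n ∈ Icc 1 y, w n * ((if ∀ i ∈ range r, ArithmeticFunction.moebius (n + h i) = η i then (1 : ℝ) else 0) -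
        (if ∀ i ∈ range r, ArithmeticFunction.moebius (n + h i) ^ 2 = η i ^ 2 then (1 : ℝ) else 0) / 2 ^ S.card) =
      ∑ J ∈ S.powerset.erase ∅, ∑ U ∈ Z.powerset,
        ((∏ i ∈ J, (η i : ℝ)) * (-1) ^ U.card / 2 ^ S.card) *
          ∑ n ∈ Icc 1 y, w n * ((∏ i ∈ J, (ArithmeticFunction.moebius (n + h i) : ℝ)) *
            ∏ i ∈ (S ∪ U) \ J, (ArithmeticFunction.moebius (n + h i) : ℝ) ^ 2) := by
    have h3 : ∀ n ∈ Icc 1 y,
        w n * ((if ∀ i ∈ range r, ArithmeticFunction.moebius (n + h i) = η i then (1 : ℝ) else 0) -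
        (if ∀ i ∈ range r, ArithmeticFunction.moebius (n + h i) ^ 2 = η i ^ 2 then (1 : ℝ) else 0) / 2 ^ S.card) =
        ∑ J ∈ S.powerset.erase ∅, ∑ U ∈ Z.powerset,
        ((∏ i ∈ J, (η i : ℝ)) * (-1) ^ U.card / 2 ^ S.card) *
          (w n * ((∏ i ∈ J, (ArithmeticFunction.moebius (n + h i) : ℝ)) *
            ∏ i ∈ (S ∪ U) \ J, (ArithmeticFunction.moebius (n + h i) : ℝ) ^ 2)) := by
      intro n _
      rw [SgnMAux.expand r (fun i => ArithmeticFunction.moebius (n + h i)) η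
        (fun i => ArithmeticFunction.moebius_eq_or _) hη, Finset.mul_sum]
      refine Finset.sum_congr rfl fun J _ => ?_
      rw [Finset.mul_sum]
      refine Finset.sum_congr rfl fun U _ => ?_
      ring
    rw [Finset.sum_congr rfl h3, Finset.sum_comm]
    refine Finset.sum_congr rfl fun J _ => ?_
    rw [Finset.sum_comm]
    refine Finset.sum_congr rfl fun U _ => ?_
    rw [Finset.mul_sum]
  rw [h1, h2]
  have hterm : ∀ J ∈ S.powerset.erase ∅, ∀ U ∈ Z.powerset,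
      |((∏ i ∈ J, (η i : ℝ)) * (-1) ^ U.card / 2 ^ S.card) *
          ∑ n ∈ Icc 1 y, w n * ((∏ i ∈ J, (ArithmeticFunction.moebius (n + h i) : ℝ)) *
            ∏ i ∈ (S ∪ U) \ J, (ArithmeticFunction.moebius (n + h i) : ℝ) ^ 2)| ≤ δ := by
    intro J hJ U hU
    have hJS : J ⊆ S := Finset.mem_powerset.mp (Finset.mem_of_mem_erase hJ)
    have hUZ : U ⊆ Z := Finset.mem_powerset.mp hU
    have hJne : J.Nonempty := Finset.nonempty_iff_ne_empty.mpr (Finset.ne_of_mem_erase hJ)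
    have hb := hG J (S ∪ U) (hJS.trans Finset.subset_union_left)
      (Finset.union_subset hSr (hUZ.trans hZr)) hJne y hy
    rw [abs_mul]
    calc _ ≤ 1 * δ := mul_le_mul (SgnMAux.abs_coef r η hη J U hJS _) hb (abs_nonneg _) zero_le_one
      _ = δ := one_mul _
  calc _ ≤ ∑ J ∈ S.powerset.erase ∅, |∑ U ∈ Z.powerset,
        ((∏ i ∈ J, (η i : ℝ)) * (-1) ^ U.card / 2 ^ S.card) *
          ∑ n ∈ Icc 1 y, w n * ((∏ i ∈ J, (ArithmeticFunction.moebius (n + h i) : ℝ)) *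
            ∏ i ∈ (S ∪ U) \ J, (ArithmeticFunction.moebius (n + h i) : ℝ) ^ 2)| :=
        Finset.abs_sum_le_sum_abs _ _
    _ ≤ ∑ J ∈ S.powerset.erase ∅, ∑ U ∈ Z.powerset, δ := by
        refine Finset.sum_le_sum fun J hJ => ?_
        exact (Finset.abs_sum_le_sum_abs _ _).trans (Finset.sum_le_sum fun U hU => hterm J hJ U hU)
    _ ≤ 4 ^ r * δ := by
        rw [Finset.sum_const, Finset.sum_const, nsmul_eq_mul, nsmul_eq_mul, ← mul_assoc]
        refine mul_le_mul_of_nonneg_right ?_ hδ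
        have hc1 : ((S.powerset.erase ∅).card : ℝ) ≤ 2 ^ r := by
          have h5 : (S.powerset.erase ∅).card ≤ 2 ^ r :=
            (Finset.card_erase_le).trans (by
              rw [Finset.card_powerset]
              exact Nat.pow_le_pow_right (by norm_num) ((Finset.card_le_card hSr).trans (by rw [card_range])))
          exact_mod_cast h5
        have hc2 : ((Z.powerset).card : ℝ) ≤ 2 ^ r := by
          have h5 : (Z.powerset).card ≤ 2 ^ r := by
            rw [Finset.card_powerset]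
            exact Nat.pow_le_pow_right (by norm_num) ((Finset.card_le_card hZr).trans (by rw [card_range]))
          exact_mod_cast h5
        calc ((S.powerset.erase ∅).card : ℝ) * ((Z.powerset).card : ℝ) ≤ 2 ^ r * 2 ^ r :=
              mul_le_mul hc1 hc2 (by positivity) (by positivity)
          _ = 4 ^ r := by rw [← mul_pow]; norm_num

end Pool.Agent.MB
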