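import Pool.Agent.Lib.MB.WnM
import Pool.Agent.Lib.PTP.SparseOne
import Pool.Agent.Lib.VN.MspSpec

/-!
# Module SpM: mean squares for one-parameter families of type `SpS`

PROOF: (1) `msp_mu`: copy of `VN.msp_spec` (file VN/MspSpec.lean) with `g n = (ArithmeticFunction.moebius n : ℝ)` (bounded by 1) instead of `ff (zA A x)` (bounded by `L^2`), and
`wn_mu` for the window bound.
(2) `sparse_msm`: copy of `PTP.sparse_one` (file PTP/SparseOne.lean) with `msp_mu`; `b₀ + 1` and `F (b + 1)` as there (`VN.spb_ev`).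
-/

set_option autoImplicit false

open Finset Filter

namespace Pool.Agent.MB

open Pool.Agent.MW Pool.Agent.HLT Pool.Agent.VK Pool.Agent.VN Pool.Agent.HLU

theorem msp_mu (K B' : ℕ) (F : ℕ → ℕ) (ε : ℝ) (hε : 0 < ε) : ∃ b0 : ℕ, ∀ᶠ x : ℕ in atTop, ∀ H : ℕ,
    (x : ℝ) ^ (1 / 6 + ε) ≤ H → H ≤ x → ∀ T ⊆ range (x + 1), SpT F b0 x H T →
    ∀ h : ℕ → ℂ, (∀ n ∈ Icc 1 x, ‖h n‖ ≤ Real.log x ^ K) →
      ∑ u ∈ T, ‖∑ n ∈ Icc 1 x, h n * mu (n + u)‖ ^ 2 ≤ (T.card : ℝ) * ((x : ℝ) ^ 2 / Real.log x ^ B') := by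
  refine ⟨B' + 2 * K + 2, ?_⟩
  filter_upwards [wn_mu (F (B' + 2 * K + 2) + 2 * K + B' + 2) ε hε, ev_log 2, eventually_ge_atTop 1]
    with x hWN hL2 hx1 H hH hHx T hT hsp h hh
  set b : ℕ := B' + 2 * K + 2 with hb
  set B : ℕ := F b + 2 * K + B' + 2 with hB
  set L : ℝ := Real.log x with hL
  have hx0 : (0:ℝ) < x := by exact_mod_cast hx1
  have hL0 : (0:ℝ) < L := by linarith
  have hL1 : (1:ℝ) ≤ L := by linarith
  have hH1 : 1 ≤ H := by
    have h1 : (0:ℝ) < (x : ℝ) ^ (1 / 6 + ε) := Real.rpow_pos_of_pos hx0 _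
    have h2 : (0:ℝ) < H := h1.trans_le hH
    exact_mod_cast h2
  have hff : ∀ n ∈ Icc 1 (2 * x), |((ArithmeticFunction.moebius n : ℤ) : ℝ)| ≤ 1 := by
    intro n _
    have h1 : |ArithmeticFunction.moebius n| ≤ 1 := ArithmeticFunction.abs_moebius_le_one
    exact_mod_cast h1
  have hsumh : ∑ n ∈ Icc 1 x, ‖h n‖ ^ 2 ≤ x * L ^ (2 * K) := by
    refine (Finset.sum_le_sum (g := fun _ => L ^ (2 * K)) fun n hn => ?_).trans ?_
    · refine (pow_le_pow_left₀ (norm_nonneg _) (hh n hn) 2).trans ?_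
      rw [← pow_mul, mul_comm K 2]
    · rw [Finset.sum_const, nsmul_eq_mul, Nat.card_Icc]
      simp
  have hsumh0 : 0 ≤ ∑ n ∈ Icc 1 x, ‖h n‖ ^ 2 := Finset.sum_nonneg (fun _ _ => by positivity)
  have hf := fourier_any x H hx1 hH1 T hT h (fun n => ((ArithmeticFunction.moebius n : ℤ) : ℝ)) 1 (L ^ b)
    (L ^ F b) ((x : ℝ) ^ 2 / L ^ B) (by positivity) (by positivity) (by positivity) (by positivity)
    hff (fun Θ h1 h2 => hsp b le_rfl Θ h1 h2) (fun k0 => hWN H hH hHx k0)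
  have hlhs : ∑ u ∈ T, ‖∑ n ∈ Icc 1 x, h n * mu (n + u)‖ ^ 2 =
      ∑ t ∈ T, ‖∑ n ∈ Icc 1 x, h n * ((((ArithmeticFunction.moebius (n + t) : ℤ) : ℝ)) : ℂ)‖ ^ 2 := by
    refine Finset.sum_congr rfl fun t _ => ?_
    congr 2
  rw [hlhs]
  refine hf.trans ?_
  clear hf hlhs
  have hN0 : (0 : ℝ) < ((4 * x + 1 : ℕ) : ℝ) := by positivity
  have hcard : (0 : ℝ) ≤ (T.card : ℝ) := Nat.cast_nonneg _
  have hA : (T.card : ℝ) / L ^ b * ((∑ n ∈ Icc 1 x, ‖h n‖ ^ 2) * (2 * x * (1 : ℝ) ^ 2)) ≤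
      T.card * (x ^ 2 * (2 / L ^ (B' + 2))) := by
    have h1 : (∑ n ∈ Icc 1 x, ‖h n‖ ^ 2) * (2 * x * (1 : ℝ) ^ 2) ≤
        (x * L ^ (2 * K)) * (2 * x * (1 : ℝ) ^ 2) :=
      mul_le_mul_of_nonneg_right hsumh (by positivity)
    have h2 := mul_le_mul_of_nonneg_left h1 (by positivity : 0 ≤ (T.card : ℝ) / L ^ b)
    refine h2.trans (le_of_eq ?_)
    have h3 : L ^ b = L ^ (B' + 2) * L ^ (2 * K) := by
      rw [hb, ← pow_add]
      congr 1
      ring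
    rw [h3]
    field_simp
  have hC : (T.card : ℝ) * (L ^ F b * ((x : ℝ) ^ 2 / L ^ B) / ((4 * x + 1 : ℕ) : ℝ)) *
      ∑ n ∈ Icc 1 x, ‖h n‖ ^ 2 ≤ T.card * (x ^ 2 * (1 / L ^ (B' + 2))) := by
    have h1 := mul_le_mul_of_nonneg_left hsumh (by positivity : 0 ≤ (T.card : ℝ) *
      (L ^ F b * ((x : ℝ) ^ 2 / L ^ B) / ((4 * x + 1 : ℕ) : ℝ)))
    refine h1.trans ?_
    have h2 : (T.card : ℝ) * (L ^ F b * ((x : ℝ) ^ 2 / L ^ B) / ((4 * x + 1 : ℕ) : ℝ)) *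
        (x * L ^ (2 * K)) =
        T.card * (x ^ 2 * ((x / ((4 * x + 1 : ℕ) : ℝ)) *
          (L ^ F b * L ^ (2 * K) / L ^ B))) := by
      field_simp
    rw [h2]
    refine mul_le_mul_of_nonneg_left (mul_le_mul_of_nonneg_left ?_ (by positivity)) hcard
    have h3 : (x : ℝ) / ((4 * x + 1 : ℕ) : ℝ) ≤ 1 := by
      rw [div_le_one hN0]
      push_cast
      linarith
    have h5 : L ^ B = L ^ F b * L ^ (2 * K) * L ^ (B' + 2) := by
      rw [hB, ← pow_add, ← pow_add]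
      congr 1
    have h6 : L ^ F b * L ^ (2 * K) / L ^ B = 1 / L ^ (B' + 2) := by
      rw [h5]
      field_simp
    rw [h6]
    calc (x : ℝ) / ((4 * x + 1 : ℕ) : ℝ) * (1 / L ^ (B' + 2)) ≤ 1 * (1 / L ^ (B' + 2)) :=
          mul_le_mul_of_nonneg_right h3 (by positivity)
      _ = 1 / L ^ (B' + 2) := one_mul _
  have hsum := add_le_add hA hC
  refine hsum.trans ?_
  rw [← mul_add, ← mul_add]
  refine mul_le_mul_of_nonneg_left ?_ hcard
  have hfin : 2 / L ^ (B' + 2) + 1 / L ^ (B' + 2) ≤ 1 / L ^ B' := by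
    rw [pow_add, ← add_div, div_le_div_iff₀ (by positivity) (by positivity)]
    have h8 : (4 : ℝ) ≤ L ^ 2 := by nlinarith
    have h9 : 0 < L ^ B' := by positivity
    nlinarith
  calc (x : ℝ) ^ 2 * (2 / L ^ (B' + 2) + 1 / L ^ (B' + 2)) ≤ x ^ 2 * (1 / L ^ B') :=
        mul_le_mul_of_nonneg_left hfin (by positivity)
    _ = x ^ 2 / L ^ B' := by rw [mul_one_div]

open PTP.SparseOneAux in
theorem sparse_msm (r K B : ℕ) (F : ℕ → ℕ) (ε : ℝ) (hε : 0 < ε) : ∃ b₀ : ℕ, ∀ᶠ x : ℕ in atTop,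
    ∀ (T : Finset ℕ) (σ : ℕ → Fin r → ℕ) (k : Fin r), PTP.SpS b₀ F ε x T σ k → MSm r K B x T σ k := by
  classical
  obtain ⟨b0, hmsp⟩ := msp_mu (K * (r + 1)) B (fun b => F (b + 1)) ε hε
  refine ⟨b0 + 1, ?_⟩
  filter_upwards [hmsp, VN.spb_ev (1 / 6) (1 / 6 + ε) le_rfl (by linarith) F b0,
    HLU.ev_log 2] with x hmsp hspb hL T σ k hS
  obtain ⟨D, hD1, hD2, hSp, ⟨c, hc⟩, hconst, hle⟩ := hS
  have hL1 : 1 ≤ Real.log x := by linarith
  have hL0 : 0 < Real.log x := by linarith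
  obtain ⟨hD3, hD4⟩ := hspb D hD1 hD2
  have hSpT := SpT_image (hD4 T hSp) hc
  have hinj : Set.InjOn (fun t => σ t k) T := by
    intro t ht t' ht' h
    have h1 := hc t ht
    have h2 := hc t' ht'
    simp only at h
    rw [h] at h1
    omega
  have hsub : T.image (fun t => σ t k) ⊆ range (x + 1) := by
    intro u hu
    obtain ⟨t, ht, rfl⟩ := Finset.mem_image.mp hu
    exact Finset.mem_range.mpr (Nat.lt_succ_of_le (hle t ht k))
  have hM := hmsp D hD1 hD2 (T.image (fun t => σ t k)) hsub hSpT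
  intro w G hw hG hGk
  rcases T.eq_empty_or_nonempty with hT | ⟨t0, ht0⟩
  · subst hT
    simp
  set w' : ℕ → ℂ := fun n => w n * ∏ i ∈ univ.erase k, G i (n + σ t0 i) with hw'
  have hbd : ∀ n ∈ Icc 1 x, ‖w' n‖ ≤ Real.log x ^ (K * (r + 1)) := by
    intro n hn
    have h1 : ‖∏ i ∈ univ.erase k, G i (n + σ t0 i)‖ ≤ (Real.log x ^ K) ^ r := by
      rw [norm_prod]
      have h2 : ∏ i ∈ univ.erase k, ‖G i (n + σ t0 i)‖ ≤ ∏ _i ∈ (univ : Finset (Fin r)).erase k,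
          Real.log x ^ K := by
        refine Finset.prod_le_prod (fun i _ => norm_nonneg _) fun i _ => hG i _ ?_
        have h3 := hle t0 ht0 i
        rw [mem_Icc] at hn ⊢
        omega
      refine h2.trans ?_
      rw [Finset.prod_const]
      refine pow_le_pow_right₀ (one_le_pow₀ hL1) ?_
      refine (Finset.card_le_univ _).trans ?_
      rw [Fintype.card_fin]
    calc ‖w' n‖ = ‖w n‖ * ‖∏ i ∈ univ.erase k, G i (n + σ t0 i)‖ := norm_mul _ _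
      _ ≤ Real.log x ^ K * (Real.log x ^ K) ^ r :=
        mul_le_mul (hw n hn) h1 (norm_nonneg _) (by positivity)
      _ = Real.log x ^ (K * (r + 1)) := by ring
  have h2 := hM w' hbd
  rw [Finset.sum_image hinj, Finset.card_image_of_injOn hinj] at h2
  refine le_trans (le_of_eq ?_) h2
  refine Finset.sum_congr rfl fun t ht => ?_
  congr 2
  refine Finset.sum_congr rfl fun n _ => ?_
  rw [← Finset.mul_prod_erase univ (fun i => G i (n + σ t i)) (Finset.mem_univ k), hGk, hw']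
  have h3 : ∏ i ∈ univ.erase k, G i (n + σ t i) = ∏ i ∈ univ.erase k, G i (n + σ t0 i) := by
    refine Finset.prod_congr rfl fun i hi => ?_
    rw [hconst i (Finset.ne_of_mem_erase hi) t ht t0 ht0]
  rw [h3]
  ring

end Pool.Agent.MB
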