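import Pool.Agent.Lib.MB.Defs
import Pool.Agent.Lib.HLU.NetY

/-!
# Module UnM: from mean squares to almost all parameters

PROOF: for one pair `(J, κ)`, `J` nonempty, choose `k ∈ J`; `G i = mu` for `i ∈ J`, `G i = g (κ i) i` for `i ∉ J` (`‖mu n‖ ≤ 1 ≤ L^K`, `norm_mu`): `∏ i, G i (n + s t i) = (∏_(i ∉ J) ..) * ∏_(i ∈ J) mu ..`. As in `PTP.weights_lp` (file PTP/Weights.lean): `HLU.net_y (τ := τ) A'' (K + K r)` applied to
`D t n = w n * ∏ i, G i (n + s t i)` (bounded by `L^K L^(K r)` for `n ≤ x`, `s t i ≤ x`) with `Q = Ω.card`; the cut-off `n ≤ y` is put into `w`; `B = 4 A'' + K + K r + 6`. Then the union of the exceptional sets of the at most `2^r N^r` pairs `(J, κ)` (choose for each `J`, `κ` with `J` nonempty; the empty set if `J = ∅`):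
take `A'' = A + 1` and `L ≥ 2^r N^r` (`ev_log`); `Finset.card_biUnion_le`; and `x/L^(A+1) ≤ x/L^A`.
-/

set_option autoImplicit false

open Finset Filter

namespace Pool.Agent.MB

open Pool.Agent.MW Pool.Agent.HLU

namespace UnMAux

/-- the functions: the Moebius function in the slots of `J`, `g` in the others -/
noncomputable def GG {r N : ℕ} (J : Finset (Fin r)) (g : Fin N → Fin r → ℕ → ℂ) (κ : Fin r → Fin N)
    (i : Fin r) : ℕ → ℂ :=
  if i ∈ J then mu else g (κ i) i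

lemma prod_GG {r N : ℕ} (J : Finset (Fin r)) (g : Fin N → Fin r → ℕ → ℂ) (κ : Fin r → Fin N)
    (a : Fin r → ℕ) :
    ∏ i, GG J g κ i (a i) = (∏ i ∈ Jᶜ, g (κ i) i (a i)) * ∏ i ∈ J, mu (a i) := by
  classical
  rw [← Finset.prod_compl_mul_prod J]
  congr 1
  · refine Finset.prod_congr rfl fun i hi => ?_
    unfold GG
    rw [if_neg (Finset.mem_compl.mp hi)]
  · refine Finset.prod_congr rfl fun i hi => ?_
    unfold GG
    rw [if_pos hi]

lemma one_pair {τ : Type} (r N K A'' : ℕ) : ∀ᶠ x : ℕ in atTop, ∀ (Ω : Finset τ) (s : τ → Fin r → ℕ),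
    (∀ t ∈ Ω, ∀ i, s t i ≤ x) → (∀ k, MSm r K (4 * A'' + (K + K * r) + 6) x Ω s k) →
    ∀ (w : ℕ → ℂ) (g : Fin N → Fin r → ℕ → ℂ), (∀ n ∈ Icc 1 x, ‖w n‖ ≤ Real.log x ^ K) →
    (∀ a i, ∀ n ∈ Icc 1 (2 * x), ‖g a i n‖ ≤ Real.log x ^ K) →
    ∀ (J : Finset (Fin r)) (κ : Fin r → Fin N), J.Nonempty →
    ∃ E ⊆ Ω, (E.card : ℝ) ≤ (Ω.card : ℝ) / Real.log x ^ A'' ∧ ∀ t ∈ Ω, t ∉ E → ∀ y : ℕ, y ≤ x →
        ‖∑ n ∈ Icc 1 y, w n * ((∏ i ∈ Jᶜ, g (κ i) i (n + s t i)) * ∏ i ∈ J, mu (n + s t i))‖ ≤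
          x / Real.log x ^ A'' := by
  filter_upwards [net_y (τ := τ) A'' (K + K * r), ev_log 1] with x h2 hL Ω s hs hM w g hw hg J κ hJ
  have hL0 : 0 < Real.log x := by linarith
  obtain ⟨k, hk⟩ := hJ
  have hGK : ∀ i, ∀ n ∈ Icc 1 (2 * x), ‖GG J g κ i n‖ ≤ Real.log x ^ K := by
    intro i n hn
    unfold GG
    split_ifs
    · exact (norm_mu n).trans (one_le_pow₀ hL)
    · exact hg _ i n hn
  have h3 := h2 Ω (fun t n => w n * ∏ i, GG J g κ i (n + s t i)) (Ω.card : ℝ) (Nat.cast_nonneg _) ?_ ?_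
  · obtain ⟨E, hE, hEc, hE'⟩ := h3
    refine ⟨E, hE, hEc, fun t ht htE y hy => ?_⟩
    have h4 := hE' t ht htE y hy
    simp only [prod_GG] at h4
    exact h4
  · intro t ht n hn
    rw [norm_mul, pow_add]
    refine mul_le_mul (hw n hn) ?_ (norm_nonneg _) (by positivity)
    rw [norm_prod, pow_mul]
    refine (Finset.prod_le_prod (fun i _ => norm_nonneg _) (fun i _ => ?_)).trans
      (b := ∏ _i : Fin r, Real.log x ^ K) ?_
    · apply hGK
      have := hs t ht i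
      rw [mem_Icc] at hn ⊢
      omega
    · rw [Finset.prod_const, Finset.card_univ, Fintype.card_fin]
  · intro y hy
    have h3 := hM k (fun n => if n ≤ y then w n else 0) (GG J g κ) (fun n hn => by
      split_ifs
      · exact hw n hn
      · rw [norm_zero]
        positivity) hGK (by unfold GG; rw [if_pos hk])
    refine le_trans (le_of_eq ?_) h3
    refine Finset.sum_congr rfl fun t _ => ?_
    congr 2
    simp only [ite_mul, zero_mul]
    rw [← Finset.sum_filter]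
    refine Finset.sum_congr ?_ fun _ _ => rfl
    ext n
    simp only [mem_Icc, mem_filter]
    omega

end UnMAux

open UnMAux

theorem un_mu {τ : Type} (r N K A : ℕ) : ∃ B : ℕ, ∀ᶠ x : ℕ in atTop, ∀ (Ω : Finset τ) (s : τ → Fin r → ℕ),
    (∀ t ∈ Ω, ∀ i, s t i ≤ x) → (∀ k, MSm r K B x Ω s k) → UCm r N K A x Ω s := by
  classical
  refine ⟨4 * (A + 1) + (K + K * r) + 6, ?_⟩
  filter_upwards [one_pair (τ := τ) r N K (A + 1), ev_log 1, ev_log ((2 : ℝ) ^ r * (N : ℝ) ^ r)] with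
    x h1 hL hLN Ω s hs hM w g hw hg
  have hL0 : 0 < Real.log x := by linarith
  have hx0 : (0 : ℝ) ≤ x := Nat.cast_nonneg x
  have h2 : ∀ p : Finset (Fin r) × (Fin r → Fin N), ∃ E ⊆ Ω,
      (E.card : ℝ) ≤ (Ω.card : ℝ) / Real.log x ^ (A + 1) ∧ (p.1.Nonempty → ∀ t ∈ Ω, t ∉ E → ∀ y : ℕ, y ≤ x →
        ‖∑ n ∈ Icc 1 y, w n * ((∏ i ∈ p.1ᶜ, g (p.2 i) i (n + s t i)) * ∏ i ∈ p.1, mu (n + s t i))‖ ≤
          x / Real.log x ^ (A + 1)) := by
    intro p
    by_cases hJ : p.1.Nonempty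
    · obtain ⟨E, hE, hEc, hE'⟩ := h1 Ω s hs hM w g hw hg p.1 p.2 hJ
      exact ⟨E, hE, hEc, fun _ => hE'⟩
    · refine ⟨∅, Finset.empty_subset _, ?_, fun h => absurd h hJ⟩
      rw [Finset.card_empty, Nat.cast_zero]
      positivity
  choose E hE hEc hE' using h2
  refine ⟨univ.biUnion E, ?_, ?_, ?_⟩
  · intro t ht
    rw [Finset.mem_biUnion] at ht
    obtain ⟨p, _, hp⟩ := ht
    exact hE p hp
  · have e1 : ((univ.biUnion E).card : ℝ) ≤ ∑ p : Finset (Fin r) × (Fin r → Fin N), ((E p).card : ℝ) := by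
      exact_mod_cast Finset.card_biUnion_le
    refine e1.trans ((Finset.sum_le_sum fun p _ => hEc p).trans ?_)
    rw [Finset.sum_const, nsmul_eq_mul, Finset.card_univ, Fintype.card_prod, Fintype.card_finset,
      Fintype.card_fin, Fintype.card_fun, Fintype.card_fin, Fintype.card_fin]
    have e3 : (0 : ℝ) ≤ (Ω.card : ℝ) := Nat.cast_nonneg _
    push_cast
    calc ((2 : ℝ) ^ r * (N : ℝ) ^ r) * ((Ω.card : ℝ) / Real.log x ^ (A + 1))
        ≤ Real.log x * ((Ω.card : ℝ) / Real.log x ^ (A + 1)) :=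
          mul_le_mul_of_nonneg_right hLN (by positivity)
      _ = (Ω.card : ℝ) / Real.log x ^ A := by
          rw [pow_succ]
          field_simp
  · intro t ht htE J κ hJ y hy
    have htJ : t ∉ E (J, κ) := fun h => htE (Finset.mem_biUnion.mpr ⟨(J, κ), Finset.mem_univ _, h⟩)
    refine (hE' (J, κ) hJ t ht htJ y hy).trans ?_
    exact div_le_div_of_nonneg_left hx0 (by positivity) (pow_le_pow_right₀ hL (by omega))

end Pool.Agent.MB
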