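import Pool.Agent.Lib.MB.OneM
import Pool.Agent.Lib.MB.SpM
import Pool.Agent.Lib.MB.UnM
import Pool.Agent.Lib.MB.GoT
import Pool.Agent.Lib.MB.SgnM
import Pool.Agent.Lib.MB.LawB
import Pool.Agent.Lib.NLG.IndG

/-!
# Module FinB: the theorems

`L = log x`, `genA : ∀ m, GenA m` (NLG.IndG).
`many_mu`: copy of `PTP.fin_many` (file PTP/Final.lean): `un_mu r N K A` gives `B`; `one_msm genA r δ K B ε`, `sparse_msm r K B F ε` give `b₀`; `msm_avg`. `one_mu`: the same without averaging.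
`pow_mu`: `r = 5 k`, `T = range (H + 1)`, `σ t i = t^(k + i) + e i`, `e i ≤ E0` constants: polynomials `X^(k+i) + C (e i)`, `natDegree = k + i` (`k ≥ 1`), distinct; coefficients of index `l ≥ 1`: 0 except `l = k + i`, where it is 1; `H^(k+i) ≤ H^(6k-1) ≤ x`, `H^(k+i) ≥ H^k ≥ x^(1/6 + ε k) ≥ x^(1/6+ε)` (`H ≥ x^(1/(6k) + ε)`, `x ≥ 1`, `k ≥ 1`).
`PolyS` asks for `σ t i ≤ x` for all `t ≤ H`: use it with `T = range H`, `H' = H - 1` in place of `H`: `t^(6k-1) + E0 ≤ (H-1)^(6k-1) + E0 ≤ H^(6k-1) ≤ x` as `(H-1)^(6k-1) + E0 ≤ H^(6k-1)` for `H > E0`, and `(H - 1)^k ≥ x^(1/6 + ε/2)` for large `x`: apply `one_mu` with `ε / 2`. `(H' : ℝ) + 1 ≤ L^K card T` holds (`card T = H' + 1`).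
The exceptional set of the statement: the `t ≤ H` in `E` or `t = H`: `|E| + 1 ≤ H/L^(A+1) + 1 ≤ H/L^A`; apply `one_mu`, `good_of_uc` with `A + 1` (`x/L^(A+1) ≤ x/L^A`).
`law_pow`: `law_b δ₀` gives `K0, k0, η`; for `k ≥ k0`: `pow_mu` with `E0 = 6 k`, `e i = k + i`, `A' = A + K + 1`: `GoodT (5k) x (x/L^A') ..` with `w = 1`; `xx = 3 x`-like (`j + t^j + y ≤ 3x`), for `y ≥ x/L^K`: `(5k)^K0 x/L^A' ≤ η y` and `√(3x) ≤ η y` for `x` large.
-/

set_option autoImplicit false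

open Finset Filter ProbabilityTheory

namespace Pool.Agent.MB

open Pool.Agent.MW Pool.Agent.PTP Pool.Agent.NLG Pool.Agent.P4f18df

namespace FinBAux

/-- Powers of `log x` are small against powers of `x`. -/
lemma ev_lp (C : ℝ) (m : ℕ) {c : ℝ} (hc : 0 < c) : ∀ᶠ x : ℕ in atTop, C * Real.log x ^ m ≤ (x : ℝ) ^ c := by
  have h1 : (fun x : ℝ => Real.log x ^ m) =o[atTop] (fun x : ℝ => x ^ c) := by
    have h := isLittleO_log_rpow_rpow_atTop (m : ℝ) hc
    simp only [Real.rpow_natCast] at h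
    exact h
  have hC : (0 : ℝ) < 1 / (|C| + 1) := by positivity
  have h2 := (h1.comp_tendsto tendsto_natCast_atTop_atTop).bound hC
  filter_upwards [h2, Pool.Agent.HLU.ev_log 1, eventually_ge_atTop 1] with x hx hL hx1
  have hL0 : 0 < Real.log x := by linarith
  simp only [Function.comp_def] at hx
  rw [Real.norm_of_nonneg (by positivity), Real.norm_of_nonneg (by positivity)] at hx
  have h3 : 0 ≤ Real.log x ^ m := by positivity
  have h4 : (|C| + 1) * Real.log x ^ m ≤ (x : ℝ) ^ c := by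
    have := mul_le_mul_of_nonneg_left hx (show (0 : ℝ) ≤ |C| + 1 by positivity)
    rwa [← mul_assoc, mul_one_div_cancel (by positivity), one_mul] at this
  have h5 : C ≤ |C| := le_abs_self C
  nlinarith

lemma goodT_congr {r x : ℕ} {δ : ℝ} {h h' : ℕ → ℕ} {w : ℕ → ℝ} (hG : GoodT r x δ h w) (hh : ∀ i < r, h i = h' i) :
    GoodT r x δ h' w := by
  intro J I hJI hI hJ y hy
  refine le_trans (le_of_eq ?_) (hG J I hJI hI hJ y hy)
  congr 1
  refine Finset.sum_congr rfl fun n _ => ?_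
  congr 1
  congr 1
  · refine Finset.prod_congr rfl fun i hi => ?_
    rw [hh i (Finset.mem_range.1 (hI (hJI hi)))]
  · refine Finset.prod_congr rfl fun i hi => ?_
    rw [hh i (Finset.mem_range.1 (hI (Finset.mem_sdiff.1 hi).1))]

lemma goodT_mono {r x : ℕ} {δ δ' : ℝ} {h : ℕ → ℕ} {w : ℕ → ℝ} (hG : GoodT r x δ h w) (hd : δ ≤ δ') : GoodT r x δ' h w :=
  fun J I hJI hI hJ y hy => (hG J I hJI hI hJ y hy).trans hd

lemma pow_room (m H' E0 : ℕ) (hm : 2 ≤ m) (hH : E0 ≤ H') : H' ^ m + E0 ≤ (H' + 1) ^ m := by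
  obtain ⟨j, rfl⟩ : ∃ j, m = j + 2 := ⟨m - 2, by omega⟩
  have h1 : (H' + 1) ^ (j + 2) = (H' + 1) ^ (j + 1) * H' + (H' + 1) ^ (j + 1) := by ring
  have h2 : H' ^ (j + 1) ≤ (H' + 1) ^ (j + 1) := Nat.pow_le_pow_left (by omega) _
  have h3 : H' + 1 ≤ (H' + 1) ^ (j + 1) := Nat.le_self_pow (by omega) _
  have h4 : H' ^ (j + 2) = H' ^ (j + 1) * H' := by ring
  have h5 : H' ^ (j + 1) * H' ≤ (H' + 1) ^ (j + 1) * H' := Nat.mul_le_mul_right _ h2
  omega

/-- The family of powers. -/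
lemma polyS_pow (k K E0 H' x : ℕ) (ε : ℝ) (hk : 1 ≤ k) (hH' : 1 ≤ H') (hE : E0 ≤ H') (hHx : (H' + 1) ^ (6 * k - 1) ≤ x)
    (hL : 1 ≤ Real.log x) (hlow : (x : ℝ) ^ (1 / 6 + ε) ≤ (H' : ℝ) ^ k) (e : ℕ → ℕ) (he : ∀ i, e i ≤ E0) (j : Fin (5 * k)) :
    (∀ t : ℕ, t ≤ H' → ∀ i : Fin (5 * k), e i + t ^ (k + i.val) ≤ x) ∧
    PolyS K (6 * k - 1) ε x (range (H' + 1)) (fun t (i : Fin (5 * k)) => e i + t ^ (k + i.val)) j := by
  have hL0 : 0 < Real.log x := by linarith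
  have hR : (1 : ℝ) ≤ Real.log x ^ K := one_le_pow₀ hL
  have hup : ∀ t : ℕ, t ≤ H' → ∀ i : Fin (5 * k), e i + t ^ (k + i.val) ≤ x := by
    intro t ht i
    have h1 : t ^ (k + i.val) ≤ H' ^ (6 * k - 1) :=
      (Nat.pow_le_pow_left ht _).trans (Nat.pow_le_pow_right hH' (by have := i.isLt; omega))
    have h2 := pow_room (6 * k - 1) H' E0 (by omega) hE
    have h3 := he i
    omega
  refine ⟨hup, H', fun i => k + i.val, subset_rfl, ?_, show 0 < k + j.val by omega,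
    fun i => show k + i.val ≤ 6 * k - 1 by have := i.isLt; omega, ?_, ?_, ?_⟩
  · rw [Finset.card_range]
    push_cast
    have : (0 : ℝ) ≤ (H' : ℝ) + 1 := by positivity
    nlinarith
  · intro i i' hii h
    have h' : k + i.val = k + i'.val := h
    exact absurd (Fin.ext (by omega)) hii
  · intro i _
    constructor
    · exact hlow.trans (pow_le_pow_right₀ (by exact_mod_cast hH') (Nat.le_add_right k i.val))
    · refine (Nat.pow_le_pow_right hH' (show k + i.val ≤ 6 * k - 1 by have := i.isLt; omega)).trans ?_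
      exact (Nat.pow_le_pow_left (by omega) _).trans hHx
  · intro i
    refine ⟨⟨Polynomial.X ^ (k + i.val) + Polynomial.C (e i : ℤ), ?_, ?_, ?_⟩, fun t ht => hup t ht i⟩
    · exact Polynomial.natDegree_X_pow_add_C
    · intro l hl
      rw [Polynomial.coeff_add, Polynomial.coeff_X_pow, Polynomial.coeff_C_of_ne_zero (by omega), add_zero]
      split_ifs with h
      · subst h
        simp only [Int.cast_one, abs_one, one_mul]
        have : (0 : ℝ) ≤ (H' : ℝ) ^ (k + i.val) := by positivity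
        nlinarith
      · simp only [Int.cast_zero, abs_zero, zero_mul]
        positivity
    · intro t _
      simp only [Polynomial.eval_add, Polynomial.eval_pow, Polynomial.eval_X, Polynomial.eval_C]
      push_cast
      ring

end FinBAux

theorem one_mu (r N K A δ : ℕ) (ε : ℝ) (hε : 0 < ε) : ∀ᶠ x : ℕ in atTop,
    ∀ (T : Finset ℕ) (σ : ℕ → Fin r → ℕ), (∀ t ∈ T, ∀ i, σ t i ≤ x) → (∀ k, PolyS K δ ε x T σ k) →
    UCm r N K A x T σ := by
  obtain ⟨B, h1⟩ := un_mu (τ := ℕ) r N K A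
  filter_upwards [h1, one_msm genA r δ K B ε hε] with x h1 h2 T σ hT hσ
  exact h1 T σ hT (fun k => h2 T σ k (hσ k))

theorem many_mu (m r N K A δ : ℕ) (F : ℕ → ℕ) (ε : ℝ) (hε : 0 < ε) : ∃ b₀ : ℕ, ∀ᶠ x : ℕ in atTop,
    ∀ (T : Fin m → Finset ℕ) (s : (Fin m → ℕ) → Fin r → ℕ), (∀ p ∈ Fintype.piFinset T, ∀ i, s p i ≤ x) →
    (∀ k, ∃ j, ∀ p ∈ Fintype.piFinset T, PolyS K δ ε x (T j) (fun t => s (Function.update p j t)) k ∨
      SpS b₀ F ε x (T j) (fun t => s (Function.update p j t)) k) →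
    UCm r N K A x (Fintype.piFinset T) s := by
  obtain ⟨B, h1⟩ := un_mu (τ := Fin m → ℕ) r N K A
  obtain ⟨b₀, h3⟩ := sparse_msm r K B F ε hε
  refine ⟨b₀, ?_⟩
  filter_upwards [h1, one_msm genA r δ K B ε hε, h3] with x h1 h2 h3 T s hT hs
  refine h1 _ s hT fun k => ?_
  obtain ⟨j, hj⟩ := hs k
  refine msm_avg T s k j fun p hp => ?_
  rcases hj p hp with h | h
  · exact h2 _ _ k h
  · exact h3 _ _ k h

theorem pow_mu (k K A E0 : ℕ) (hk : 1 ≤ k) (ε : ℝ) (hε : 0 < ε) : ∀ᶠ x : ℕ in atTop, ∀ H : ℕ,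
    (x : ℝ) ^ (1 / (6 * k : ℝ) + ε) ≤ H → H ^ (6 * k - 1) ≤ x → ∀ w : ℕ → ℝ, (∀ n ∈ Icc 1 x, |w n| ≤ Real.log x ^ K) →
    ∀ e : ℕ → ℕ, (∀ i, e i ≤ E0) → ∃ E : Finset ℕ, (E.card : ℝ) ≤ (H : ℝ) / Real.log x ^ A ∧ ∀ t : ℕ, t ≤ H → t ∉ E →
      GoodT (5 * k) x (x / Real.log x ^ A) (fun i => e i + t ^ (k + i)) w := by
  have hk0 : (0 : ℝ) < k := by exact_mod_cast hk
  have hk1 : (1 : ℝ) ≤ k := by exact_mod_cast hk
  filter_upwards [one_mu (5 * k) 2 K (A + 1) (6 * k - 1) (ε / 2) (by linarith), Pool.Agent.HLU.ev_log 2,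
    FinBAux.ev_lp 2 A hε, FinBAux.ev_lp (2 ^ k) 0 (show 0 < ε / 2 by linarith), FinBAux.ev_lp (E0 + 2) 0 hε,
    eventually_ge_atTop 1] with x h1 hL2 hA2 hk2 hE2 hx1 H hHlow hHx w hw e he
  have hx0 : (0 : ℝ) < x := by exact_mod_cast hx1
  have hx1' : (1 : ℝ) ≤ x := by exact_mod_cast hx1
  have hL1 : 1 ≤ Real.log x := by linarith
  have hL0 : 0 < Real.log x := by linarith
  rw [pow_zero, mul_one] at hk2 hE2
  have hHe : (x : ℝ) ^ ε ≤ H := by
    refine le_trans (Real.rpow_le_rpow_of_exponent_le hx1' ?_) hHlow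
    have : (0 : ℝ) ≤ 1 / (6 * k) := by positivity
    linarith
  have hH2 : E0 + 2 ≤ H := by
    have : ((E0 + 2 : ℕ) : ℝ) ≤ H := by push_cast; linarith
    exact_mod_cast this
  obtain ⟨H', rfl⟩ : ∃ H', H = H' + 1 := ⟨H - 1, by omega⟩
  have hH'1 : 1 ≤ H' := by omega
  have hH'0 : (0 : ℝ) < H' := by exact_mod_cast (show 0 < H' by omega)
  have hlow : (x : ℝ) ^ (1 / 6 + ε / 2) ≤ (H' : ℝ) ^ k := by
    have h2 : (x : ℝ) ^ (1 / (6 * k : ℝ) + ε) ≤ 2 * H' := by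
      have : ((H' + 1 : ℕ) : ℝ) ≤ 2 * H' := by
        push_cast
        have : (1 : ℝ) ≤ H' := by exact_mod_cast hH'1
        linarith
      linarith
    have h3 : ((x : ℝ) ^ (1 / (6 * k : ℝ) + ε)) ^ k ≤ (2 * H') ^ k := pow_le_pow_left₀ (by positivity) h2 k
    have h4 : ((x : ℝ) ^ (1 / (6 * k : ℝ) + ε)) ^ k = (x : ℝ) ^ (1 / 6 + ε * k) := by
      rw [← Real.rpow_natCast, ← Real.rpow_mul hx0.le]
      congr 1
      field_simp
    have h5 : (x : ℝ) ^ (1 / 6 + ε / 2) * (x : ℝ) ^ (ε / 2) ≤ (x : ℝ) ^ (1 / 6 + ε * k) := by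
      rw [← Real.rpow_add hx0]
      apply Real.rpow_le_rpow_of_exponent_le hx1'
      nlinarith
    rw [h4, mul_pow] at h3
    have h6 : (x : ℝ) ^ (1 / 6 + ε / 2) * 2 ^ k ≤ 2 ^ k * (H' : ℝ) ^ k :=
      le_trans (mul_le_mul_of_nonneg_left hk2 (by positivity)) (h5.trans h3)
    rw [mul_comm] at h6
    exact le_of_mul_le_mul_left h6 (by positivity)
  have hP := FinBAux.polyS_pow k K E0 H' x (ε / 2) hk hH'1 (by omega) hHx hL1 hlow e he
  have hUC := h1 (range (H' + 1)) (fun t (i : Fin (5 * k)) => e i + t ^ (k + i.val))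
    (fun t ht i => (hP i).1 t (by have := Finset.mem_range.1 ht; omega) i) (fun j => (hP j).2)
  obtain ⟨E, hE1, hE3, hE4⟩ := good_of_uc (5 * k) K (A + 1) x hL1 _ _ w hw hUC
  refine ⟨insert (H' + 1) E, ?_, fun t ht htE => ?_⟩
  · have h2 : ((insert (H' + 1) E).card : ℝ) ≤ E.card + 1 := by exact_mod_cast Finset.card_insert_le _ _
    rw [Finset.card_range] at hE3
    have h3 : (2 : ℝ) * Real.log x ^ A ≤ (H' + 1 : ℕ) := hA2.trans hHe
    have h4 : (0 : ℝ) < Real.log x ^ A := by positivity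
    refine h2.trans ((add_le_add_left hE3 1).trans ?_)
    rw [pow_succ, ← div_div]
    have h5 : (2 : ℝ) ≤ (H' + 1 : ℕ) / Real.log x ^ A := by rw [le_div_iff₀ h4]; exact h3
    have h6 : ((H' + 1 : ℕ) : ℝ) / Real.log x ^ A / Real.log x ≤ (H' + 1 : ℕ) / Real.log x ^ A / 2 :=
      div_le_div_of_nonneg_left (by positivity) (by norm_num) hL2
    linarith
  · rw [Finset.mem_insert, not_or] at htE
    have h2 := hE4 t (Finset.mem_range.2 (by omega)) htE.2 (fun i => e i + t ^ (k + i)) (fun i => rfl)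
    refine FinBAux.goodT_mono h2 ?_
    exact div_le_div_of_nonneg_left hx0.le (by positivity) (pow_le_pow_right₀ hL1 (by omega))

theorem law_pow (δ₀ : ℝ) (hδ₀ : 0 < δ₀) : ∃ k0 : ℕ, 1 ≤ k0 ∧ ∀ k : ℕ, k0 ≤ k → ∀ (K A : ℕ) (ε : ℝ), 0 < ε → ∀ᶠ x : ℕ in atTop, ∀ H : ℕ,
    (x : ℝ) ^ (1 / (6 * k : ℝ) + ε) ≤ H → H ^ (6 * k - 1) ≤ x → ∃ E : Finset ℕ, (E.card : ℝ) ≤ (H : ℝ) / Real.log x ^ A ∧ ∀ t : ℕ, t ≤ H → t ∉ E →
      ∀ (y : ℕ) (c : ℕ → ℝ), y ≤ x → (x : ℝ) ≤ y * Real.log x ^ K → (∀ i, c i = 1 ∨ c i = -1) → ∀ s : ℝ,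
        |(((Icc 1 y).filter (fun n => ∑ i ∈ range (5 * k), c i * (ArithmeticFunction.moebius (n + ((k + i) + t ^ (k + i))) : ℝ) ≤
          s * Real.sqrt (c2 * (5 * k)))).card : ℝ) / y - cdf (gaussianReal 0 1) s| ≤ δ₀ := by
  obtain ⟨K0, k0, η, hk0, hη, hlaw⟩ := law_b δ₀ hδ₀
  refine ⟨k0, hk0, fun k hk K A ε hε => ?_⟩
  have hk1 : 1 ≤ k := hk0.trans hk
  filter_upwards [pow_mu k 0 (A + K + 1) (6 * k) hk1 ε hε, Pool.Agent.HLU.ev_log 1,
    Pool.Agent.HLU.ev_log ((5 * k : ℝ) ^ K0 / η), FinBAux.ev_lp (2 / η) K (show (0 : ℝ) < 1 / 2 by norm_num),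
    eventually_ge_atTop (6 * k)] with x h1 hL1 hLk hsq hx6 H hHlow hHx
  have hx1 : 1 ≤ x := by omega
  have hx0 : (0 : ℝ) < x := by exact_mod_cast hx1
  have hL0 : 0 < Real.log x := by linarith
  obtain ⟨E, hE1, hE2⟩ := h1 H hHlow hHx (fun _ => 1) (fun n _ => by simp) (fun i => min (k + i) (6 * k))
    (fun i => min_le_right _ _)
  have hH1 : 1 ≤ H := by
    by_contra hc
    have h0 : H = 0 := by omega
    rw [h0, Nat.cast_zero] at hHlow
    have : 0 < (x : ℝ) ^ (1 / (6 * k : ℝ) + ε) := by positivity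
    linarith
  refine ⟨E, hE1.trans ?_, fun t ht htE y c hyx hxy hc s => ?_⟩
  · exact div_le_div_of_nonneg_left (Nat.cast_nonneg _) (by positivity) (pow_le_pow_right₀ hL1 (by omega))
  have hLK : 0 < Real.log x ^ K := by positivity
  have hy0 : (0 : ℝ) < y := by
    by_contra hc
    have : (y : ℝ) = 0 := le_antisymm (not_lt.1 hc) (Nat.cast_nonneg _)
    rw [this, zero_mul] at hxy
    linarith
  have hy1 : 1 ≤ y := by exact_mod_cast hy0
  have hyx' : (x : ℝ) / Real.log x ^ K ≤ y := by rw [div_le_iff₀ hLK]; exact hxy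
  have hG : GoodT (5 * k) x (x / Real.log x ^ (A + K + 1)) (fun i => (k + i) + t ^ (k + i)) (fun _ => 1) := by
    refine FinBAux.goodT_congr (hE2 t ht htE) fun i hi => ?_
    show min (k + i) (6 * k) + t ^ (k + i) = (k + i) + t ^ (k + i)
    rw [min_eq_left (by omega)]
  refine hlaw k t x y (3 * x) (x / Real.log x ^ (A + K + 1)) c hk (by positivity) hG hc hyx hy1 ?_ ?_ ?_ s
  · intro j hj
    rw [Finset.mem_Ico] at hj
    have h2 : t ^ j ≤ x := by
      refine (Nat.pow_le_pow_left ht _).trans ?_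
      exact (Nat.pow_le_pow_right hH1 (by omega)).trans hHx
    omega
  · have h2 : (x : ℝ) / Real.log x ^ (A + K + 1) ≤ y / Real.log x := by
      have h3 : Real.log x ^ (K + 1) ≤ Real.log x ^ (A + K + 1) := pow_le_pow_right₀ hL1 (by omega)
      calc (x : ℝ) / Real.log x ^ (A + K + 1) ≤ x / Real.log x ^ (K + 1) :=
            div_le_div_of_nonneg_left hx0.le (by positivity) h3
        _ = x / Real.log x ^ K / Real.log x := by rw [pow_succ, div_div]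
        _ ≤ y / Real.log x := by gcongr
    have h4 : (5 * k : ℝ) ^ K0 ≤ η * Real.log x := by
      rw [div_le_iff₀ hη] at hLk
      linarith
    calc (5 * k : ℝ) ^ K0 * (x / Real.log x ^ (A + K + 1)) ≤ (η * Real.log x) * (y / Real.log x) := by gcongr
      _ = η * y := by field_simp
  · have h2 : Real.sqrt ((3 * x : ℕ) : ℝ) ≤ 2 * Real.sqrt x := by
      rw [show (2 : ℝ) * Real.sqrt x = Real.sqrt (4 * x) by
        rw [Real.sqrt_mul (by norm_num), show (4 : ℝ) = 2 ^ 2 by norm_num, Real.sqrt_sq (by norm_num)]]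
      apply Real.sqrt_le_sqrt
      push_cast
      linarith
    rw [← Real.sqrt_eq_rpow] at hsq
    have h3 : 2 * Real.log x ^ K ≤ η * Real.sqrt x := by
      have := mul_le_mul_of_nonneg_left hsq hη.le
      calc 2 * Real.log x ^ K = η * (2 / η * Real.log x ^ K) := by field_simp
        _ ≤ _ := this
    have h4 : Real.sqrt x * Real.sqrt x = x := Real.mul_self_sqrt hx0.le
    have h5 : 0 < Real.sqrt x := Real.sqrt_pos.2 hx0
    have h6 : 2 * Real.sqrt x ≤ η * (x / Real.log x ^ K) := by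
      rw [← mul_div_assoc, le_div_iff₀ hLK]
      nlinarith
    calc Real.sqrt ((3 * x : ℕ) : ℝ) ≤ 2 * Real.sqrt x := h2
      _ ≤ η * (x / Real.log x ^ K) := h6
      _ ≤ η * y := by gcongr

end Pool.Agent.MB
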