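import Pool.Agent.Lib.MB.Defs
import Pool.Agent.Lib.P4f18dfC.Rad

/-!
# Module MomB: moments

PROOF: `P4f18dfC.even_part q (range r) (fun i => c i * μ(n + h i))`: `(∑ ..)^q - Rm q .. = ∑ t ∈ ntr q (range r), ∏ j, c (t j) μ(n + h (t j))`. For `t ∈ ntr` let `I` be the image of `t`, `J ⊆ I` the set of the values of odd multiplicity; `J` is nonempty; `∏_j μ(n + h (t j)) = ∏_(v ∈ J) μ(n + h v) ∏_(v ∈ I \ J) μ(n + h v)^2`
(`μ^e = μ` for odd `e`, `= μ^2` for even `e ≥ 2`; `Finset.prod_fiberwise` / `Finset.prod_comp`). Hence each `t` contributes at most `δ` (`|∏ c (t j)| ≤ 1`), and there are at most `r^q` tuples. (Module MCP.Mom contains the same argument for polynomials.)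
-/

set_option autoImplicit false

open Finset Filter

namespace Pool.Agent.MB

open Pool.Agent.P4f18df Pool.Agent.P4f18dfC

namespace MomBAux

theorem cube_mu (n : ℕ) : (ArithmeticFunction.moebius n : ℝ) ^ 3 = (ArithmeticFunction.moebius n : ℝ) := by
  rcases ArithmeticFunction.moebius_eq_or n with h | h | h <;> rw [h] <;> norm_num

theorem pow_odd {x : ℝ} (hx : x ^ 3 = x) {e : ℕ} (he : Odd e) : x ^ e = x := by
  obtain ⟨j, rfl⟩ := he
  induction j with
  | zero => simp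
  | succ j ih =>
    have h1 : x ^ (2 * (j + 1) + 1) = x ^ (2 * j) * x ^ 3 := by ring
    rw [h1, hx, ← pow_succ, ih]

theorem pow_even {x : ℝ} (hx : x ^ 3 = x) {e : ℕ} (he : Even e) (h0 : e ≠ 0) : x ^ e = x ^ 2 := by
  obtain ⟨j, rfl⟩ := he
  obtain ⟨l, rfl⟩ : ∃ l, j = l + 1 := ⟨j - 1, by omega⟩
  have h1 : x ^ (l + 1 + (l + 1)) = x ^ (2 * l + 1) * x := by ring
  rw [h1, pow_odd hx ⟨l, rfl⟩]
  ring

/-- the values of odd multiplicity -/
noncomputable def JJ {k : ℕ} (t : Fin k → ℕ) : Finset ℕ :=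
  (univ.image t).filter fun v => Odd (univ.filter (fun i => t i = v)).card

theorem prod_eq {k : ℕ} (t : Fin k → ℕ) (x : ℕ → ℝ) (hx : ∀ v, x v ^ 3 = x v) :
    ∏ i, x (t i) = (∏ v ∈ JJ t, x v) * ∏ v ∈ univ.image t \ JJ t, x v ^ 2 := by
  have h0 : JJ t ⊆ univ.image t := Finset.filter_subset _ _
  rw [Finset.prod_comp x t, ← Finset.prod_sdiff h0, mul_comm]
  congr 1
  · refine Finset.prod_congr rfl fun v hv => ?_
    exact pow_odd (hx v) (Finset.mem_filter.1 hv).2
  · refine Finset.prod_congr rfl fun v hv => ?_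
    rw [Finset.mem_sdiff] at hv
    have h1 : ¬ Odd (univ.filter (fun i => t i = v)).card := fun h =>
      hv.2 (Finset.mem_filter.2 ⟨hv.1, h⟩)
    refine pow_even (hx v) (Nat.not_odd_iff_even.1 h1) ?_
    obtain ⟨i, _, hi⟩ := Finset.mem_image.1 hv.1
    exact Finset.card_ne_zero_of_mem (Finset.mem_filter.2 ⟨Finset.mem_univ i, hi⟩)

end MomBAux

open MomBAux

theorem mom_b (r x : ℕ) (δ : ℝ) (hδ : 0 ≤ δ) (h : ℕ → ℕ) (w : ℕ → ℝ) (hG : GoodT r x δ h w) (q y : ℕ) (hy : y ≤ x)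
    (c : ℕ → ℝ) (hc : ∀ i, |c i| ≤ 1) :
    |∑ n ∈ Icc 1 y, w n * ((∑ i ∈ range r, c i * (ArithmeticFunction.moebius (n + h i) : ℝ)) ^ q -
      Rm q (range r) (fun i => c i * (ArithmeticFunction.moebius (n + h i) : ℝ)))| ≤ (r : ℝ) ^ q * δ := by
  have h1 : ∀ n, (∑ i ∈ range r, c i * (ArithmeticFunction.moebius (n + h i) : ℝ)) ^ q -
      Rm q (range r) (fun i => c i * (ArithmeticFunction.moebius (n + h i) : ℝ)) =
      ∑ t ∈ ntr q (range r), (∏ i, c (t i)) *
      ((∏ v ∈ JJ t, (ArithmeticFunction.moebius (n + h v) : ℝ)) *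
        ∏ v ∈ univ.image t \ JJ t, (ArithmeticFunction.moebius (n + h v) : ℝ) ^ 2) := by
    intro n
    rw [even_part, add_sub_cancel_left]
    refine Finset.sum_congr rfl fun t _ => ?_
    rw [Finset.prod_mul_distrib,
      prod_eq t (fun v => (ArithmeticFunction.moebius (n + h v) : ℝ)) fun v => cube_mu _]
  have h2 : ∑ n ∈ Icc 1 y, w n * ((∑ i ∈ range r, c i * (ArithmeticFunction.moebius (n + h i) : ℝ)) ^ q -
      Rm q (range r) (fun i => c i * (ArithmeticFunction.moebius (n + h i) : ℝ))) =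
      ∑ t ∈ ntr q (range r), (∏ i, c (t i)) * ∑ n ∈ Icc 1 y, w n *
      ((∏ v ∈ JJ t, (ArithmeticFunction.moebius (n + h v) : ℝ)) *
        ∏ v ∈ univ.image t \ JJ t, (ArithmeticFunction.moebius (n + h v) : ℝ) ^ 2) := by
    simp_rw [Finset.mul_sum]
    rw [Finset.sum_comm]
    refine Finset.sum_congr rfl fun n _ => ?_
    rw [h1, Finset.mul_sum]
    refine Finset.sum_congr rfl fun t _ => ?_
    ring
  have h3 : ∀ t ∈ ntr q (range r), |(∏ i, c (t i)) * ∑ n ∈ Icc 1 y, w n *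
      ((∏ v ∈ JJ t, (ArithmeticFunction.moebius (n + h v) : ℝ)) *
        ∏ v ∈ univ.image t \ JJ t, (ArithmeticFunction.moebius (n + h v) : ℝ) ^ 2)| ≤ δ := by
    intro t ht
    rw [ntr, Finset.mem_filter, Fintype.mem_piFinset] at ht
    obtain ⟨ht, hev⟩ := ht
    have hI : univ.image t ⊆ range r := by
      intro v hv
      obtain ⟨i, _, rfl⟩ := Finset.mem_image.1 hv
      exact ht i
    have hJ : (JJ t).Nonempty := by
      push Not at hev
      obtain ⟨v, _, hv⟩ := hev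
      have hv' := Nat.not_even_iff_odd.1 hv
      obtain ⟨i, hi⟩ := Finset.card_pos.1 hv'.pos
      exact ⟨v, Finset.mem_filter.2 ⟨Finset.mem_image.2 ⟨i, Finset.mem_univ i, (Finset.mem_filter.1 hi).2⟩, hv'⟩⟩
    have h4 := hG (JJ t) (univ.image t) (Finset.filter_subset _ _) hI hJ y hy
    have h5 : |∏ i, c (t i)| ≤ 1 := by
      rw [Finset.abs_prod]
      exact Finset.prod_le_one (fun i _ => abs_nonneg _) fun i _ => hc _
    rw [abs_mul]
    exact (mul_le_of_le_one_left (abs_nonneg _) h5).trans h4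
  rw [h2]
  refine (Finset.abs_sum_le_sum_abs _ _).trans ((Finset.sum_le_sum h3).trans ?_)
  rw [Finset.sum_const, nsmul_eq_mul]
  refine mul_le_mul_of_nonneg_right ?_ hδ
  have h6 : (ntr q (range r)).card ≤ r ^ q := by
    refine (Finset.card_filter_le _ _).trans ?_
    rw [Fintype.card_piFinset, Finset.prod_const, Finset.card_univ, Fintype.card_fin, Finset.card_range]
  exact_mod_cast h6

end Pool.Agent.MB
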