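import Pool.Agent.Lib.MB.PolyM
import Pool.Agent.Lib.PTP.PolyOne
import Pool.Agent.Lib.NLT.MsqAll

/-!
# Module OneM: mean squares for one-parameter families of type `PolyS`, and averaging

PROOF: `one_msm`: copy of PTP/PolyOne.lean (`one_e`, `poly_one`; the lemmas `sort_pos`, `norm_prod_le`, `split` of `PTP.PolyOneAux` are public) with `poly_mu` in place of `poly_ms`, `MSm` in place of `MSk`, without `A`, `B'`, `C` and `WBA`:
for each `e : Fin r → Fin (δ + 1)` an eventual statement, `Filter.eventually_all`. The hypothesis `G k = mu` at the slot `a0` with `ι a0 = k` gives `(fun a => G (ι a)) a0 = mu`.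
`msm_avg`, `msm_mono`: copies of `msk_avg`, `msk_mono` (PTP/Avg.lean).
-/

set_option autoImplicit false

open Finset Filter Polynomial

namespace Pool.Agent.MB

open Pool.Agent.MW Pool.Agent.PTP Pool.Agent.NLT Pool.Agent.NLG Pool.Agent.HLU

namespace OneMAux

/-- The claim for a given tuple of degrees. -/
lemma one_e (hG : ∀ m, GenA m) (r K B : ℕ) (ε : ℝ) (hε : 0 < ε) (e : Fin r → ℕ) : ∀ᶠ x : ℕ in atTop,
    ∀ (T : Finset ℕ) (σ : ℕ → Fin r → ℕ) (k : Fin r) (H : ℕ), T ⊆ range (H + 1) →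
      (H : ℝ) + 1 ≤ Real.log x ^ K * T.card → 0 < e k →
      (∀ i i', i ≠ i' → e i = e i' → e i = 0) →
      (∀ i, 0 < e i → (x : ℝ) ^ (1 / 6 + ε) ≤ (H : ℝ) ^ e i ∧ H ^ e i ≤ x) →
      (∀ i, IsP (e i) H (Real.log x ^ K) (fun t => σ t i) ∧ ∀ t : ℕ, t ≤ H → σ t i ≤ x) →
      MSm r K B x T σ k := by
  classical
  by_cases he : ∀ i i', i ≠ i' → e i = e i' → e i = 0
  swap
  · exact Filter.Eventually.of_forall fun x T σ k H _ _ _ h => absurd h he
  obtain ⟨m, ι, hinj, hpos, hsurj, hmono⟩ := PolyOneAux.sort_pos e he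
  have hp := poly_mu (hG m) (fun a => e (ι a)) hmono (fun a => hpos a) (K * (r + 1)) (B + K) ε hε
  filter_upwards [hp, ev_log 1] with x hp hL T σ k H hT hcard hk _ hH hσ
  have hL0 : 0 < Real.log x := by linarith
  choose Q hQd hQc hQe using fun i => (hσ i).1
  obtain ⟨a0, ha0⟩ := hsurj k hk
  have hKr : Real.log x ^ K ≤ Real.log x ^ (K * (r + 1)) :=
    pow_le_pow_right₀ hL (Nat.le_mul_of_pos_right _ (Nat.succ_pos r))
  have h1 := hp H (fun a => hH (ι a) (hpos a)) (fun a => Q (ι a)) (fun a => hQd (ι a))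
    (fun a l hl => (hQc (ι a) l hl).trans (mul_le_mul_of_nonneg_right hKr (by positivity)))
    (fun a t ht => by
      have h2 := hQe (ι a) t ht
      have h3 := (hσ (ι a)).2 t ht
      rw [← h2]
      exact ⟨by positivity, by exact_mod_cast h3⟩) a0
  intro w G hw hGb hGk
  have h2 := h1 (fun n => w n * ∏ i ∈ univ.filter (fun i => e i = 0), G i (n + σ 0 i)) (fun a => G (ι a))
    (fun n hn => by
      rw [norm_mul]
      have h3 := PolyOneAux.norm_prod_le (univ.filter (fun i => e i = 0)) G (σ 0) hL hGb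
        (fun i => (hσ i).2 0 (Nat.zero_le _)) hn
      calc ‖w n‖ * ‖∏ i ∈ univ.filter (fun i => e i = 0), G i (n + σ 0 i)‖
          ≤ Real.log x ^ K * Real.log x ^ (K * r) :=
            mul_le_mul (hw n hn) h3 (norm_nonneg _) (by positivity)
        _ = Real.log x ^ (K * (r + 1)) := by rw [← pow_add, mul_add, mul_one, add_comm])
    (fun a n hn => (hGb (ι a) n hn).trans hKr)
    (by
      show G (ι a0) = mu
      rw [ha0]
      exact hGk)
  have h3 : ∑ t ∈ T, ‖∑ n ∈ Icc 1 x, w n * ∏ i, G i (n + σ t i)‖ ^ 2 ≤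
      ∑ t ∈ range (H + 1), ‖∑ n ∈ Icc 1 x, (w n * ∏ i ∈ univ.filter (fun i => e i = 0), G i (n + σ 0 i)) *
        ∏ a, G (ι a) (n + ((Q (ι a)).eval (t : ℤ)).toNat)‖ ^ 2 := by
    refine le_trans (le_of_eq ?_) (Finset.sum_le_sum_of_subset_of_nonneg hT (fun _ _ _ => by positivity))
    refine Finset.sum_congr rfl fun t ht => ?_
    have ht1 : t ≤ H := by
      have h4 := Finset.mem_range.mp (hT ht)
      omega
    congr 2
    refine Finset.sum_congr rfl fun n _ => ?_
    rw [PolyOneAux.split hinj hpos hsurj hQd hQe G n t ht1, mul_assoc]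
  refine (h3.trans h2).trans ?_
  rw [Finset.card_range, pow_add, Nat.cast_add, Nat.cast_one]
  have h5 : ((H : ℝ) + 1) * ((x : ℝ) ^ 2 / (Real.log x ^ B * Real.log x ^ K)) ≤
      (Real.log x ^ K * T.card) * ((x : ℝ) ^ 2 / (Real.log x ^ B * Real.log x ^ K)) :=
    mul_le_mul_of_nonneg_right hcard (by positivity)
  refine h5.trans (le_of_eq ?_)
  field_simp

end OneMAux

theorem one_msm (hG : ∀ m, GenA m) (r δ K B : ℕ) (ε : ℝ) (hε : 0 < ε) : ∀ᶠ x : ℕ in atTop,
    ∀ (T : Finset ℕ) (σ : ℕ → Fin r → ℕ) (k : Fin r), PolyS K δ ε x T σ k → MSm r K B x T σ k := by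
  classical
  have key := fun e : Fin r → Fin (δ + 1) => OneMAux.one_e hG r K B ε hε (fun i => (e i : ℕ))
  have h2 := Filter.eventually_all.mpr key
  filter_upwards [h2] with x h2 T σ k hP
  obtain ⟨H, d, h3, h4, h5, h6, h7, h8, h9⟩ := hP
  exact h2 (fun i => (⟨d i, Nat.lt_succ_of_le (h6 i)⟩ : Fin (δ + 1))) T σ k H h3 h4 h5 h7 h8 h9

theorem msm_avg {r m K B x : ℕ} (T : Fin m → Finset ℕ) (s : (Fin m → ℕ) → Fin r → ℕ) (k : Fin r) (j : Fin m)
    (h : ∀ p ∈ Fintype.piFinset T, MSm r K B x (T j) (fun t => s (Function.update p j t)) k) :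
    MSm r K B x (Fintype.piFinset T) s k := by
  classical
  intro w G hw hG hk
  exact MsqAllAux.avg j T (fun p => ‖∑ n ∈ Icc 1 x, w n * ∏ i, G i (n + s p i)‖ ^ 2) _
    (fun p hp => h p hp w G hw hG hk)

theorem msm_mono {τ : Type} {r K K' B B' x : ℕ} {Ω : Finset τ} {s : τ → Fin r → ℕ} {k : Fin r}
    (h : MSm r K' B' x Ω s k) (hK : K ≤ K') (hB : B ≤ B') (hL : 1 ≤ Real.log x) : MSm r K B x Ω s k := by
  intro w G hw hG hk
  have hKK : Real.log x ^ K ≤ Real.log x ^ K' := pow_le_pow_right₀ hL hK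
  refine (h w G (fun n hn => (hw n hn).trans hKK) (fun i n hn => (hG i n hn).trans hKK) hk).trans ?_
  refine mul_le_mul_of_nonneg_left ?_ (Nat.cast_nonneg _)
  have hL0 : 0 < Real.log x := by linarith
  exact div_le_div_of_nonneg_left (by positivity) (by positivity) (pow_le_pow_right₀ hL hB)

end Pool.Agent.MB
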