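import Pool.Agent.Lib.MB.Defs
import Pool.Agent.Lib.MW.WBm
import Pool.Agent.Lib.PTP.PolyMs

/-!
# Module PolyM: mean squares for the Moebius function, polynomials of increasing degrees

PROOF: copy of the theorem `poly_ms` in PTP/PolyMs.lean (its auxiliary lemmas in the namespace `PTP.PolyMsAux` are public: `cgc`, `bd_cgc`, `cgc_zero`, `cw_zero'`, `sum_idm`,
`fin_stepm`, ...). Changes: the function of the slot `k` is `mu` (bounded by 1), so `E k = 1` instead of `L^2` (`E i = if i = k then 1 else L^K`; `1 ≤ L^(K+2)`), and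
`cgc x u 1 mu = muz x u` (both are `if 1 ≤ n + u ∧ n + u ≤ 2 x then mu (n + u).toNat else 0`; `/ (1 : ℂ)`). There is no parameter `A` and no hypothesis on windows: instead of `WBA` use
`MW.wb_mu B' (2 ^ D) (ε / 2)` with `B' = (κ + 1) * C` (it holds for all large `x`: add it to `filter_upwards`), and in place of `winm` its analogue with `muz x v` instead of `EZ A x v`
(same proof: `x^(1/6 + ε/2) ≤ W`, `W ≤ 2^D x`, `x ≤ 2^D x`, `R^C ≤ L^B'`).
-/

set_option autoImplicit false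

open Finset Filter Polynomial

namespace Pool.Agent.MB

open Pool.Agent.MW Pool.Agent.PTP Pool.Agent.NLT Pool.Agent.NLG Pool.Agent.HLU

namespace PolyMAux

open Pool.Agent.HLB Pool.Agent.HL Pool.Agent.HLT Pool.Agent.HLU Pool.Agent.NLT Pool.Agent.NLG Pool.Agent.PTP
open Pool.Agent.NLT.PairMsAux Pool.Agent.PTP.PolyMsAux

lemma cgc_mu (x u : ℕ) : cgc x u 1 mu = muz x u := by
  funext n
  unfold cgc muz
  split_ifs with h
  · simp
  · rfl

lemma winmu {B' D x v C H R e : ℕ} {ε : ℝ} (hWBA : ∀ W v : ℕ, (x : ℝ) ^ (1 / 6 + ε / 2) ≤ W → W ≤ 2 ^ D * x →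
      WB (muz x v) W ((x : ℝ) * W ^ 2 / Real.log x ^ B'))
    (hL : 2 ≤ Real.log x) (hR0 : 0 < R) (hRC : (R : ℝ) ^ C ≤ Real.log x ^ B')
    (hRx : (R : ℝ) ^ C ≤ (x : ℝ) ^ (ε / 2)) (hx : 1 ≤ x)
    (hH : (x : ℝ) ^ (1 / 6 + ε) ≤ (H : ℝ) ^ e) (hH2 : (H + 1) ^ e ≤ 2 ^ D * x) :
    ∀ W : ℕ, (H + 1) ^ e ≤ R ^ C * W → W ≤ (H + 1) ^ e →
      WB (muz x v) W (((2 ^ D * x : ℕ) : ℝ) * W ^ 2 / (R : ℝ) ^ C) := by
  intro W h1 h2 α U
  have hx0 : (0 : ℝ) < x := by exact_mod_cast hx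
  have hR0' : (0 : ℝ) < R := by exact_mod_cast hR0
  have hL0 : 0 < Real.log x := by linarith
  have h3 : (x : ℝ) ^ (1 / 6 + ε / 2) ≤ W := by
    have h4 : (x : ℝ) ^ (1 / 6 + ε) = (x : ℝ) ^ (1 / 6 + ε / 2) * (x : ℝ) ^ (ε / 2) := by
      rw [← Real.rpow_add hx0]
      congr 1
      ring
    have h5 : (((H + 1) ^ e : ℕ) : ℝ) ≤ (R : ℝ) ^ C * W := by
      exact_mod_cast h1
    have h6 : (R : ℝ) ^ C * W ≤ (x : ℝ) ^ (ε / 2) * W :=
      mul_le_mul_of_nonneg_right hRx (Nat.cast_nonneg _)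
    have h7 : (H : ℝ) ^ e ≤ (((H + 1) ^ e : ℕ) : ℝ) := by
      push_cast
      exact pow_le_pow_left₀ (Nat.cast_nonneg _) (by linarith) _
    have h8 : 0 < (x : ℝ) ^ (ε / 2) := Real.rpow_pos_of_pos hx0 _
    have h9 : (x : ℝ) ^ (1 / 6 + ε / 2) * (x : ℝ) ^ (ε / 2) ≤ (W : ℝ) * (x : ℝ) ^ (ε / 2) := by
      rw [← h4]
      linarith
    exact le_of_mul_le_mul_right h9 h8
  refine (hWBA W v h3 (h2.trans hH2) α U).trans ?_
  have h5 : (x : ℝ) * W ^ 2 / Real.log x ^ B' ≤ (x : ℝ) * W ^ 2 / (R : ℝ) ^ C :=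
    div_le_div_of_nonneg_left (by positivity) (by positivity) hRC
  refine h5.trans ?_
  apply div_le_div_of_nonneg_right _ (by positivity)
  apply mul_le_mul_of_nonneg_right _ (by positivity)
  have h10 : x ≤ 2 ^ D * x := Nat.le_mul_of_pos_left _ (by positivity)
  exact_mod_cast h10

theorem poly_mu_aux {m : ℕ} (hG : GenA m) (d : Fin m → ℕ) (hd : StrictMono d) (hd1 : ∀ j, 1 ≤ d j) (K B : ℕ) (ε : ℝ)
    (hε : 0 < ε) : ∀ᶠ x : ℕ in atTop,
    ∀ H : ℕ, (∀ j, (x : ℝ) ^ (1 / 6 + ε) ≤ (H : ℝ) ^ d j ∧ H ^ d j ≤ x) →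
    ∀ Q : Fin m → ℤ[X], (∀ j, (Q j).natDegree = d j) →
    (∀ j, ∀ l : ℕ, 1 ≤ l → |((Q j).coeff l : ℝ)| * (H : ℝ) ^ l ≤ Real.log x ^ K * (H : ℝ) ^ d j) →
    (∀ j, ∀ t : ℕ, t ≤ H → 0 ≤ (Q j).eval (t : ℤ) ∧ (Q j).eval (t : ℤ) ≤ x) →
    ∀ k : Fin m, MSm m K B x (range (H + 1)) (fun t j => ((Q j).eval (t : ℤ)).toNat) k := by
  classical
  obtain ⟨C, hC1, hC⟩ := pms_gen hG d hd hd1
  obtain ⟨D, hD⟩ : ∃ D, D = ∑ j, d j := ⟨_, rfl⟩
  have hdD : ∀ j, d j ≤ D := by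
    intro j
    rw [hD]
    exact Finset.single_le_sum (fun i _ => Nat.zero_le (d i)) (Finset.mem_univ j)
  obtain ⟨κ, hκ⟩ : ∃ κ, κ = 2 * K + 2 * (K + 2) * m + 2 * D + B + 1 := ⟨_, rfl⟩
  filter_upwards [wb_mu ((κ + 1) * C) (2 ^ D) (ε / 2) (by linarith), ev_log 2, eventually_ge_atTop 1,
    ev_rpow ((κ + 1) * C) (show (0 : ℝ) < ε / 2 by linarith),
    ev_rpow ((κ + 1) * C * D) (show (0 : ℝ) < 1 / 6 by norm_num)] with
    x hWBA hL hx hpow hpow2 H hH Q hQd hQc hQv k w G hw hGb hGk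
  have hx0 : (0 : ℝ) < x := by exact_mod_cast hx
  have hx1 : (1 : ℝ) ≤ x := by exact_mod_cast hx
  have hL0 : 0 < Real.log x := by linarith
  have hL1 : 1 ≤ Real.log x := by linarith
  set L : ℝ := Real.log x with hLdef
  set R : ℕ := ⌈L ^ κ⌉₊ with hRdef
  have hR1 : L ^ κ ≤ R := Nat.le_ceil _
  have hκ1 : 1 ≤ κ := by omega
  have hLk : (2 : ℝ) ≤ L ^ κ := by
    calc (2 : ℝ) ≤ L := hL
      _ = L ^ 1 := (pow_one L).symm
      _ ≤ L ^ κ := pow_le_pow_right₀ hL1 hκ1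
  have hR2 : (R : ℝ) ≤ L ^ (κ + 1) := by
    have h1 : (R : ℝ) < L ^ κ + 1 := Nat.ceil_lt_add_one (by positivity)
    have h2 : L ^ (κ + 1) = L ^ κ * L := pow_succ _ _
    rw [h2]
    nlinarith
  have hRge : 2 ≤ R := by
    have h1 : (2 : ℝ) ≤ R := hLk.trans hR1
    exact_mod_cast h1
  have hR0 : 0 < R := by omega
  have hRr : (1 : ℝ) ≤ R := by
    have : (2 : ℝ) ≤ R := by exact_mod_cast hRge
    linarith
  have hRC : (R : ℝ) ^ C ≤ L ^ ((κ + 1) * C) := by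
    calc (R : ℝ) ^ C ≤ (L ^ (κ + 1)) ^ C := pow_le_pow_left₀ (by linarith) hR2 _
      _ = L ^ ((κ + 1) * C) := (pow_mul _ _ _).symm
  have hRx : (R : ℝ) ^ C ≤ (x : ℝ) ^ (ε / 2) := hRC.trans hpow
  -- size of `H`
  have hRH : R ^ C ≤ H := by
    have hdk : d k ≠ 0 := by
      have := hd1 k
      omega
    have h1 : ((R : ℝ) ^ C) ^ d k ≤ (H : ℝ) ^ d k := by
      calc ((R : ℝ) ^ C) ^ d k ≤ (L ^ ((κ + 1) * C)) ^ d k := pow_le_pow_left₀ (by positivity) hRC _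
        _ ≤ (L ^ ((κ + 1) * C)) ^ D := pow_le_pow_right₀ (one_le_pow₀ hL1) (hdD k)
        _ = L ^ ((κ + 1) * C * D) := (pow_mul _ _ _).symm
        _ ≤ (x : ℝ) ^ (1 / 6 : ℝ) := hpow2
        _ ≤ (x : ℝ) ^ (1 / 6 + ε) := Real.rpow_le_rpow_of_exponent_le hx1 (by linarith)
        _ ≤ (H : ℝ) ^ d k := (hH k).1
    have h2 : (R : ℝ) ^ C ≤ H := (pow_le_pow_iff_left₀ (by positivity) (Nat.cast_nonneg _) hdk).mp h1
    exact_mod_cast h2
  have hH1 : 1 ≤ H := le_trans (Nat.one_le_pow _ _ hR0) hRH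
  have hHX : ∀ j, (H + 1) ^ d j ≤ 2 ^ D * x := by
    intro j
    calc (H + 1) ^ d j ≤ (2 * H) ^ d j := Nat.pow_le_pow_left (by omega) _
      _ = 2 ^ d j * H ^ d j := mul_pow _ _ _
      _ ≤ 2 ^ D * x := Nat.mul_le_mul (Nat.pow_le_pow_right (by norm_num) (hdD j)) (hH j).2
  have hxX : x ≤ 2 ^ D * x := Nat.le_mul_of_pos_left _ (by positivity)
  -- constant coefficients
  have hc0 : ∀ j, 0 ≤ (Q j).coeff 0 ∧ (Q j).coeff 0 ≤ x := by
    intro j
    have h1 := hQv j 0 (Nat.zero_le _)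
    rw [Nat.cast_zero, ← Polynomial.coeff_zero_eq_eval_zero] at h1
    exact h1
  have hux : ∀ j, ((Q j).coeff 0).toNat ≤ x := by
    intro j
    have := hc0 j
    omega
  -- the family
  have hFam : Fam m d R (H + 1) (fun j => Q j - Polynomial.C ((Q j).coeff 0)) := by
    refine ⟨fun j => by rw [Polynomial.natDegree_sub_C, hQd], fun j l hl => ?_⟩
    have e1 : (Q j - Polynomial.C ((Q j).coeff 0)).coeff l = (Q j).coeff l := by
      rw [Polynomial.coeff_sub, Polynomial.coeff_C, if_neg (by omega), sub_zero]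
    rw [e1]
    rcases Nat.lt_or_ge (d j) l with hlt | hle
    · rw [Polynomial.coeff_eq_zero_of_natDegree_lt (by rw [hQd]; exact hlt), Int.natAbs_zero, zero_mul]
      exact Nat.zero_le _
    · have h1 := hQc j l hl
      have hHl : (0 : ℝ) < (H : ℝ) ^ l := by
        have : (0 : ℝ) < H := by exact_mod_cast hH1
        positivity
      have h2 : |((Q j).coeff l : ℝ)| ≤ L ^ K * (H : ℝ) ^ (d j - l) := by
        have e2 : (H : ℝ) ^ d j = (H : ℝ) ^ (d j - l) * (H : ℝ) ^ l := by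
          rw [← pow_add, Nat.sub_add_cancel hle]
        rw [e2, ← mul_assoc] at h1
        exact le_of_mul_le_mul_right h1 hHl
      have h3 : L ^ K ≤ R := (pow_le_pow_right₀ hL1 (by omega)).trans hR1
      have h4 : (((((Q j).coeff l).natAbs * (H + 1) ^ l : ℕ)) : ℝ) ≤ ((R * (H + 1) ^ d j : ℕ) : ℝ) := by
        push_cast
        rw [Nat.cast_natAbs, Int.cast_abs]
        have e3 : ((H : ℝ) + 1) ^ d j = ((H : ℝ) + 1) ^ (d j - l) * ((H : ℝ) + 1) ^ l := by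
          rw [← pow_add, Nat.sub_add_cancel hle]
        rw [e3, ← mul_assoc]
        refine mul_le_mul_of_nonneg_right (h2.trans ?_) (by positivity)
        exact mul_le_mul h3 (pow_le_pow_left₀ (Nat.cast_nonneg _) (by linarith) _) (by positivity) (by positivity)
      exact_mod_cast h4
  have hff : ∀ n ∈ Icc 1 (2 * x), ‖G k n‖ ≤ 1 := by
    intro n _
    rw [hGk]
    exact norm_mu n
  have hK0 : 0 < L ^ K := by positivity
  have h20 : (0 : ℝ) < 1 := one_pos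
  obtain ⟨E, hE⟩ : ∃ E : Fin m → ℝ, E = fun i => if i = k then 1 else L ^ K := ⟨_, rfl⟩
  have hEk : E k = 1 := by rw [hE]; simp
  have hE0 : ∀ i, 0 < E i := by
    intro i
    rw [hE]
    dsimp only
    split_ifs <;> assumption
  have hEle : ∀ i, E i ≤ L ^ (K + 2) := by
    intro i
    rw [hE]
    dsimp only
    split_ifs
    · exact one_le_pow₀ hL1
    · exact pow_le_pow_right₀ hL1 (by omega)
  have hgb : ∀ i, Bd (cgc x ((Q i).coeff 0).toNat (E i) (G i)) := by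
    intro i
    refine bd_cgc (hE0 i) ?_
    by_cases hik : i = k
    · subst hik
      rw [hEk]
      exact hff
    · rw [hE]
      dsimp only
      rw [if_neg hik]
      exact hGb i
  have hgk : cgc x ((Q k).coeff 0).toNat (E k) (G k) = muz x ((Q k).coeff 0).toNat := by
    rw [hEk, hGk]
    exact cgc_mu x _
  have hmain := hC R (H + 1) (2 ^ D * x) hRge (hRH.trans (Nat.le_succ _)) hHX
    (fun j => Q j - Polynomial.C ((Q j).coeff 0)) hFam
    (fun j => by rw [Polynomial.coeff_sub, Polynomial.coeff_C_zero, sub_self])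
    (PairMsAux.cw x (L ^ K) w) (bd_cw hK0 hw) (fun n hn => cw_zero' hxX n hn)
    (fun i => cgc x ((Q i).coeff 0).toNat (E i) (G i)) hgb k
    (fun n hn => cgc_zero (hux k) hxX n hn)
    (by
      have h9 := winmu (v := ((Q k).coeff 0).toNat) (fun W v h1 h2 => hWBA W v h1 (by exact_mod_cast h2)) hL hR0 hRC hRx hx (hH k).1 (hHX k)
      rw [← hgk] at h9
      exact h9)
  have hN : L ^ K * ∏ i, E i ≤ L ^ (K + (K + 2) * m) := by
    rw [pow_add]
    refine mul_le_mul_of_nonneg_left ?_ hK0.le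
    calc ∏ i, E i ≤ ∏ _i : Fin m, L ^ (K + 2) := Finset.prod_le_prod (fun i _ => (hE0 i).le) (fun i _ => hEle i)
      _ = L ^ ((K + 2) * m) := by
          rw [Finset.prod_const, Finset.card_univ, Fintype.card_fin, ← pow_mul]
  have hN0 : 0 < L ^ K * ∏ i, E i := mul_pos hK0 (Finset.prod_pos fun i _ => hE0 i)
  rw [hκ] at hR1
  rw [Finset.card_range]
  refine fin_stepm hL hN0 hN hR1 _ ?_
  refine le_trans (le_of_eq ?_) hmain
  refine Finset.sum_congr rfl fun t ht => ?_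
  rw [mem_range] at ht
  congr 2
  have hα : ∀ i, (Q i - Polynomial.C ((Q i).coeff 0)).eval (t : ℤ) + (((Q i).coeff 0).toNat : ℤ) = (Q i).eval (t : ℤ) := by
    intro i
    rw [Polynomial.eval_sub, Polynomial.eval_C, Int.toNat_of_nonneg (hc0 i).1]
    ring
  rw [sum_idm hxX (fun i => by rw [hα i]; exact hQv i t (by omega))]
  simp only [hα]

end PolyMAux

theorem poly_mu {m : ℕ} (hG : GenA m) (d : Fin m → ℕ) (hd : StrictMono d) (hd1 : ∀ j, 1 ≤ d j) (K B : ℕ) (ε : ℝ)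
    (hε : 0 < ε) : ∀ᶠ x : ℕ in atTop,
    ∀ H : ℕ, (∀ j, (x : ℝ) ^ (1 / 6 + ε) ≤ (H : ℝ) ^ d j ∧ H ^ d j ≤ x) →
    ∀ Q : Fin m → ℤ[X], (∀ j, (Q j).natDegree = d j) →
    (∀ j, ∀ l : ℕ, 1 ≤ l → |((Q j).coeff l : ℝ)| * (H : ℝ) ^ l ≤ Real.log x ^ K * (H : ℝ) ^ d j) →
    (∀ j, ∀ t : ℕ, t ≤ H → 0 ≤ (Q j).eval (t : ℤ) ∧ (Q j).eval (t : ℤ) ≤ x) →
    ∀ k : Fin m, MSm m K B x (range (H + 1)) (fun t j => ((Q j).eval (t : ℤ)).toNat) k :=
  PolyMAux.poly_mu_aux hG d hd hd1 K B ε hε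

end Pool.Agent.MB
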