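import Pool.Agent.Lib.MB.FinB
import Pool.Agent.Lib.MB.BaseM

/-!
# Module PowZ: the shifts `0, t ^ k, t ^ (k + 1), ..., t ^ (6 k - 1)`

PROOF. `good_cons`: `J ⊆ I ⊆ range (r + 1)`, `J` nonempty. Put `I' = {i : i + 1 ∈ I}`, `J' = {i : i + 1 ∈ J} ⊆ I' ⊆ range r`. The summand is `f(n) ∏_(i ∈ J') μ(n + h i) ∏_(i ∈ I' \ J') μ(n + h i)²` with `f(n) = μ(n)` if `0 ∈ J`, `μ(n)²` if `0 ∈ I \ J`, `1` if `0 ∉ I`. If `J'` is nonempty: `GoodT r x δ h f`.
If `J'` is empty, then `0 ∈ J` and the sum is `∑ μ(n) ∏_(i ∈ I') μ(n + h i)²`: hypothesis `hb`.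
`pow_mu0`: `pow_mu k 0 (A + 1) 0 hk ε` with `e = 0` for the three weights `1`, `μ(n)`, `μ(n)²` (union of the three exceptional sets: `3 H/L^(A+1) ≤ H/L^A`, `x/L^(A+1) ≤ x/L^A`), and `base_mu (5 k) (A + 1)` with `h i = t^(k + i) ≤ H^(6k-1) ≤ x` (for `i < 5k`, `H ≥ 1`).
-/

set_option autoImplicit false

open Finset Filter

namespace Pool.Agent.MB

namespace PowZAux

theorem prod_split (r : ℕ) (S : Finset ℕ) (hS : S ⊆ range (r + 1)) (F : ℕ → ℝ) :
    ∏ i ∈ S, F i = (if 0 ∈ S then F 0 else 1) * ∏ i ∈ (range r).filter (fun i => i + 1 ∈ S), F (i + 1) := by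
  have e1 : ∏ i ∈ S, F i = ∏ i ∈ range (r + 1), if i ∈ S then F i else 1 := by
    rw [← Finset.prod_filter]
    congr 1
    ext i
    simp only [mem_filter]
    exact ⟨fun h => ⟨hS h, h⟩, fun h => h.2⟩
  rw [e1, Finset.prod_range_succ', Finset.prod_filter, mul_comm]

theorem sdiff_eq (r : ℕ) (I J : Finset ℕ) : (range r).filter (fun i => i + 1 ∈ I \ J) =
    (range r).filter (fun i => i + 1 ∈ I) \ (range r).filter (fun i => i + 1 ∈ J) := by
  ext i
  simp only [mem_filter, Finset.mem_sdiff]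
  tauto

end PowZAux

open PowZAux in
theorem good_cons (r x : ℕ) (δ : ℝ) (h : ℕ → ℕ) (h1 : GoodT r x δ h (fun _ => 1))
    (h2 : GoodT r x δ h (fun n => (ArithmeticFunction.moebius n : ℝ)))
    (h3 : GoodT r x δ h (fun n => (ArithmeticFunction.moebius n : ℝ) ^ 2))
    (hb : ∀ I ⊆ range r, ∀ y : ℕ, y ≤ x → |∑ n ∈ Icc 1 y, (ArithmeticFunction.moebius n : ℝ) *
      ∏ i ∈ I, (ArithmeticFunction.moebius (n + h i) : ℝ) ^ 2| ≤ δ) :
    GoodT (r + 1) x δ (fun i => if i = 0 then 0 else h (i - 1)) (fun _ => 1) := by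
  intro J I hJI hI hJ y hy
  have hJr : J ⊆ range (r + 1) := hJI.trans hI
  set I' : Finset ℕ := (range r).filter (fun i => i + 1 ∈ I) with hI'
  set J' : Finset ℕ := (range r).filter (fun i => i + 1 ∈ J) with hJ'
  have hJI' : J' ⊆ I' := by
    intro i hi
    rw [hJ', mem_filter] at hi
    rw [hI', mem_filter]
    exact ⟨hi.1, hJI hi.2⟩
  have hIr : I' ⊆ range r := filter_subset _ _
  have key : ∀ n : ℕ, (1 : ℝ) * ((∏ i ∈ J, (ArithmeticFunction.moebius (n + (if i = 0 then 0 else h (i - 1))) : ℝ)) *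
      ∏ i ∈ I \ J, (ArithmeticFunction.moebius (n + (if i = 0 then 0 else h (i - 1))) : ℝ) ^ 2) =
      ((if 0 ∈ J then (ArithmeticFunction.moebius n : ℝ) else 1) * (if 0 ∈ I \ J then (ArithmeticFunction.moebius n : ℝ) ^ 2 else 1)) *
      ((∏ i ∈ J', (ArithmeticFunction.moebius (n + h i) : ℝ)) *
      ∏ i ∈ I' \ J', (ArithmeticFunction.moebius (n + h i) : ℝ) ^ 2) := by
    intro n
    rw [prod_split r J hJr, prod_split r (I \ J) (sdiff_subset.trans hI), sdiff_eq r I J]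
    simp only [if_true, add_zero, Nat.add_eq_zero_iff, one_ne_zero, and_false, if_false, Nat.add_sub_cancel]
    rw [← hI', ← hJ']
    ring
  rw [Finset.sum_congr rfl (fun n _ => key n)]
  by_cases h0 : 0 ∈ J
  · have h0' : 0 ∉ I \ J := by
      rw [Finset.mem_sdiff]
      tauto
    simp only [h0, h0', if_true, if_false, mul_one]
    by_cases hne : J'.Nonempty
    · exact h2 J' I' hJI' hIr hne y hy
    · rw [not_nonempty_iff_eq_empty] at hne
      rw [hne]
      simp only [prod_empty, sdiff_empty, one_mul]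
      exact hb I' hIr y hy
  · have hne : J'.Nonempty := by
      obtain ⟨j, hj⟩ := hJ
      have hj0 : j ≠ 0 := by
        rintro rfl
        exact h0 hj
      have hjr := mem_range.1 (hJr hj)
      refine ⟨j - 1, ?_⟩
      rw [hJ', mem_filter, mem_range]
      refine ⟨by omega, ?_⟩
      rw [Nat.sub_add_cancel (Nat.one_le_iff_ne_zero.2 hj0)]
      exact hj
    by_cases h00 : 0 ∈ I
    · have h0' : 0 ∈ I \ J := by
        rw [Finset.mem_sdiff]
        exact ⟨h00, h0⟩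
      simp only [h0, h0', if_true, if_false, one_mul]
      exact h3 J' I' hJI' hIr hne y hy
    · have h0' : 0 ∉ I \ J := by
        rw [Finset.mem_sdiff]
        tauto
      simp only [h0, h0', if_false, one_mul]
      have := h1 J' I' hJI' hIr hne y hy
      simp only [one_mul] at this
      exact this

theorem pow_mu0 (k A : ℕ) (hk : 1 ≤ k) (ε : ℝ) (hε : 0 < ε) : ∀ᶠ x : ℕ in atTop, ∀ H : ℕ,
    (x : ℝ) ^ (1 / (6 * k : ℝ) + ε) ≤ H → H ^ (6 * k - 1) ≤ x →
    ∃ E : Finset ℕ, (E.card : ℝ) ≤ (H : ℝ) / Real.log x ^ A ∧ ∀ t : ℕ, t ≤ H → t ∉ E →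
      GoodT (5 * k + 1) x (x / Real.log x ^ A) (fun i => if i = 0 then 0 else t ^ (k + (i - 1))) (fun _ => 1) := by
  have hL : ∀ᶠ x : ℕ in atTop, (3 : ℝ) ≤ Real.log x :=
    (Real.tendsto_log_atTop.comp tendsto_natCast_atTop_atTop).eventually_ge_atTop 3
  filter_upwards [pow_mu k 0 (A + 1) 0 hk ε hε, base_mu (5 * k) A, hL] with x hp hb hL H hH1 hH2
  have hLA : (0 : ℝ) < Real.log x ^ A := by positivity
  have hLA1 : (0 : ℝ) < Real.log x ^ (A + 1) := by positivity
  have hxδ : (x : ℝ) / Real.log x ^ (A + 1) ≤ x / Real.log x ^ A := by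
    apply div_le_div_of_nonneg_left (Nat.cast_nonneg _) hLA
    exact pow_le_pow_right₀ (by linarith) (Nat.le_succ A)
  have hmu : ∀ n : ℕ, |(ArithmeticFunction.moebius n : ℝ)| ≤ 1 := by
    intro n
    have := ArithmeticFunction.abs_moebius_le_one (n := n)
    exact_mod_cast this
  obtain ⟨E1, hE1, hG1⟩ := hp H hH1 hH2 (fun _ => 1) (by
    intro n _
    simp) (fun _ => 0) (fun _ => le_rfl)
  obtain ⟨E2, hE2, hG2⟩ := hp H hH1 hH2 (fun n => (ArithmeticFunction.moebius n : ℝ)) (by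
    intro n _
    rw [pow_zero]
    exact hmu n) (fun _ => 0) (fun _ => le_rfl)
  obtain ⟨E3, hE3, hG3⟩ := hp H hH1 hH2 (fun n => (ArithmeticFunction.moebius n : ℝ) ^ 2) (by
    intro n _
    rw [pow_zero, abs_pow]
    exact pow_le_one₀ (abs_nonneg _) (hmu n)) (fun _ => 0) (fun _ => le_rfl)
  refine ⟨E1 ∪ E2 ∪ E3, ?_, ?_⟩
  · have c1 : ((E1 ∪ E2 ∪ E3).card : ℝ) ≤ E1.card + E2.card + E3.card := by
      have := (card_union_le (E1 ∪ E2) E3).trans (Nat.add_le_add_right (card_union_le E1 E2) _)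
      exact_mod_cast this
    have c2 : 3 * ((H : ℝ) / Real.log x ^ (A + 1)) ≤ (H : ℝ) / Real.log x ^ A := by
      rw [← mul_div_assoc, div_le_div_iff₀ hLA1 hLA, pow_succ]
      have hH0 : (0 : ℝ) ≤ H := Nat.cast_nonneg _
      nlinarith [mul_nonneg hH0 hLA.le, mul_le_mul_of_nonneg_left hL (mul_nonneg hH0 hLA.le)]
    linarith
  · intro t ht htE
    simp only [mem_union, not_or] at htE
    have g1 := hG1 t ht htE.1.1
    have g2 := hG2 t ht htE.1.2
    have g3 := hG3 t ht htE.2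
    simp only [zero_add] at g1 g2 g3
    refine good_cons (5 * k) x (x / Real.log x ^ A) (fun i => t ^ (k + i))
      (fun J I a b c y hy => (g1 J I a b c y hy).trans hxδ) (fun J I a b c y hy => (g2 J I a b c y hy).trans hxδ)
      (fun J I a b c y hy => (g3 J I a b c y hy).trans hxδ) ?_
    intro I hI y hy
    refine hb (fun i => t ^ (k + i)) I ?_ ?_ y hy
    · have := card_le_card hI
      rwa [card_range] at this
    · intro i hi
      have hir := mem_range.1 (hI hi)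
      rcases Nat.eq_zero_or_pos t with h0 | h0
      · simp only [h0]
        rw [zero_pow (by omega)]
        exact Nat.zero_le _
      · exact ((Nat.pow_le_pow_right h0 (by omega : k + i ≤ 6 * k - 1)).trans (Nat.pow_le_pow_left ht _)).trans hH2

end Pool.Agent.MB
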