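import Pool.Agent.Lib.MW.MuSW
import Pool.Agent.Lib.HLU.Base

/-!
# Module SwAp: the Moebius function in arithmetic progressions (Siegel-Walfisz), all residue classes

PROOF. `MW.mu_sum_chi j`: `‖∑_{n ≤ x} μ(n) χ(n)‖ ≤ C q³ x/(log x)^j` for all `x ≥ 3` and ALL characters `χ` mod `q`. Let `g = gcd(a, q)`, `q = g q'`, `a = g a'`: `n ≡ a (mod q)` iff `n = g m`, `m ≡ a' (mod q')`, `gcd(a', q') = 1`; `μ(g m) = μ(g) μ(m)` if `gcd(g, m) = 1` and `0` otherwise. So the sum is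
`μ(g) ∑_{m ≤ y/g, m ≡ a' (q'), (m, g) = 1} μ(m) = μ(g) (1/φ(q')) ∑_{χ' mod q'} conj(χ'(a')) ∑_{m ≤ y/g} μ(m) χ'(m) 1_{(m, g) = 1}` (orthogonality: `DirichletCharacter.sum_char_inv_mul_char_eq`), and `χ'(m) 1_{(m,g) = 1} = ψ(m)` with `ψ = changeLevel` of `χ'` to the level `q = q' g`
(`ψ(m) = χ'(m)` if `gcd(m, q) = 1`, and `0` otherwise; if `gcd(m, q') > 1` both sides vanish). Each inner sum is at most `C q³ Y/(log Y)^j` with `Y = ⌊y/g⌋` (trivially at most `Y`). If `Y ≤ √x`: trivial bound `√x ≤ x/L^A`. Otherwise `log Y ≥ L/2` and `C q³ Y 2^j/L^j ≤ C 2^j L^(3B) x/L^j ≤ x/L^A` with `j = A + 3 B + 1`. (`L = log x`.)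
-/

set_option autoImplicit false

open Finset Filter

namespace Pool.Agent.MB

open Pool.Agent.MW

namespace SwApAux

/-- unit residue classes -/
lemma unit_class (j : ℕ) : ∃ C : ℝ, 1 ≤ C ∧ ∀ (q : ℕ) [NeZero q] (r : ZMod q) (x : ℕ), IsUnit r → 3 ≤ x →
    ‖∑ n ∈ (Icc 1 x).filter (fun n : ℕ => (n : ZMod q) = r), mu n‖ ≤ C * (q : ℝ) ^ 3 * x / Real.log x ^ j := by
  obtain ⟨C, hC, h⟩ := mu_sum_chi j
  refine ⟨C, hC, fun q _ r x hr hx => ?_⟩
  have hphi : (0 : ℝ) < (q.totient : ℝ) := by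
    exact_mod_cast Nat.totient_pos.2 (Nat.pos_of_ne_zero (NeZero.ne q))
  have hphi' : (q.totient : ℂ) ≠ 0 := by exact_mod_cast hphi.ne'
  have e1 : ∑ n ∈ (Icc 1 x).filter (fun n : ℕ => (n : ZMod q) = r), mu n
      = (q.totient : ℂ)⁻¹ * ∑ χ : DirichletCharacter ℂ q, χ r⁻¹ * ∑ n ∈ Icc 1 x, mu n * χ (n : ZMod q) := by
    rw [Finset.sum_filter]
    have e2 : ∀ n : ℕ, (if (n : ZMod q) = r then mu n else 0)
        = (q.totient : ℂ)⁻¹ * (mu n * ∑ χ : DirichletCharacter ℂ q, χ r⁻¹ * χ (n : ZMod q)) := by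
      intro n
      rw [DirichletCharacter.sum_char_inv_mul_char_eq ℂ hr (n : ZMod q)]
      by_cases hn : (n : ZMod q) = r
      · rw [if_pos hn, if_pos hn.symm]
        field_simp
      · rw [if_neg hn, if_neg (fun h => hn h.symm)]
        simp
    rw [Finset.sum_congr rfl (fun n _ => e2 n), ← Finset.mul_sum]
    congr 1
    simp_rw [Finset.mul_sum]
    rw [Finset.sum_comm]
    refine Finset.sum_congr rfl (fun χ _ => Finset.sum_congr rfl (fun n _ => ?_))
    ring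
  rw [e1, norm_mul, norm_inv, Complex.norm_natCast]
  have hb : 0 ≤ C * (q : ℝ) ^ 3 * x / Real.log x ^ j := by
    have : 0 ≤ Real.log (x : ℝ) := Real.log_natCast_nonneg x
    positivity
  have e3 : ‖∑ χ : DirichletCharacter ℂ q, χ r⁻¹ * ∑ n ∈ Icc 1 x, mu n * χ (n : ZMod q)‖
      ≤ (q.totient : ℝ) * (C * (q : ℝ) ^ 3 * x / Real.log x ^ j) := by
    refine (norm_sum_le _ _).trans ?_
    have e4 : ∀ χ ∈ (Finset.univ : Finset (DirichletCharacter ℂ q)),
        ‖χ r⁻¹ * ∑ n ∈ Icc 1 x, mu n * χ (n : ZMod q)‖ ≤ C * (q : ℝ) ^ 3 * x / Real.log x ^ j := by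
      intro χ _
      rw [norm_mul]
      calc ‖χ r⁻¹‖ * ‖∑ n ∈ Icc 1 x, mu n * χ (n : ZMod q)‖
          ≤ 1 * (C * (q : ℝ) ^ 3 * x / Real.log x ^ j) :=
            mul_le_mul (χ.norm_le_one _) (h q χ x hx) (norm_nonneg _) zero_le_one
        _ = _ := one_mul _
    refine (Finset.sum_le_card_nsmul _ _ _ e4).trans (le_of_eq ?_)
    rw [nsmul_eq_mul, Finset.card_univ, ← Nat.card_eq_fintype_card,
      DirichletCharacter.card_eq_totient_of_hasEnoughRootsOfUnity]
  calc (q.totient : ℝ)⁻¹ * ‖∑ χ : DirichletCharacter ℂ q, χ r⁻¹ * ∑ n ∈ Icc 1 x, mu n * χ (n : ZMod q)‖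
      ≤ (q.totient : ℝ)⁻¹ * ((q.totient : ℝ) * (C * (q : ℝ) ^ 3 * x / Real.log x ^ j)) :=
        mul_le_mul_of_nonneg_left e3 (by positivity)
    _ = C * (q : ℝ) ^ 3 * x / Real.log x ^ j := by field_simp

/-- residue classes modulo a divisor, with the coprimality condition -/
lemma copr_class (j : ℕ) : ∃ C : ℝ, 1 ≤ C ∧ ∀ (q q' a' : ℕ) (x : ℕ), 1 ≤ q → q' ∣ q → 3 ≤ x →
    ‖∑ n ∈ (Icc 1 x).filter (fun n : ℕ => n ≡ a' [MOD q'] ∧ Nat.Coprime n q), mu n‖
      ≤ C * (q : ℝ) ^ 4 * x / Real.log x ^ j := by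
  obtain ⟨C, hC, h⟩ := unit_class j
  refine ⟨C, hC, fun q q' a' x hq hqq hx => ?_⟩
  haveI : NeZero q := ⟨by omega⟩
  have hb : 0 ≤ C * (q : ℝ) ^ 3 * x / Real.log x ^ j := by
    have : 0 ≤ Real.log (x : ℝ) := Real.log_natCast_nonneg x
    positivity
  have e1 : ∑ n ∈ (Icc 1 x).filter (fun n : ℕ => n ≡ a' [MOD q'] ∧ Nat.Coprime n q), mu n
      = ∑ r ∈ (Finset.univ : Finset (ZMod q)).filter
          (fun r => r.val ≡ a' [MOD q'] ∧ Nat.Coprime r.val q),
        ∑ n ∈ (Icc 1 x).filter (fun n : ℕ => (n : ZMod q) = r), mu n := by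
    have hP : ∀ n : ℕ, (n ≡ a' [MOD q'] ∧ Nat.Coprime n q) ↔
        ((n : ZMod q).val ≡ a' [MOD q'] ∧ Nat.Coprime (n : ZMod q).val q) := by
      intro n
      rw [ZMod.val_natCast]
      have h1 : n % q ≡ n [MOD q'] := (Nat.mod_modEq n q).of_dvd hqq
      have h2 : Nat.Coprime (n % q) q ↔ Nat.Coprime n q := by
        unfold Nat.Coprime
        rw [(Nat.mod_modEq n q).gcd_eq]
      rw [h2]
      constructor
      · rintro ⟨h3, h4⟩
        exact ⟨h1.trans h3, h4⟩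
      · rintro ⟨h3, h4⟩
        exact ⟨h1.symm.trans h3, h4⟩
    rw [← Finset.sum_fiberwise_of_maps_to (s := (Icc 1 x).filter
      (fun n : ℕ => n ≡ a' [MOD q'] ∧ Nat.Coprime n q))
      (t := (Finset.univ : Finset (ZMod q)).filter
          (fun r => r.val ≡ a' [MOD q'] ∧ Nat.Coprime r.val q)) (g := fun n : ℕ => (n : ZMod q))
      (f := mu)]
    · refine Finset.sum_congr rfl (fun r hr => ?_)
      refine Finset.sum_congr ?_ (fun _ _ => rfl)
      ext n
      simp only [mem_filter, mem_Icc, mem_univ, true_and] at hr ⊢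
      constructor
      · rintro ⟨⟨h1, _⟩, h3⟩
        exact ⟨h1, h3⟩
      · rintro ⟨h1, h3⟩
        refine ⟨⟨h1, ?_⟩, h3⟩
        rw [hP n, h3]
        exact hr
    · intro n hn
      simp only [mem_filter, mem_univ, true_and] at hn ⊢
      exact (hP n).1 hn.2
  rw [e1]
  refine (norm_sum_le _ _).trans ?_
  have e2 : ∀ r ∈ (Finset.univ : Finset (ZMod q)).filter
      (fun r => r.val ≡ a' [MOD q'] ∧ Nat.Coprime r.val q),
      ‖∑ n ∈ (Icc 1 x).filter (fun n : ℕ => (n : ZMod q) = r), mu n‖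
        ≤ C * (q : ℝ) ^ 3 * x / Real.log x ^ j := by
    intro r hr
    simp only [mem_filter, mem_univ, true_and] at hr
    have hu : IsUnit r := by
      have := (ZMod.unitOfCoprime r.val hr.2).isUnit
      rwa [ZMod.coe_unitOfCoprime, ZMod.natCast_zmod_val] at this
    exact h q r x hu hx
  refine (Finset.sum_le_card_nsmul _ _ _ e2).trans ?_
  rw [nsmul_eq_mul]
  have e3 : (((Finset.univ : Finset (ZMod q)).filter
      (fun r => r.val ≡ a' [MOD q'] ∧ Nat.Coprime r.val q)).card : ℝ) ≤ q := by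
    have : ((Finset.univ : Finset (ZMod q)).filter
      (fun r => r.val ≡ a' [MOD q'] ∧ Nat.Coprime r.val q)).card ≤ q := by
      refine (Finset.card_filter_le _ _).trans ?_
      rw [Finset.card_univ, ZMod.card]
    exact_mod_cast this
  calc _ ≤ (q : ℝ) * (C * (q : ℝ) ^ 3 * x / Real.log x ^ j) := mul_le_mul_of_nonneg_right e3 hb
    _ = C * (q : ℝ) ^ 4 * x / Real.log x ^ j := by ring

/-- the sum over a residue class as a sum over a primitive class -/
lemma reduce (q a y : ℕ) (hq : 1 ≤ q) :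
    ∑ n ∈ (Icc 1 y).filter (fun n => n ≡ a [MOD q]), mu n
      = mu (Nat.gcd a q) * ∑ m ∈ (Icc 1 (y / Nat.gcd a q)).filter
        (fun m => m ≡ a / Nat.gcd a q [MOD (q / Nat.gcd a q)] ∧ Nat.Coprime m q), mu m := by
  set g := Nat.gcd a q with hg
  have hg0 : 0 < g := Nat.gcd_pos_of_pos_right a (by omega)
  have hga : g ∣ a := Nat.gcd_dvd_left a q
  have hgq : g ∣ q := Nat.gcd_dvd_right a q
  have ea : g * (a / g) = a := Nat.mul_div_cancel' hga
  have eq : g * (q / g) = q := Nat.mul_div_cancel' hgq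
  have hcop : Nat.Coprime (a / g) (q / g) := Nat.coprime_div_gcd_div_gcd hg0
  have e1 : ∑ n ∈ (Icc 1 y).filter (fun n => n ≡ a [MOD q]), mu n
      = ∑ m ∈ (Icc 1 (y / g)).filter (fun m => m ≡ a / g [MOD (q / g)]), mu (g * m) := by
    symm
    refine Finset.sum_bij (fun m _ => g * m) ?_ ?_ ?_ ?_
    · intro m hm
      simp only [mem_filter, mem_Icc] at hm ⊢
      refine ⟨⟨Nat.mul_pos hg0 hm.1.1, ?_⟩, ?_⟩
      · have := (Nat.le_div_iff_mul_le hg0).1 hm.1.2
        rw [mul_comm]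
        exact this
      · have := Nat.ModEq.mul_left' g hm.2
        rwa [ea, eq] at this
    · intro m1 _ m2 _ h
      exact Nat.eq_of_mul_eq_mul_left hg0 h
    · intro n hn
      simp only [mem_filter, mem_Icc] at hn
      have hgn : g ∣ n := (Nat.ModEq.dvd_iff hn.2 hgq).2 hga
      obtain ⟨m, hm⟩ := hgn
      refine ⟨m, ?_, hm.symm⟩
      simp only [mem_filter, mem_Icc]
      refine ⟨⟨?_, ?_⟩, ?_⟩
      · rcases Nat.eq_zero_or_pos m with h0 | h0
        · rw [h0] at hm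
          omega
        · exact h0
      · rw [Nat.le_div_iff_mul_le hg0, mul_comm, ← hm]
        exact hn.1.2
      · have h3 := hn.2
        rw [hm] at h3
        rw [← ea, ← eq] at h3
        exact Nat.ModEq.mul_left_cancel' hg0.ne' h3
    · intro m _
      rfl
  rw [e1, Finset.mul_sum]
  have e2 : ∀ m : ℕ, m ≡ a / g [MOD (q / g)] →
      mu (g * m) = if Nat.Coprime m q then mu g * mu m else 0 := by
    intro m hm
    have h1 : Nat.Coprime m (q / g) := by
      have h2 := hm.gcd_eq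
      unfold Nat.Coprime at hcop ⊢
      rw [h2]
      exact hcop
    have h3 : Nat.Coprime m q ↔ Nat.Coprime g m := by
      constructor
      · intro h
        exact (Nat.Coprime.coprime_dvd_right hgq h).symm
      · intro h
        have := Nat.Coprime.mul_right h.symm h1
        rwa [eq] at this
    by_cases h : Nat.Coprime m q
    · rw [if_pos h]
      unfold mu
      rw [ArithmeticFunction.isMultiplicative_moebius.map_mul_of_coprime (h3.1 h)]
      push_cast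
      ring
    · rw [if_neg h]
      unfold mu
      have : ¬ Squarefree (g * m) := fun hs =>
        h (h3.2 (Nat.coprime_of_squarefree_mul hs))
      rw [ArithmeticFunction.moebius_eq_zero_of_not_squarefree this]
      simp
  rw [Finset.sum_filter, Finset.sum_filter]
  refine Finset.sum_congr rfl (fun m _ => ?_)
  by_cases h1 : m ≡ a / g [MOD (q / g)]
  · rw [if_pos h1, e2 m h1]
    by_cases h2 : Nat.Coprime m q
    · rw [if_pos h2, if_pos ⟨h1, h2⟩]
    · rw [if_neg h2, if_neg (fun h => h2 h.2)]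
  · rw [if_neg h1, if_neg (fun h => h1 h.1)]

lemma norm_mu_le (n : ℕ) : ‖mu n‖ ≤ 1 := by
  unfold mu
  rw [Complex.norm_intCast]
  exact_mod_cast ArithmeticFunction.abs_moebius_le_one

end SwApAux

theorem sw_ap (A B : ℕ) : ∀ᶠ x : ℕ in atTop, ∀ q a y : ℕ, 1 ≤ q → (q : ℝ) ≤ Real.log x ^ B → y ≤ x →
    |∑ n ∈ (Icc 1 y).filter (fun n => n ≡ a [MOD q]), (ArithmeticFunction.moebius n : ℝ)| ≤ x / Real.log x ^ A := by
  obtain ⟨C, hC, h⟩ := SwApAux.copr_class (A + 4 * B + 1)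
  filter_upwards [Pool.Agent.HLU.ev_log (C * 2 ^ (A + 4 * B + 1)), Pool.Agent.HLU.ev_log 3,
    Pool.Agent.HLU.ev_pow (2 * A) 0, eventually_ge_atTop 9] with x hL hL3 hpow hx9
  intro q a y hq hqB hyx
  have hcast : |∑ n ∈ (Icc 1 y).filter (fun n => n ≡ a [MOD q]), (ArithmeticFunction.moebius n : ℝ)|
      = ‖∑ n ∈ (Icc 1 y).filter (fun n => n ≡ a [MOD q]), mu n‖ := by
    rw [← Real.norm_eq_abs, ← Complex.norm_real]
    congr 1
    push_cast
    rfl
  rw [hcast, SwApAux.reduce q a y hq, norm_mul]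
  set g := Nat.gcd a q with hg
  set Y := y / g with hY
  set L := Real.log (x : ℝ) with hLdef
  have hL0 : 0 < L := by linarith
  have hx0 : (0 : ℝ) < x := by exact_mod_cast (by omega : 0 < x)
  have hYx : (Y : ℝ) ≤ x := by exact_mod_cast (Nat.div_le_self y g).trans hyx
  set S := ∑ m ∈ (Icc 1 Y).filter (fun m => m ≡ a / g [MOD (q / g)] ∧ Nat.Coprime m q), mu m with hS
  have hmu := SwApAux.norm_mu_le g
  have hS0 : ‖mu g‖ * ‖S‖ ≤ ‖S‖ := by
    calc ‖mu g‖ * ‖S‖ ≤ 1 * ‖S‖ := mul_le_mul_of_nonneg_right hmu (norm_nonneg _)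
      _ = ‖S‖ := one_mul _
  refine hS0.trans ?_
  by_cases hsm : (Y : ℝ) ^ 2 ≤ x
  · -- trivial bound
    have h1 : ‖S‖ ≤ Y := by
      refine (norm_sum_le _ _).trans ?_
      refine (Finset.sum_le_card_nsmul _ _ 1 (fun m _ => SwApAux.norm_mu_le m)).trans ?_
      rw [nsmul_eq_mul, mul_one]
      have : ((Icc 1 Y).filter (fun m => m ≡ a / g [MOD (q / g)] ∧ Nat.Coprime m q)).card ≤ Y := by
        refine (Finset.card_filter_le _ _).trans ?_
        simp
      exact_mod_cast this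
    refine h1.trans ?_
    rw [le_div_iff₀ (pow_pos hL0 _)]
    have h2 : L ^ (2 * A) ≤ x := by simpa using hpow
    have h3 : ((Y : ℝ) * L ^ A) ^ 2 ≤ (x : ℝ) ^ 2 := by
      have : ((Y : ℝ) * L ^ A) ^ 2 = (Y : ℝ) ^ 2 * L ^ (2 * A) := by
        rw [mul_pow, ← pow_mul, mul_comm A 2]
      rw [this, sq (x : ℝ)]
      exact mul_le_mul hsm h2 (by positivity) hx0.le
    exact (abs_le_of_sq_le_sq' h3 hx0.le).2
  · push Not at hsm
    have hY3 : 3 ≤ Y := by
      by_contra hlt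
      push Not at hlt
      have : (Y : ℝ) ≤ 2 := by exact_mod_cast (by omega : Y ≤ 2)
      have h9 : (9 : ℝ) ≤ x := by exact_mod_cast hx9
      have h0 : (0 : ℝ) ≤ Y := Nat.cast_nonneg _
      nlinarith
    have hY0 : (0 : ℝ) < Y := by exact_mod_cast (by omega : 0 < Y)
    have hlogY : L / 2 ≤ Real.log Y := by
      have h1 : L ≤ Real.log ((Y : ℝ) ^ 2) := Real.log_le_log hx0 hsm.le
      rw [Real.log_pow] at h1
      push_cast at h1
      linarith
    have hgq : q / g ∣ q := Nat.div_dvd_of_dvd (Nat.gcd_dvd_right a q)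
    have hb := h q (q / g) (a / g) Y hq hgq hY3
    refine hb.trans ?_
    have hq1 : (1 : ℝ) ≤ q := by exact_mod_cast hq
    have hq4 : (q : ℝ) ^ 4 ≤ L ^ (4 * B) := by
      calc (q : ℝ) ^ 4 ≤ (L ^ B) ^ 4 := pow_le_pow_left₀ (by linarith) hqB 4
        _ = L ^ (4 * B) := by rw [← pow_mul, mul_comm]
    have hpos : 0 < (L / 2) ^ (A + 4 * B + 1) := by positivity
    have h5 : C * (q : ℝ) ^ 4 * Y / Real.log Y ^ (A + 4 * B + 1)
        ≤ C * L ^ (4 * B) * x / (L / 2) ^ (A + 4 * B + 1) := by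
      refine div_le_div₀ (by positivity) ?_ hpos (pow_le_pow_left₀ (by positivity) hlogY _)
      exact mul_le_mul (mul_le_mul_of_nonneg_left hq4 (by linarith)) hYx hY0.le (by positivity)
    refine h5.trans ?_
    rw [div_pow, div_div_eq_mul_div, div_le_div_iff₀ (by positivity) (by positivity)]
    have h6 : L ^ (A + 4 * B + 1) = L ^ A * L ^ (4 * B) * L := by
      rw [pow_add, pow_add, pow_one]
    rw [h6]
    have h7 : 0 ≤ x * (L ^ (4 * B) * L ^ A) := by positivity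
    calc C * L ^ (4 * B) * x * 2 ^ (A + 4 * B + 1) * L ^ A
        = (x * (L ^ (4 * B) * L ^ A)) * (C * 2 ^ (A + 4 * B + 1)) := by ring
      _ ≤ (x * (L ^ (4 * B) * L ^ A)) * L := mul_le_mul_of_nonneg_left hL h7
      _ = x * (L ^ A * L ^ (4 * B) * L) := by ring

end Pool.Agent.MB
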