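import Pool.Agent.Lib.MB.Defs
import Pool.Agent.Lib.MW.WBm
import Pool.Agent.Lib.NLT.WnWb

/-!
# Module WnM: Fourier coefficients of the Moebius function in short windows

PROOF: copy of `NLT.wn_of_wba` (file NLT/WnWb.lean) with `fun n => (ArithmeticFunction.moebius n : ℝ)` instead of `ff (zA A x)` (bounded by 1, so the constant `L^2` is replaced by 1) and with the eventual statement
`MW.wb_mu (B + 5) 1 (ε / 2)` at `v = 0` instead of the hypothesis `WBA A B' 1 (ε / 2) x`. The window identity is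
`∑ n ∈ (Ioc u (u + h)).filter (· ≤ 2 x), (μ n : ℂ) ex (n α) = ∑ n ∈ Ioc (u : ℤ) (u + h), muz x 0 n * ex (n α)` (`muz x 0 n = mu n.toNat` for `1 ≤ n ≤ 2 x`, else 0).
-/

set_option autoImplicit false

open Finset Filter

namespace Pool.Agent.MB

open Pool.Agent.MW Pool.Agent.HLT Pool.Agent.VK Pool.Agent.NLT

/-- The Moebius function with real values. -/
private noncomputable def mr (n : ℕ) : ℝ := (ArithmeticFunction.moebius n : ℝ)

private lemma mr_le (n : ℕ) : |mr n| ≤ 1 := by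
  unfold mr
  exact_mod_cast ArithmeticFunction.abs_moebius_le_one

private lemma win_eq_mu (x u h : ℕ) (α : ℝ) :
    ∑ n ∈ (Ioc u (u + h)).filter (fun n => n ≤ 2 * x), (mr n : ℂ) * ex (n * α) =
      ∑ n ∈ Ioc (u : ℤ) (u + h), muz x 0 n * ex ((n : ℝ) * α) := by
  have h1 : Ioc (u : ℤ) (u + h) = (Ioc u (u + h)).map ⟨fun n : ℕ => (n : ℤ), Nat.cast_injective⟩ := by
    ext z
    simp only [mem_Ioc, Finset.mem_map, Function.Embedding.coeFn_mk]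
    constructor
    · intro hz
      refine ⟨z.toNat, ?_, ?_⟩ <;> omega
    · rintro ⟨n, hn, rfl⟩
      omega
  rw [h1, sum_map, sum_filter]
  refine sum_congr rfl fun n hn => ?_
  rw [mem_Ioc] at hn
  simp only [Function.Embedding.coeFn_mk, muz]
  by_cases hnx : n ≤ 2 * x
  · rw [if_pos hnx, if_pos (by push_cast; omega)]
    have e1 : ((n : ℤ) + ((0 : ℕ) : ℤ)).toNat = n := by omega
    rw [e1]
    unfold mr mu
    push_cast
    rfl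
  · rw [if_neg hnx, if_neg (by push_cast; omega)]
    simp

theorem wn_mu (B : ℕ) (ε : ℝ) (hε : 0 < ε) : ∀ᶠ x : ℕ in atTop, ∀ H : ℕ, (x : ℝ) ^ (1 / 6 + ε) ≤ H → H ≤ x → ∀ k0 : ℕ,
    ∑ k ∈ wdw x H k0, ‖esum (fun n => (ArithmeticFunction.moebius n : ℝ)) (2 * x) (k / ((4 * x + 1 : ℕ) : ℝ))‖ ^ 2 ≤
      (x : ℝ) ^ 2 / Real.log x ^ B := by
  change ∀ᶠ x : ℕ in atTop, ∀ H : ℕ, (x : ℝ) ^ (1 / 6 + ε) ≤ H → H ≤ x → ∀ k0 : ℕ,
    ∑ k ∈ wdw x H k0, ‖esum mr (2 * x) (k / ((4 * x + 1 : ℕ) : ℝ))‖ ^ 2 ≤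
      (x : ℝ) ^ 2 / Real.log x ^ B
  rcases lt_or_ge (5 / 6) ε with hbig | hsmall
  · filter_upwards [eventually_ge_atTop 2] with x hx2 H hH hHx
    exfalso
    have hx1 : (1 : ℝ) < x := by exact_mod_cast (by omega : 1 < x)
    have e1 : (x : ℝ) ^ (1 : ℝ) < (x : ℝ) ^ (1 / 6 + ε) :=
      Real.rpow_lt_rpow_of_exponent_lt hx1 (by linarith only [hbig])
    rw [Real.rpow_one] at e1
    have e2 : (H : ℝ) ≤ x := by exact_mod_cast hHx
    linarith only [e1, e2, hH]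
  obtain ⟨e, he⟩ : ∃ e : ℝ, e = ε / 2 := ⟨_, rfl⟩
  have he0 : 0 < e := by rw [he]; linarith only [hε]
  have he2 : e ≤ 5 / 12 := by rw [he]; linarith only [hsmall]
  have hee : 0 < ε - e := by rw [he]; linarith only [hε]
  obtain ⟨m, hm⟩ : ∃ m, m = B + 8 := ⟨_, rfl⟩
  -- asymptotic facts
  have ev1 : ∀ᶠ x : ℕ in atTop, (8 : ℝ) ≤ (x : ℝ) ^ (ε - e) :=
    ((tendsto_rpow_atTop hee).comp
      tendsto_natCast_atTop_atTop).eventually_ge_atTop 8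
  have ev2 : ∀ᶠ x : ℕ in atTop, 9 * Real.log x ^ m ≤ (x : ℝ) ^ (1 / 4 : ℝ) := by
    have h1 := isLittleO_log_rpow_rpow_atTop ((m : ℕ) : ℝ) (show (0 : ℝ) < 1 / 4 by norm_num)
    simp only [Real.rpow_natCast] at h1
    have h2 := (h1.comp_tendsto tendsto_natCast_atTop_atTop).bound (show (0 : ℝ) < 1 / 9 by norm_num)
    filter_upwards [h2, Pool.Agent.HLU.ev_log 1] with x hx hL
    simp only [Function.comp_def] at hx
    rw [Real.norm_of_nonneg (by positivity), Real.norm_of_nonneg (by positivity)] at hx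
    linarith only [hx]
  filter_upwards [ev1, ev2, Pool.Agent.HLU.ev_log 1360, wb_mu (B + 5) 1 e he0,
    eventually_ge_atTop 1] with x h8 h9 hL hWB0 hx1 H hH hHx k0
  have hWB : ∀ W v : ℕ, (x : ℝ) ^ (1 / 6 + e) ≤ W → W ≤ 1 * x → WB (muz x v) W ((x : ℝ) * W ^ 2 / Real.log x ^ (B + 5)) := hWB0
  clear hWB0
  obtain ⟨L, hLd⟩ : ∃ L, L = Real.log x := ⟨_, rfl⟩
  have hL' : Real.log x = L := hLd.symm
  rw [← hLd] at hWB h9 hL ⊢
  have hL1 : 1 ≤ L := by linarith only [he0, he2, hL]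
  have hL0 : 0 < L := by linarith only [he0, he2, hL]
  have hx0 : (0 : ℝ) < x := by exact_mod_cast hx1
  have hx1' : (1 : ℝ) ≤ x := by exact_mod_cast hx1
  have hLm : 0 < L ^ m := pow_pos hL0 m
  -- the length
  obtain ⟨y, hy⟩ : ∃ y : ℝ, y = (x : ℝ) / L ^ m := ⟨_, rfl⟩
  have hy0 : 0 ≤ y := by rw [hy]; (clear * - hx1 hL; positivity)
  obtain ⟨H', hH'⟩ : ∃ H', H' = min H ⌊y⌋₊ := ⟨_, rfl⟩
  have hH'H : H' ≤ H := by rw [hH']; exact min_le_left _ _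
  have hH'y : (H' : ℝ) ≤ y := by
    have : H' ≤ ⌊y⌋₊ := by rw [hH']; exact min_le_right _ _
    exact (Nat.cast_le.2 this).trans (Nat.floor_le hy0)
  have hpe : (1 : ℝ) ≤ (x : ℝ) ^ (1 / 6 + e) := Real.one_le_rpow hx1' (by linarith only [he0, he2])
  have hHlow : 8 * (x : ℝ) ^ (1 / 6 + e) ≤ H := by
    refine le_trans ?_ hH
    have e1 : (x : ℝ) ^ (1 / 6 + ε) = (x : ℝ) ^ (ε - e) * (x : ℝ) ^ (1 / 6 + e) := by
      rw [← Real.rpow_add hx0]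
      congr 1
      ring
    rw [e1]
    gcongr
  have hylow : 8 * (x : ℝ) ^ (1 / 6 + e) + 1 ≤ y := by
    rw [hy, le_div_iff₀ hLm]
    have e1 : (x : ℝ) ^ (1 / 6 + e) ≤ (x : ℝ) ^ (3 / 4 : ℝ) :=
      Real.rpow_le_rpow_of_exponent_le hx1' (by linarith only [he0, he2])
    have e2 : (x : ℝ) ^ (3 / 4 : ℝ) * (x : ℝ) ^ (1 / 4 : ℝ) = x := by
      rw [← Real.rpow_add hx0]
      norm_num
    have e3 : (0 : ℝ) < (x : ℝ) ^ (3 / 4 : ℝ) := by (clear * - hx1; positivity)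
    calc (8 * (x : ℝ) ^ (1 / 6 + e) + 1) * L ^ m ≤ (9 * (x : ℝ) ^ (1 / 6 + e)) * L ^ m := by
          gcongr
          linarith only [hpe]
      _ ≤ (9 * (x : ℝ) ^ (3 / 4 : ℝ)) * L ^ m := by gcongr
      _ = (x : ℝ) ^ (3 / 4 : ℝ) * (9 * L ^ m) := by ring
      _ ≤ (x : ℝ) ^ (3 / 4 : ℝ) * (x : ℝ) ^ (1 / 4 : ℝ) := by gcongr
      _ = x := e2
  have hH'low : 8 * (x : ℝ) ^ (1 / 6 + e) ≤ H' := by
    rw [hH', Nat.cast_min, le_min_iff]
    refine ⟨hHlow, ?_⟩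
    have := Nat.lt_floor_add_one y
    linarith only [hylow, this]
  have hH'8 : 8 ≤ H' := by
    have : (8 : ℝ) ≤ H' := by linarith only [hpe, hH'low]
    exact_mod_cast this
  obtain ⟨h, hh⟩ : ∃ h, h = H' / 4 := ⟨_, rfl⟩
  have hh8 : (H' : ℝ) ≤ 8 * h := by exact_mod_cast (by omega : H' ≤ 8 * h)
  have hh4 : 4 * (h : ℝ) ≤ H' := by exact_mod_cast (by omega : 4 * h ≤ H')
  have hhlow : (x : ℝ) ^ (1 / 6 + e) ≤ h := by linarith only [hH'low, hh8]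
  have hhup : h ≤ 1 * x := by omega
  have hK : ∀ n ∈ Icc 1 (2 * x), |mr n| ≤ L ^ 2 := by
    intro n _
    exact (mr_le n).trans (one_le_pow₀ hL1)
  have hwin : ∑ u ∈ range (2 * x + 1), ‖∑ n ∈ (Ioc u (u + h)).filter (fun n => n ≤ 2 * x), (mr n : ℂ) *
      ex (n * (k0 / ((4 * x + 1 : ℕ) : ℝ)))‖ ^ 2 ≤ x * (h : ℝ) ^ 2 / L ^ (B + 1) := by
    have e0 := hWB h 0 hhlow hhup ((k0 : ℝ) / ((4 * x + 1 : ℕ) : ℝ))
      ((range (2 * x + 1)).map ⟨fun n : ℕ => (n : ℤ), Nat.cast_injective⟩)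
    rw [sum_map] at e0
    simp only [Function.Embedding.coeFn_mk] at e0
    have e1 : ∀ u : ℕ, ‖∑ n ∈ (Ioc u (u + h)).filter (fun n => n ≤ 2 * x), (mr n : ℂ) *
      ex (n * (k0 / ((4 * x + 1 : ℕ) : ℝ)))‖ ^ 2 =
        ‖∑ n ∈ Ioc (u : ℤ) (u + h), muz x 0 n * ex ((n : ℝ) * (k0 / ((4 * x + 1 : ℕ) : ℝ)))‖ ^ 2 := by
      intro u
      rw [win_eq_mu x u h]
    simp only [e1]
    have e7 : (1 : ℝ) ≤ L ^ 4 := one_le_pow₀ hL1
    calc ∑ u ∈ range (2 * x + 1),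
          ‖∑ n ∈ Ioc (u : ℤ) (u + h), muz x 0 n * ex ((n : ℝ) * (k0 / ((4 * x + 1 : ℕ) : ℝ)))‖ ^ 2 ≤
        1 * ((x : ℝ) * (h : ℝ) ^ 2 / L ^ (B + 5)) := by
          rw [one_mul]
          exact e0
      _ ≤ L ^ 4 * ((x : ℝ) * (h : ℝ) ^ 2 / L ^ (B + 5)) := by
          refine mul_le_mul_of_nonneg_right e7 (by positivity)
      _ = x * (h : ℝ) ^ 2 / L ^ (B + 1) := by
          have e3 : L ^ (B + 5) = L ^ 4 * L ^ (B + 1) := by rw [← pow_add]; congr 1; omega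
          rw [e3]
          have e4 : L ^ 4 ≠ 0 := (pow_pos hL0 4).ne'
          have e5 : L ^ (B + 1) ≠ 0 := (pow_pos hL0 _).ne'
          field_simp
  have hgal := VK.gallagher x H' (by omega) (by omega) mr (L ^ 2) hK k0
    (x * (h : ℝ) ^ 2 / L ^ (B + 1)) (by
      rw [← hh]
      exact hwin)
  have hH0 : (0 : ℝ) < H := by
    have : 0 < H := by omega
    exact_mod_cast this
  have hH'0 : (0 : ℝ) < H' := by
    have : 0 < H' := by omega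
    exact_mod_cast this
  have hH'Hr : (H' : ℝ) ≤ H := by exact_mod_cast hH'H
  have hsub : wdw x H k0 ⊆
      (range (4 * x + 1)).filter
      (fun k : ℕ => nrm (((k : ℝ) - k0) / ((4 * x + 1 : ℕ) : ℝ)) ≤ 2 / (H' : ℝ)) := by
    intro k hk
    unfold wdw at hk
    rw [mem_filter] at hk ⊢
    refine ⟨hk.1, hk.2.trans ?_⟩
    exact div_le_div_of_nonneg_left (by norm_num) hH'0 hH'Hr
  refine (sum_le_sum_of_subset_of_nonneg hsub fun _ _ _ => by (clear * -; positivity)).trans (hgal.trans ?_)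
  have hN5 : ((4 * x + 1 : ℕ) : ℝ) ≤ 5 * x := by
    push_cast
    linarith only [hx1']
  have hB1 : 0 < L ^ (B + 1) := pow_pos hL0 _
  -- first term
  have t1 : 256 / (H' : ℝ) ^ 2 * ((4 * x + 1 : ℕ) : ℝ) * (x * (h : ℝ) ^ 2 / L ^ (B + 1)) ≤
      80 * ((x : ℝ) ^ 2 / L ^ (B + 1)) := by
    have e1 : (h : ℝ) ≤ H' / 4 := by linarith only [hh4]
    calc 256 / (H' : ℝ) ^ 2 * ((4 * x + 1 : ℕ) : ℝ) * (x * (h : ℝ) ^ 2 / L ^ (B + 1)) ≤
        256 / (H' : ℝ) ^ 2 * (5 * x) * (x * (H' / 4 : ℝ) ^ 2 / L ^ (B + 1)) := by gcongr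
      _ = 80 * ((x : ℝ) ^ 2 / L ^ (B + 1)) := by
          field_simp
          ring
  -- second term
  have t2 : 256 / (H' : ℝ) ^ 2 * ((4 * x + 1 : ℕ) : ℝ) * ((H' : ℝ) ^ 3 * (L ^ 2) ^ 2) ≤
      1280 * ((x : ℝ) ^ 2 / L ^ (B + 1)) := by
    calc 256 / (H' : ℝ) ^ 2 * ((4 * x + 1 : ℕ) : ℝ) * ((H' : ℝ) ^ 3 * (L ^ 2) ^ 2) ≤
        256 / (H' : ℝ) ^ 2 * (5 * x) * ((H' : ℝ) ^ 3 * (L ^ 2) ^ 2) := by gcongr
      _ = 1280 * (x * (H' * L ^ 4)) := by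
          field_simp
          ring
      _ ≤ 1280 * (x * (x / L ^ m * L ^ 4)) := by
          rw [← hy]
          gcongr
      _ ≤ 1280 * ((x : ℝ) ^ 2 / L ^ (B + 1)) := by
          have e1 : L ^ m = L ^ (B + 1) * (L ^ 4 * L ^ 3) := by
            rw [← pow_add, ← pow_add]
            congr 1
          have e2 : 1 ≤ L ^ 3 := one_le_pow₀ hL1
          have e3 : (x : ℝ) / L ^ m * L ^ 4 ≤ x / L ^ (B + 1) := by
            rw [e1, div_mul_eq_mul_div, div_le_div_iff₀ (by (clear * - hL; positivity)) hB1]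
            have e4 : 0 < (x : ℝ) * L ^ 4 * L ^ (B + 1) := by (clear * - hx1 hL; positivity)
            nlinarith only [he0, he2, e2, e4]
          calc 1280 * (x * (x / L ^ m * L ^ 4)) ≤ 1280 * (x * (x / L ^ (B + 1))) := by gcongr
            _ = 1280 * ((x : ℝ) ^ 2 / L ^ (B + 1)) := by ring
  calc 256 / (H' : ℝ) ^ 2 * ((4 * x + 1 : ℕ) : ℝ) *
        (x * (h : ℝ) ^ 2 / L ^ (B + 1) + (H' : ℝ) ^ 3 * (L ^ 2) ^ 2) =
      256 / (H' : ℝ) ^ 2 * ((4 * x + 1 : ℕ) : ℝ) * (x * (h : ℝ) ^ 2 / L ^ (B + 1)) +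
      256 / (H' : ℝ) ^ 2 * ((4 * x + 1 : ℕ) : ℝ) * ((H' : ℝ) ^ 3 * (L ^ 2) ^ 2) := by ring
    _ ≤ 80 * ((x : ℝ) ^ 2 / L ^ (B + 1)) + 1280 * ((x : ℝ) ^ 2 / L ^ (B + 1)) := add_le_add t1 t2
    _ = 1360 * ((x : ℝ) ^ 2 / L ^ (B + 1)) := by ring
    _ ≤ L * ((x : ℝ) ^ 2 / L ^ (B + 1)) := by gcongr
    _ = (x : ℝ) ^ 2 / L ^ B := by
        rw [pow_succ L B]
        field_simp

end Pool.Agent.MB
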